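import Pool.Agent.Lib.MP_2116eb_an.Defs

set_option autoImplicit false

/-!
# Elementary facts on the averages and on log-Hölder functions
-/

open MeasureTheory
open scoped ENNReal NNReal

noncomputable section

namespace Pool.Agent.Lib.MP_2116eb_an

variable {n : ℕ}

/-- the kernel of `avg` -/
def eta (n j : ℕ) (M : ℝ) (z : E n) : ℝ≥0∞ :=
  ENNReal.ofReal ((2 : ℝ) ^ ((j : ℝ) * n) * (1 + (2 : ℝ) ^ j * ‖z‖) ^ (-M))

theorem avg_eq (j : ℕ) (M : ℝ) (g : E n → ℝ≥0∞) (x : E n) :
    avg j M g x = ∫⁻ y, eta n j M (x - y) * g y := rfl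

theorem one_le_br (j : ℕ) (z : E n) : 1 ≤ 1 + (2 : ℝ) ^ j * ‖z‖ := by
  have : 0 ≤ (2 : ℝ) ^ j * ‖z‖ := by positivity
  linarith

theorem br_pos (j : ℕ) (z : E n) : 0 < 1 + (2 : ℝ) ^ j * ‖z‖ := by
  have := one_le_br j z; linarith

theorem measurable_eta (j : ℕ) (M : ℝ) : Measurable (eta n j M) := by
  unfold eta
  apply ENNReal.measurable_ofReal.comp
  apply Measurable.const_mul
  apply Measurable.pow_const
  exact (measurable_norm.const_mul _).const_add _

theorem measurable_eta_sub (j : ℕ) (M : ℝ) :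
    Measurable (fun p : E n × E n => eta n j M (p.1 - p.2)) :=
  (measurable_eta j M).comp (measurable_fst.sub measurable_snd)

theorem measurable_avg (j : ℕ) (M : ℝ) {g : E n → ℝ≥0∞} (hg : Measurable g) :
    Measurable (avg j M g) := by
  have : Measurable (fun p : E n × E n => eta n j M (p.1 - p.2) * g p.2) :=
    (measurable_eta_sub j M).mul (hg.comp measurable_snd)
  exact this.lintegral_prod_right'

theorem eta_neg (j : ℕ) (M : ℝ) (z : E n) : eta n j M (-z) = eta n j M z := by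
  simp [eta]

theorem eta_symm (j : ℕ) (M : ℝ) (x y : E n) : eta n j M (x - y) = eta n j M (y - x) := by
  rw [← neg_sub, eta_neg]

theorem avg_mono (j : ℕ) (M : ℝ) {g h : E n → ℝ≥0∞} (hgh : ∀ y, g y ≤ h y) (x : E n) :
    avg j M g x ≤ avg j M h x :=
  lintegral_mono fun y => mul_le_mul_right (hgh y) _

theorem avg_const_mul (j : ℕ) (M : ℝ) {g : E n → ℝ≥0∞} (hg : Measurable g) (c : ℝ≥0∞) (x : E n) :
    avg j M (fun y => c * g y) x = c * avg j M g x := by
  rw [avg_eq, avg_eq, ← lintegral_const_mul]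
  · refine lintegral_congr fun y => ?_
    ring
  · exact (((measurable_eta j M).comp (measurable_const.sub measurable_id))).mul hg

/-- duality -/
theorem lintegral_avg_mul (j : ℕ) (M : ℝ) {u g : E n → ℝ≥0∞} (hu : Measurable u)
    (hg : Measurable g) : ∫⁻ x, avg j M u x * g x = ∫⁻ y, u y * avg j M g y := by
  have h1 : ∀ x, avg j M u x * g x = ∫⁻ y, eta n j M (x - y) * u y * g x := by
    intro x
    rw [avg_eq, lintegral_mul_const]
    exact (((measurable_eta j M).comp (measurable_const.sub measurable_id))).mul hu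
  have h2 : ∀ y, u y * avg j M g y = ∫⁻ x, eta n j M (x - y) * u y * g x := by
    intro y
    rw [avg_eq, ← lintegral_const_mul]
    · refine lintegral_congr fun x => ?_
      rw [eta_symm j M y x]; ring
    · exact (((measurable_eta j M).comp (measurable_const.sub measurable_id))).mul hg
  simp_rw [h1, h2]
  apply lintegral_lintegral_swap
  apply Measurable.aemeasurable
  exact ((measurable_eta_sub j M).mul (hu.comp measurable_snd)).mul (hg.comp measurable_fst)

/-- the integral of the kernel -/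
def cM (n : ℕ) (M : ℝ) : ℝ≥0∞ := ∫⁻ z : E n, ENNReal.ofReal ((1 + ‖z‖) ^ (-M))

theorem cM_lt_top {M : ℝ} (hM : (n : ℝ) < M) : cM n M < ∞ := by
  apply finite_integral_one_add_norm
  simpa using hM

theorem lintegral_eta (j : ℕ) (M : ℝ) : ∫⁻ z : E n, eta n j M z = cM n M := by
  have h2 : ((2 : ℝ) ^ j) ≠ 0 := by positivity
  have h := Measure.map_addHaar_smul (volume : Measure (E n)) h2
  have hm : Measurable fun z : E n => ENNReal.ofReal ((1 + ‖z‖) ^ (-M)) := by
    apply ENNReal.measurable_ofReal.comp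
    apply Measurable.pow_const
    exact measurable_norm.const_add _
  have h3 : ∫⁻ z : E n, ENNReal.ofReal ((1 + ‖z‖) ^ (-M))
      ∂(Measure.map (fun x : E n => ((2 : ℝ) ^ j) • x) volume) =
      ∫⁻ z : E n, ENNReal.ofReal ((1 + (2 : ℝ) ^ j * ‖z‖) ^ (-M)) := by
    rw [lintegral_map hm (measurable_const_smul _)]
    refine lintegral_congr fun z => ?_
    rw [norm_smul, Real.norm_of_nonneg (by positivity)]
  rw [h, lintegral_smul_measure] at h3
  have h4 : ∀ z : E n, eta n j M z = ENNReal.ofReal ((2 : ℝ) ^ ((j : ℝ) * n)) *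
      ENNReal.ofReal ((1 + (2 : ℝ) ^ j * ‖z‖) ^ (-M)) := by
    intro z
    rw [eta, ENNReal.ofReal_mul (by positivity)]
  simp_rw [h4]
  rw [lintegral_const_mul, ← h3]
  · rw [smul_eq_mul, ← mul_assoc, ← ENNReal.ofReal_mul (by positivity)]
    have h5 : (2 : ℝ) ^ ((j : ℝ) * n) * |(((2 : ℝ) ^ j) ^ Module.finrank ℝ (E n))⁻¹| = 1 := by
      rw [finrank_euclideanSpace_fin, abs_of_nonneg (by positivity)]
      have : (2 : ℝ) ^ ((j : ℝ) * n) = ((2 : ℝ) ^ j) ^ n := by
        rw [← pow_mul, ← Real.rpow_natCast]; push_cast; rfl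
      rw [this]
      exact mul_inv_cancel₀ (by positivity)
    rw [h5]; simp [cM]
  · apply ENNReal.measurable_ofReal.comp
    apply Measurable.pow_const
    exact (measurable_norm.const_mul _).const_add _

theorem lintegral_eta_sub (j : ℕ) (M : ℝ) (x : E n) : ∫⁻ y, eta n j M (x - y) = cM n M := by
  rw [lintegral_sub_left_eq_self (fun z => eta n j M z) x, lintegral_eta]

theorem eta_le (j : ℕ) {M : ℝ} (hM : 0 ≤ M) (z : E n) :
    eta n j M z ≤ ENNReal.ofReal ((2 : ℝ) ^ ((j : ℝ) * n)) := by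
  apply ENNReal.ofReal_le_ofReal
  apply mul_le_of_le_one_right (by positivity)
  exact Real.rpow_le_one_of_one_le_of_nonpos (one_le_br j z) (by linarith)

theorem eta_mul_br (j : ℕ) (M R : ℝ) (z : E n) :
    eta n j (M + R) z * ENNReal.ofReal ((1 + (2 : ℝ) ^ j * ‖z‖) ^ R) = eta n j M z := by
  have := br_pos j z
  rw [eta, eta, ← ENNReal.ofReal_mul (by positivity), mul_assoc, ← Real.rpow_add this]
  congr 3; ring

theorem avg_antitone (j : ℕ) {M M' : ℝ} (h : M ≤ M') (g : E n → ℝ≥0∞) (x : E n) :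
    avg j M' g x ≤ avg j M g x := by
  refine lintegral_mono fun y => ?_
  dsimp only
  gcongr
  exact one_le_br j (x - y)

/-- Local log-Hölder continuity with an explicit constant. -/
def LocC (g : E n → ℝ) (c : ℝ) : Prop :=
  ∀ x y, |g x - g y| ≤ c / Real.log (Real.exp 1 + 1 / ‖x - y‖)

/-- Log-Hölder continuity at infinity with an explicit constant. -/
def GlobC (g : E n → ℝ) (g' c : ℝ) : Prop :=
  ∀ x, |g x - g'| ≤ c / Real.log (Real.exp 1 + ‖x‖)

theorem one_le_log (t : ℝ) (ht : 0 ≤ t) : 1 ≤ Real.log (Real.exp 1 + t) := by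
  rw [Real.le_log_iff_exp_le (by positivity)]
  linarith

theorem LocC.nonneg {g : E n → ℝ} {c : ℝ} (h : LocC g c) : 0 ≤ c := by
  have := h 0 0
  simpa using this

theorem GlobC.nonneg {g : E n → ℝ} {g' c : ℝ} (h : GlobC g g' c) : 0 ≤ c := by
  have h1 := h 0
  have h2 := one_le_log ‖(0 : E n)‖ (norm_nonneg _)
  by_contra hc
  push Not at hc
  have h3 : c / Real.log (Real.exp 1 + ‖(0 : E n)‖) < 0 := div_neg_of_neg_of_pos hc (by linarith)
  have := abs_nonneg (g 0 - g')
  linarith

/-- Lemma L -/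
theorem lemmaL {g : E n → ℝ} {c : ℝ} (h : LocC g c) (j : ℕ) (x y : E n) :
    (2 : ℝ) ^ ((j : ℝ) * |g x - g y|) ≤
      Real.exp c * (1 + (2 : ℝ) ^ j * ‖x - y‖) ^ c := by
  have hc := h.nonneg
  rcases eq_or_ne x y with rfl | hxy
  · simpa using hc
  have hd : 0 < ‖x - y‖ := norm_pos_iff.mpr (sub_ne_zero.mpr hxy)
  have h1 := h x y
  have hL := one_le_log (1 / ‖x - y‖) (by positivity)
  set L := Real.log (Real.exp 1 + 1 / ‖x - y‖) with hLdef
  have h2 : |g x - g y| * L ≤ c := (le_div_iff₀ (by linarith)).mp h1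
  have h0 := abs_nonneg (g x - g y)
  have h3 : |g x - g y| ≤ c := by nlinarith
  have h4 : (j : ℝ) * Real.log 2 ≤ Real.log (1 + (2 : ℝ) ^ j * ‖x - y‖) + L := by
    have e1 : (j : ℝ) * Real.log 2 = Real.log ((2 : ℝ) ^ j * ‖x - y‖) + Real.log (1 / ‖x - y‖) := by
      rw [← Real.log_mul (by positivity) (by positivity)]
      rw [mul_assoc, mul_one_div_cancel hd.ne', mul_one, Real.log_pow]
    rw [e1]
    gcongr
    · linarith
    · rw [hLdef]
      gcongr
      have := Real.exp_pos 1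
      linarith
  have h5 : 0 ≤ Real.log (1 + (2 : ℝ) ^ j * ‖x - y‖) := Real.log_nonneg (one_le_br j _)
  have h6 : (j : ℝ) * |g x - g y| * Real.log 2 ≤ c + c * Real.log (1 + (2 : ℝ) ^ j * ‖x - y‖) := by
    have : (j : ℝ) * |g x - g y| * Real.log 2 ≤
        |g x - g y| * (Real.log (1 + (2 : ℝ) ^ j * ‖x - y‖) + L) := by
      calc (j : ℝ) * |g x - g y| * Real.log 2 = |g x - g y| * ((j : ℝ) * Real.log 2) := by ring
        _ ≤ _ := by gcongr
    nlinarith
  rw [Real.rpow_def_of_pos (by norm_num), Real.rpow_def_of_pos (br_pos j _), ← Real.exp_add]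
  apply Real.exp_le_exp.mpr
  linarith

/-- Lemma L' -/
theorem lemmaL' {g : E n → ℝ} {g' c : ℝ} (h : GlobC g g' c) {m : ℝ} (hm : 0 ≤ m) (x y : E n) :
    (Real.exp 1 + ‖x‖) ^ (m * |g x - g y|) ≤
      Real.exp (2 * m * c) * (1 + ‖x - y‖) ^ (m * c) := by
  have hc := h.nonneg
  have hx := h x
  have hy := h y
  have Lx := one_le_log ‖x‖ (norm_nonneg _)
  have Ly := one_le_log ‖y‖ (norm_nonneg _)
  have he : 1 ≤ Real.exp 1 := by
    have := Real.add_one_le_exp (1 : ℝ); linarith
  have hL : Real.log (Real.exp 1 + ‖x‖) ≤ Real.log (Real.exp 1 + ‖y‖) + Real.log (1 + ‖x - y‖) := by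
    have hy0 := norm_nonneg y
    have hxy0 := norm_nonneg (x - y)
    have hx0 := norm_nonneg x
    rw [← Real.log_mul (by positivity) (by positivity)]
    apply Real.log_le_log (by positivity)
    have : ‖x‖ ≤ ‖y‖ + ‖x - y‖ := by
      calc ‖x‖ = ‖y + (x - y)‖ := by congr 1; abel
        _ ≤ _ := norm_add_le _ _
    nlinarith [mul_nonneg hy0 hxy0]
  set lx := Real.log (Real.exp 1 + ‖x‖) with hlx
  set ly := Real.log (Real.exp 1 + ‖y‖) with hly
  have hxy1 : 0 ≤ Real.log (1 + ‖x - y‖) := Real.log_nonneg (by have := norm_nonneg (x - y); linarith)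
  have key : |g x - g y| * lx ≤ 2 * c + c * Real.log (1 + ‖x - y‖) := by
    have e1 : |g x - g y| ≤ c / lx + c / ly := by
      have : g x - g y = (g x - g') - (g y - g') := by ring
      rw [this]
      exact (abs_sub _ _).trans (add_le_add hx hy)
    have e2 : |g x - g y| * lx ≤ (c / lx + c / ly) * lx := by gcongr
    have e3 : (c / lx + c / ly) * lx = c + c * (lx / ly) := by
      field_simp
    have e4 : lx / ly ≤ 1 + Real.log (1 + ‖x - y‖) := by
      rw [div_le_iff₀ (by linarith)]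
      nlinarith
    rw [e3] at e2
    nlinarith
  rw [Real.rpow_def_of_pos (by positivity), Real.rpow_def_of_pos (by positivity), ← Real.exp_add]
  apply Real.exp_le_exp.mpr
  rw [← hlx]
  nlinarith [mul_le_mul_of_nonneg_left key hm]

end Pool.Agent.Lib.MP_2116eb_an
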