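import Mathlib

set_option autoImplicit false

/-!
# Triebel-Lizorkin spaces with variable exponents: definitions

`E n` is Euclidean space of dimension `n`; the Fourier transform is the one of Mathlib
(kernel `exp (-2 π i ⟨x, ξ⟩)`).
-/

open MeasureTheory SchwartzMap FourierTransform
open scoped ENNReal NNReal

noncomputable section

namespace Pool.Agent.Lib.MP_2116eb_an

/-- Euclidean space of dimension `n`. -/
abbrev E (n : ℕ) := EuclideanSpace ℝ (Fin n)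

variable {n : ℕ}

/-- `g` is locally log-Hölder continuous. -/
def LogLoc (g : E n → ℝ) : Prop :=
  Continuous g ∧ ∃ C : ℝ, ∀ x y, |g x - g y| ≤ C / Real.log (Real.exp 1 + 1 / ‖x - y‖)

/-- `g` is globally log-Hölder continuous. -/
def LogGlob (g : E n → ℝ) : Prop :=
  LogLoc g ∧ ∃ g' C : ℝ, ∀ x, |g x - g'| ≤ C / Real.log (Real.exp 1 + ‖x‖)

/-- The class `𝒫^log`: measurable `p : ℝⁿ → (c, ∞]` for some `c > 0`, with `1 / p` globally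
log-Hölder continuous. -/
def PLog (p : E n → ℝ≥0∞) : Prop :=
  Measurable p ∧ (∃ c : ℝ≥0, 0 < c ∧ ∀ x, (c : ℝ≥0∞) < p x) ∧ LogGlob fun x => ((p x)⁻¹).toReal

/-- The modular of the variable exponent Lebesgue space (for nonnegative functions). -/
def modular (p : E n → ℝ≥0∞) (f : E n → ℝ≥0∞) : ℝ≥0∞ :=
  (∫⁻ x in {x | p x < ∞}, f x ^ (p x).toReal) + essSup f (volume.restrict {x | p x = ∞})

/-- The Luxemburg (quasi-)norm of the variable exponent Lebesgue space. -/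
def lpNorm (p : E n → ℝ≥0∞) (f : E n → ℝ≥0∞) : ℝ≥0∞ :=
  ⨅ t : {t : ℝ≥0 // 0 < t ∧ modular p (fun x => f x / (t : ℝ≥0∞)) ≤ 1}, ((t : ℝ≥0) : ℝ≥0∞)

/-- The (quasi-)norm of the sequence space `ℓ_r`, `0 < r ≤ ∞`. -/
def lqNorm (r : ℝ≥0∞) (a : ℕ → ℝ≥0∞) : ℝ≥0∞ :=
  if r = ∞ then ⨆ j, a j else (∑' j, a j ^ r.toReal) ^ (1 / r.toReal)

/-- Admissible functions (for the radius `ρ`): Schwartz functions that are one on the ball of
radius `ρ` and supported in the ball of radius `2 ρ`.  The case `ρ = 1` is the standard one for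
the normalisation `exp (-2 π i ⟨x, ξ⟩)` of the Fourier transform, and the case `ρ = 1 / (2 π)` is
the standard one for the normalisation `exp (-i ⟨x, ξ⟩)`. -/
def Admissible (ρ : ℝ) (φ : 𝓢(E n, ℂ)) : Prop :=
  (∀ ξ, ‖ξ‖ ≤ ρ → φ ξ = 1) ∧ ∀ ξ, 2 * ρ < ‖ξ‖ → φ ξ = 0

/-- The dilation `ξ ↦ φ (2 ^ (-j) ξ)`. -/
def dil (φ : 𝓢(E n, ℂ)) (j : ℕ) : 𝓢(E n, ℂ) :=
  SchwartzMap.compCLMOfContinuousLinearEquiv ℂ
    (ContinuousLinearEquiv.smulLeft (R₁ := ℝ) (M₁ := E n) (Units.mk0 (((2 : ℝ) ^ j)⁻¹) (by positivity))) φ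

/-- The resolution of unity generated by `φ₀`. -/
def res (φ : 𝓢(E n, ℂ)) : ℕ → 𝓢(E n, ℂ)
  | 0 => φ
  | (j + 1) => dil φ (j + 1) - dil φ j

/-- `(φ f^)^∨ (x)`, that is the value of the Fourier transform of `f` at the Schwartz function
`ξ ↦ exp (2 π i ⟨x, ξ⟩) φ ξ`. -/
def piece (φ : 𝓢(E n, ℂ)) (f : 𝓢'(E n, ℂ)) (x : E n) : ℂ :=
  (𝓕 f) (SchwartzMap.smulLeftCLM ℂ
    (fun ξ : E n => Complex.exp (2 * Real.pi * Complex.I * ((inner ℝ x ξ : ℝ) : ℂ))) φ)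

/-- The quasi-norm of the Triebel-Lizorkin space `F^{s(·)}_{p(·),q(·)}` built from `φ₀`. -/
def tlNorm (φ : 𝓢(E n, ℂ)) (p q : E n → ℝ≥0∞) (s : E n → ℝ) (f : 𝓢'(E n, ℂ)) : ℝ≥0∞ :=
  lpNorm p fun x => lqNorm (q x) fun j =>
    ENNReal.ofReal ((2 : ℝ) ^ ((j : ℝ) * s x)) * ‖piece (res φ j) f x‖ₑ

/-- The averages `η_{j,M} * g (x)` with `η_{j,M}(z) = 2^{jn} (1 + 2^j |z|)^{-M}`. -/
def avg (j : ℕ) (M : ℝ) (g : E n → ℝ≥0∞) (x : E n) : ℝ≥0∞ :=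
  ∫⁻ y, ENNReal.ofReal ((2 : ℝ) ^ ((j : ℝ) * n) * (1 + (2 : ℝ) ^ j * ‖x - y‖) ^ (-M)) * g y

end Pool.Agent.Lib.MP_2116eb_an
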