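import Mathlib
import Pool.Agent.Lib.MP_2116eb_an.Base

/-!
# The Hardy-Littlewood maximal theorem on Euclidean space, for the averages `avg`
-/

set_option autoImplicit false

open MeasureTheory Metric Set
open scoped ENNReal NNReal

noncomputable section

namespace Pool.Agent.Lib.MP_2116eb_an

variable {n : ℕ}

/-- The Hardy-Littlewood maximal function. -/
def hlm (G : E n → ℝ≥0∞) (x : E n) : ℝ≥0∞ :=
  ⨆ r : {r : ℝ // 0 < r}, (volume (closedBall x (r : ℝ)))⁻¹ * ∫⁻ y in closedBall x (r : ℝ), G y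

theorem vol_closedBall (x : E n) {r : ℝ} (hr : 0 ≤ r) :
    volume (closedBall x r) = ENNReal.ofReal (r ^ n) * volume (ball (0 : E n) 1) := by
  have := Measure.addHaar_closedBall (volume : Measure (E n)) x hr
  rwa [finrank_euclideanSpace_fin] at this

theorem vol_closedBall_pos (x : E n) {r : ℝ} (hr : 0 < r) : volume (closedBall x r) ≠ 0 :=
  (measure_closedBall_pos volume x hr).ne'

theorem vol_closedBall_top (x : E n) (r : ℝ) : volume (closedBall x r) ≠ ∞ :=
  measure_closedBall_lt_top.ne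

theorem ball_le (G : E n → ℝ≥0∞) (x : E n) {r : ℝ} (hr : 0 < r) :
    ∫⁻ y in closedBall x r, G y ≤ volume (closedBall x r) * hlm G x := by
  have h : (volume (closedBall x r))⁻¹ * ∫⁻ y in closedBall x r, G y ≤ hlm G x :=
    le_iSup (fun r : {r : ℝ // 0 < r} =>
      (volume (closedBall x (r : ℝ)))⁻¹ * ∫⁻ y in closedBall x (r : ℝ), G y) ⟨r, hr⟩
  calc ∫⁻ y in closedBall x r, G y
      = volume (closedBall x r) * ((volume (closedBall x r))⁻¹ * ∫⁻ y in closedBall x r, G y) := by
        rw [← mul_assoc, ENNReal.mul_inv_cancel (vol_closedBall_pos x hr)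
          (vol_closedBall_top x r), one_mul]
    _ ≤ _ := by gcongr

theorem weight_le (M : ℝ) (hM : 0 ≤ M) (u : ℝ) (hu : 0 ≤ u) :
    ∃ i : ℕ, u ≤ 2 ^ i ∧ (1 + u) ^ (-M) ≤ 2 ^ M * ((2 : ℝ) ^ (-M)) ^ i := by
  classical
  have hex : ∃ i : ℕ, u ≤ 2 ^ i := by
    obtain ⟨i, hi⟩ := pow_unbounded_of_one_lt u (one_lt_two)
    exact ⟨i, hi.le⟩
  refine ⟨Nat.find hex, Nat.find_spec hex, ?_⟩
  rcases h : Nat.find hex with _ | i
  · have h1 : (1 + u) ^ (-M) ≤ 1 :=
      Real.rpow_le_one_of_one_le_of_nonpos (by linarith) (by linarith)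
    have h2 : (1 : ℝ) ≤ 2 ^ M := Real.one_le_rpow (by norm_num) hM
    simpa using h1.trans h2
  · have h3 : ¬ u ≤ 2 ^ i := Nat.find_min hex (by omega)
    push Not at h3
    have h4 : (1 + u) ^ (-M) ≤ ((2 : ℝ) ^ i) ^ (-M) :=
      Real.rpow_le_rpow_of_nonpos (by positivity) (by linarith) (by linarith)
    refine h4.trans (le_of_eq ?_)
    rw [pow_succ, ← Real.rpow_natCast 2 i, ← Real.rpow_mul (by norm_num),
      ← Real.rpow_natCast ((2 : ℝ) ^ (-M)) i, ← Real.rpow_mul (by norm_num),
      ← Real.rpow_add (by norm_num), ← Real.rpow_add (by norm_num)]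
    congr 1
    ring

theorem avg_le_hlm (M : ℝ) (hM : (n : ℝ) < M) :
    ∃ C : ℝ≥0, ∀ (G : E n → ℝ≥0∞), Measurable G → ∀ (j : ℕ) (x : E n),
      avg j M G x ≤ C * hlm G x := by
  have hM0 : 0 < M := lt_of_le_of_lt (Nat.cast_nonneg n) hM
  have hq : ENNReal.ofReal ((2 : ℝ) ^ ((n : ℝ) - M)) < 1 := by
    rw [ENNReal.ofReal_lt_one]
    exact Real.rpow_lt_one_of_one_lt_of_neg one_lt_two (by linarith)
  set K : ℝ≥0∞ := ENNReal.ofReal ((2 : ℝ) ^ M) * volume (ball (0 : E n) 1) *
    (1 - ENNReal.ofReal ((2 : ℝ) ^ ((n : ℝ) - M)))⁻¹ with hK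
  have hKtop : K ≠ ∞ := by
    refine ENNReal.mul_ne_top (ENNReal.mul_ne_top ENNReal.ofReal_ne_top measure_ball_lt_top.ne) ?_
    rw [ENNReal.inv_ne_top]
    exact (tsub_pos_of_lt hq).ne'
  refine ⟨K.toNNReal, fun G hG j x => ?_⟩
  rw [ENNReal.coe_toNNReal hKtop]
  set c : ℕ → ℝ := fun i => (2 : ℝ) ^ ((j : ℝ) * n) * (2 ^ M * ((2 : ℝ) ^ (-M)) ^ i) with hc
  have hc0 : ∀ i, 0 ≤ c i := fun i => by positivity
  set r : ℕ → ℝ := fun i => 2 ^ i / 2 ^ j with hr
  have hr0 : ∀ i, 0 < r i := fun i => by positivity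
  have h1 : ∀ y, ENNReal.ofReal ((2 : ℝ) ^ ((j : ℝ) * n) * (1 + (2 : ℝ) ^ j * ‖x - y‖) ^ (-M)) * G y
      ≤ ∑' i : ℕ, (closedBall x (r i)).indicator (fun y => ENNReal.ofReal (c i) * G y) y := by
    intro y
    obtain ⟨i, hi1, hi2⟩ := weight_le M hM0.le ((2 : ℝ) ^ j * ‖x - y‖) (by positivity)
    refine le_trans ?_ (ENNReal.le_tsum i)
    have hy : y ∈ closedBall x (r i) := by
      rw [mem_closedBall, dist_comm, dist_eq_norm, hr]
      rw [le_div_iff₀ (by positivity)]
      linarith
    rw [indicator_of_mem hy]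
    gcongr
    exact mul_le_mul_of_nonneg_left hi2 (by positivity)
  calc avg j M G x
      ≤ ∫⁻ y, ∑' i : ℕ, (closedBall x (r i)).indicator (fun y => ENNReal.ofReal (c i) * G y) y :=
        lintegral_mono h1
    _ = ∑' i : ℕ, ∫⁻ y, (closedBall x (r i)).indicator (fun y => ENNReal.ofReal (c i) * G y) y := by
        rw [lintegral_tsum]
        intro i
        exact ((measurable_const.mul hG).indicator measurableSet_closedBall).aemeasurable
    _ = ∑' i : ℕ, ENNReal.ofReal (c i) * ∫⁻ y in closedBall x (r i), G y := by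
        congr 1
        ext i
        rw [lintegral_indicator measurableSet_closedBall, lintegral_const_mul _ hG]
    _ ≤ ∑' i : ℕ, ENNReal.ofReal (c i) * (volume (closedBall x (r i)) * hlm G x) := by
        gcongr with i
        exact ball_le G x (hr0 i)
    _ = ∑' i : ℕ, (ENNReal.ofReal ((2 : ℝ) ^ M) * volume (ball (0 : E n) 1) * hlm G x) *
          (ENNReal.ofReal ((2 : ℝ) ^ ((n : ℝ) - M))) ^ i := by
        congr 1
        ext i
        rw [vol_closedBall x (hr0 i).le]
        have e : ENNReal.ofReal (c i) * ENNReal.ofReal ((r i) ^ n)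
            = ENNReal.ofReal ((2 : ℝ) ^ M) * (ENNReal.ofReal ((2 : ℝ) ^ ((n : ℝ) - M))) ^ i := by
          rw [← ENNReal.ofReal_mul (hc0 i), ← ENNReal.ofReal_pow (by positivity),
            ← ENNReal.ofReal_mul (by positivity)]
          congr 1
          simp only [hc, hr]
          have e1 : (2 : ℝ) ^ ((j : ℝ) * n) = (2 ^ j) ^ n := by
            rw [Real.rpow_mul (by norm_num), Real.rpow_natCast, Real.rpow_natCast]
          have e2 : (2 : ℝ) ^ ((n : ℝ) - M) = 2 ^ n * 2 ^ (-M) := by
            rw [sub_eq_add_neg, Real.rpow_add (by norm_num), Real.rpow_natCast]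
          rw [e1, e2, div_pow, mul_pow, ← pow_mul, ← pow_mul, ← pow_mul, mul_comm n i]
          field_simp
        calc ENNReal.ofReal (c i) * (ENNReal.ofReal (r i ^ n) * volume (ball (0 : E n) 1) * hlm G x)
            = (ENNReal.ofReal (c i) * ENNReal.ofReal ((r i) ^ n)) * (volume (ball (0 : E n) 1) *
                hlm G x) := by ring
          _ = _ := by rw [e]; ring
    _ = K * hlm G x := by
        rw [ENNReal.tsum_mul_left, ENNReal.tsum_geometric, hK]
        ring

/-- Weak type (1,1) bound of the maximal function. -/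
theorem hlm_weak (hn : 0 < n) (G : E n → ℝ≥0∞) (l : ℝ≥0∞) (hl : l ≠ 0) :
    l * volume {x | l < hlm G x} ≤ ENNReal.ofReal (5 ^ n) * ∫⁻ y, G y := by
  rcases eq_or_ne l ∞ with rfl | hltop
  · simp
  rcases eq_or_ne (∫⁻ y, G y) ∞ with hI | hI
  · rw [hI, ENNReal.mul_top]
    · exact le_top
    · simp
  have hx : ∀ x : E n, ∃ r : ℝ, 0 < r ∧
      (l < hlm G x → l * volume (closedBall x r) ≤ ∫⁻ y in closedBall x r, G y) := by
    intro x
    by_cases h : l < hlm G x
    · obtain ⟨⟨r, hr⟩, h'⟩ := lt_iSup_iff.1 h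
      refine ⟨r, hr, fun _ => ?_⟩
      simp only at h'
      calc l * volume (closedBall x r)
          ≤ ((volume (closedBall x r))⁻¹ * ∫⁻ y in closedBall x r, G y) *
            volume (closedBall x r) := by gcongr
        _ = (volume (closedBall x r) * (volume (closedBall x r))⁻¹) *
            ∫⁻ y in closedBall x r, G y := by ring
        _ = _ := by
          rw [ENNReal.mul_inv_cancel (vol_closedBall_pos x hr) (vol_closedBall_top x r), one_mul]
    · exact ⟨1, one_pos, fun h' => absurd h' h⟩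
  choose r hr0 hr using hx
  set v : ℝ≥0∞ := volume (ball (0 : E n) 1) with hv
  have hv0 : v ≠ 0 := (measure_ball_pos volume _ one_pos).ne'
  have hvtop : v ≠ ∞ := measure_ball_lt_top.ne
  set I : ℝ≥0∞ := ∫⁻ y, G y with hIdef
  set B : ℝ≥0∞ := I / (l * v) with hB
  have hlv0 : l * v ≠ 0 := mul_ne_zero hl hv0
  have hlvtop : l * v ≠ ∞ := ENNReal.mul_ne_top hltop hvtop
  have hBtop : B ≠ ∞ := ENNReal.div_ne_top hI hlv0
  have hrR : ∀ x ∈ {x | l < hlm G x}, r x ≤ max 1 B.toReal := by
    intro x hx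
    have h1 := hr x hx
    have h2 : ENNReal.ofReal (r x ^ n) * (l * v) ≤ I := by
      calc ENNReal.ofReal (r x ^ n) * (l * v) = l * volume (closedBall x (r x)) := by
            rw [vol_closedBall x (hr0 x).le]; ring
        _ ≤ ∫⁻ y in closedBall x (r x), G y := h1
        _ ≤ I := setLIntegral_le_lintegral _ _
    have h3 : ENNReal.ofReal (r x ^ n) ≤ B := by
      rw [hB, ENNReal.le_div_iff_mul_le (Or.inl hlv0) (Or.inl hlvtop)]
      exact h2
    have h4 : r x ^ n ≤ B.toReal := by
      rwa [ENNReal.ofReal_le_iff_le_toReal hBtop] at h3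
    rcases le_or_gt (r x) 1 with h5 | h5
    · exact h5.trans (le_max_left _ _)
    · refine le_trans ?_ (h4.trans (le_max_right _ _))
      exact le_self_pow₀ h5.le hn.ne'
  obtain ⟨u, hut, hdisj, hcov⟩ := Vitali.exists_disjoint_subfamily_covering_enlargement_closedBall
    {x | l < hlm G x} (fun x : E n => x) r _ hrR 5 (by norm_num)
  have hucount : u.Countable := by
    refine hdisj.countable_of_nonempty_interior fun x hx => ?_
    exact ⟨x, mem_interior_iff_mem_nhds.2 (closedBall_mem_nhds x (hr0 x))⟩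
  have hsub : {x | l < hlm G x} ⊆ ⋃ b ∈ u, closedBall b (5 * r b) := by
    intro x hx
    obtain ⟨b, hb, hxb⟩ := hcov x hx
    simp only [mem_iUnion]
    exact ⟨b, hb, hxb (mem_closedBall_self (hr0 x).le)⟩
  calc l * volume {x | l < hlm G x}
      ≤ l * ∑' b : u, volume (closedBall (b : E n) (5 * r b)) := by
        gcongr
        exact (measure_mono hsub).trans (measure_biUnion_le volume hucount _)
    _ = ∑' b : u, ENNReal.ofReal (5 ^ n) * (l * volume (closedBall (b : E n) (r b))) := by
        rw [← ENNReal.tsum_mul_left]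
        congr 1
        ext b
        rw [vol_closedBall _ (by have := hr0 b; positivity), vol_closedBall _ (hr0 b).le, mul_pow,
          ENNReal.ofReal_mul (by positivity)]
        ring
    _ ≤ ∑' b : u, ENNReal.ofReal (5 ^ n) * ∫⁻ y in closedBall (b : E n) (r b), G y := by
        gcongr with b
        exact hr b (hut b.2)
    _ = ENNReal.ofReal (5 ^ n) * ∫⁻ y in ⋃ b ∈ u, closedBall (b : E n) (r b), G y := by
        rw [ENNReal.tsum_mul_left, lintegral_biUnion hucount
          (fun _ _ => measurableSet_closedBall) hdisj]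
    _ ≤ _ := by
        gcongr
        exact setLIntegral_le_lintegral _ _

/-- Layer cake for a single nonnegative number. -/
theorem cake_coe (s : ℝ) (hs : 0 < s) (a : ℝ≥0) :
    ENNReal.ofReal s *
      ∫⁻ l in Ioi (0 : ℝ), (if ENNReal.ofReal l < a then ENNReal.ofReal (l ^ (s - 1)) else 0)
      = (a : ℝ≥0∞) ^ s := by
  have h := lintegral_rpow_eq_lintegral_meas_lt_mul (Measure.dirac ())
    (f := fun _ : Unit => (a : ℝ)) (Filter.Eventually.of_forall fun _ => a.2)
    aemeasurable_const hs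
  rw [lintegral_dirac] at h
  have h2 : ∫⁻ l in Ioi (0 : ℝ), (Measure.dirac ()) {_a : Unit | l < (a : ℝ)} *
        ENNReal.ofReal (l ^ (s - 1)) =
      ∫⁻ l in Ioi (0 : ℝ), (if ENNReal.ofReal l < a then ENNReal.ofReal (l ^ (s - 1)) else 0) := by
    refine setLIntegral_congr_fun measurableSet_Ioi fun l hl => ?_
    have h3 : ENNReal.ofReal l < a ↔ l < (a : ℝ) := by
      rw [ENNReal.ofReal_lt_coe_iff (le_of_lt hl)]
    by_cases h4 : l < (a : ℝ)
    · simp [h3, h4]
    · simp [h3, h4]
  rw [h2] at h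
  rw [← h, ← ENNReal.ofReal_rpow_of_nonneg a.coe_nonneg hs.le, ENNReal.ofReal_coe_nnreal]

/-- Layer cake for a single extended nonnegative number. -/
theorem cake (s : ℝ) (hs : 0 < s) (a : ℝ≥0∞) :
    ENNReal.ofReal s *
      ∫⁻ l in Ioi (0 : ℝ), (if ENNReal.ofReal l < a then ENNReal.ofReal (l ^ (s - 1)) else 0)
      = a ^ s := by
  rcases eq_or_ne a ∞ with rfl | ha
  · rw [ENNReal.top_rpow_of_pos hs]
    refine ENNReal.eq_top_of_forall_nnreal_le fun q => ?_
    have h := cake_coe s hs (q ^ (1 / s))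
    have h1 : (((q ^ (1 / s) : ℝ≥0) : ℝ≥0∞)) ^ s = q := by
      rw [← ENNReal.coe_rpow_of_nonneg _ hs.le, ← NNReal.rpow_mul, one_div_mul_cancel hs.ne',
        NNReal.rpow_one]
    rw [h1] at h
    rw [← h]
    gcongr with l
    split_ifs with h1 h2
    · exact le_rfl
    · exact absurd ENNReal.ofReal_lt_top h2
    · exact zero_le
    · exact le_rfl
  · lift a to ℝ≥0 using ha
    exact cake_coe s hs a

/-- The maximal operator of the averages. -/
def smax (M : ℝ) (G : E n → ℝ≥0∞) (x : E n) : ℝ≥0∞ := ⨆ j : ℕ, avg j M G x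

theorem measurable_smax (M : ℝ) {G : E n → ℝ≥0∞} (hG : Measurable G) : Measurable (smax M G) :=
  Measurable.iSup fun j => measurable_avg j M hG

theorem hlm_one_le (x : E n) : hlm (fun _ => 1) x ≤ 1 := by
  refine iSup_le fun r => ?_
  rw [setLIntegral_const, one_mul]
  exact ENNReal.inv_mul_le_one _

/-- The weak type bound on truncated functions. -/
theorem smax_weak (hn : 0 < n) (M : ℝ) (hM : (n : ℝ) < M) :
    ∃ (C c : ℝ≥0), 0 < c ∧ ∀ (G : E n → ℝ≥0∞), Measurable G → ∀ l : ℝ≥0∞, l ≠ 0 → l ≠ ∞ →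
      l * volume {x | l < smax M G x} ≤ C * ∫⁻ x, {x | c * l < G x}.indicator G x := by
  obtain ⟨C1, hC1⟩ := avg_le_hlm (n := n) M hM
  set C0 : ℝ≥0 := C1 + 1 with hC0
  have hC0pos : 0 < C0 := by positivity
  have hC0ne : (C0 : ℝ≥0∞) ≠ 0 := by simpa using hC0pos.ne'
  have hle : ∀ G : E n → ℝ≥0∞, Measurable G → ∀ x, smax M G x ≤ C0 * hlm G x := by
    intro G hG x
    refine iSup_le fun j => (hC1 G hG j x).trans ?_
    gcongr
    simp [hC0]
  refine ⟨2 * C0 * (5 : ℝ≥0) ^ n, (2 * C0)⁻¹, by positivity, fun G hG l hl hltop => ?_⟩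
  set A : Set (E n) := {x | ((2 * C0)⁻¹ : ℝ≥0) * l < G x} with hA
  have hAm : MeasurableSet A := measurableSet_lt measurable_const hG
  have hGA : Measurable (A.indicator G) := hG.indicator hAm
  have h1 : ∀ x, smax M G x ≤ smax M (A.indicator G) x + l / 2 := by
    intro x
    refine iSup_le fun j => ?_
    have h2 : ∀ y, G y ≤ A.indicator G y + (((2 * C0)⁻¹ : ℝ≥0) * l) * 1 := by
      intro y
      by_cases hy : y ∈ A
      · rw [indicator_of_mem hy]; exact le_self_add
      · rw [indicator_of_notMem hy, zero_add, mul_one]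
        exact not_lt.1 hy
    calc avg j M G x ≤ avg j M (fun y => A.indicator G y + (((2 * C0)⁻¹ : ℝ≥0) * l) * 1) x :=
          avg_mono j M h2 x
      _ = avg j M (A.indicator G) x + avg j M (fun y => (((2 * C0)⁻¹ : ℝ≥0) * l) * 1) x := by
          rw [avg_eq, avg_eq, avg_eq, ← lintegral_add_left]
          · refine lintegral_congr fun y => ?_
            ring
          · exact ((measurable_eta j M).comp (measurable_const.sub measurable_id)).mul hGA
      _ = avg j M (A.indicator G) x + (((2 * C0)⁻¹ : ℝ≥0) * l) * avg j M (fun _ => 1) x := by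
          rw [avg_const_mul j M measurable_const]
      _ ≤ smax M (A.indicator G) x + (((2 * C0)⁻¹ : ℝ≥0) * l) * C0 := by
          gcongr
          · exact le_iSup (fun j => avg j M (A.indicator G) x) j
          · calc avg j M (fun _ => 1) x ≤ smax M (fun _ => 1) x :=
                  le_iSup (fun j => avg j M (fun _ => 1) x) j
              _ ≤ C0 * hlm (fun _ => 1) x := hle _ measurable_const x
              _ ≤ C0 * 1 := by gcongr; exact hlm_one_le x
              _ = C0 := mul_one _
      _ = smax M (A.indicator G) x + l / 2 := by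
          congr 1
          rw [ENNReal.coe_inv (by positivity), ENNReal.coe_mul, ENNReal.mul_inv (by simp) (by simp)]
          calc ((2 : ℝ≥0) : ℝ≥0∞)⁻¹ * (C0 : ℝ≥0∞)⁻¹ * l * C0
              = ((C0 : ℝ≥0∞) * (C0 : ℝ≥0∞)⁻¹) * (l * ((2 : ℝ≥0) : ℝ≥0∞)⁻¹) := by ring
            _ = l / 2 := by
              rw [ENNReal.mul_inv_cancel hC0ne ENNReal.coe_ne_top, one_mul, ENNReal.coe_ofNat,
                div_eq_mul_inv]
  set l' : ℝ≥0∞ := l / 2 / C0 with hl'
  have hl'0 : l' ≠ 0 := by
    rw [hl']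
    refine (ENNReal.div_pos (ENNReal.div_pos hl (by simp)).ne' (by simp)).ne'
  have hsub : {x | l < smax M G x} ⊆ {x | l' < hlm (A.indicator G) x} := by
    intro x hx
    have hx' : l < smax M G x := hx
    have h3 : l / 2 < smax M (A.indicator G) x := by
      have h4 : l / 2 + l / 2 < smax M (A.indicator G) x + l / 2 := by
        rw [ENNReal.add_halves]
        exact hx'.trans_le (h1 x)
      exact lt_of_add_lt_add_right h4
    have h5 : l / 2 < C0 * hlm (A.indicator G) x := h3.trans_le (hle _ hGA x)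
    show l / 2 / C0 < _
    exact ENNReal.div_lt_of_lt_mul' h5
  have hw := hlm_weak hn (A.indicator G) l' hl'0
  have hll' : l = (2 * C0) * l' := by
    rw [hl', div_eq_mul_inv (l / 2)]
    calc l = (l / 2 + l / 2) := (ENNReal.add_halves l).symm
      _ = 2 * (l / 2) * (C0 * (C0 : ℝ≥0∞)⁻¹) := by
        rw [ENNReal.mul_inv_cancel hC0ne ENNReal.coe_ne_top]; ring
      _ = _ := by ring
  calc l * volume {x | l < smax M G x} ≤ l * volume {x | l' < hlm (A.indicator G) x} := by
        gcongr
    _ = (2 * C0) * (l' * volume {x | l' < hlm (A.indicator G) x}) := by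
        conv_lhs => rw [hll']
        ring
    _ ≤ (2 * C0) * (ENNReal.ofReal (5 ^ n) * ∫⁻ y, A.indicator G y) := by gcongr
    _ = _ := by
        rw [ENNReal.ofReal_pow (by norm_num)]
        push_cast
        simp only [ENNReal.ofReal_ofNat]
        ring

/-- T1: maximal theorem, constant exponent. -/
theorem t1_maximal (hn : 0 < n) (t : ℝ) (ht : 1 < t) (M : ℝ) (hM : (n : ℝ) < M) :
    ∃ C : ℝ≥0, ∀ G : E n → ℝ≥0∞, Measurable G →
      ∫⁻ x, (⨆ j : ℕ, avg j M G x) ^ t ≤ C * ∫⁻ x, G x ^ t := by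
  obtain ⟨C, c, hc, hw⟩ := smax_weak hn M hM
  have ht0 : 0 < t := by linarith
  have ht1 : 0 < t - 1 := by linarith
  set D : ℝ≥0∞ := ENNReal.ofReal t * C * ((ENNReal.ofReal (t - 1))⁻¹ * ((c : ℝ≥0∞)⁻¹) ^ (t - 1))
    with hD
  have hDtop : D ≠ ∞ := by
    refine ENNReal.mul_ne_top (ENNReal.mul_ne_top ENNReal.ofReal_ne_top ENNReal.coe_ne_top)
      (ENNReal.mul_ne_top ?_ ?_)
    · rw [ENNReal.inv_ne_top]
      exact (ENNReal.ofReal_pos.2 ht1).ne'
    · refine ENNReal.rpow_ne_top_of_nonneg ht1.le ?_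
      rw [ENNReal.inv_ne_top]
      simpa using hc.ne'
  refine ⟨D.toNNReal, fun G hG => ?_⟩
  rw [ENNReal.coe_toNNReal hDtop]
  have hS := measurable_smax M hG
  have hcne : (c : ℝ≥0∞) ≠ 0 := by simpa using hc.ne'
  have m1 : Measurable (fun p : E n × ℝ =>
      if ENNReal.ofReal p.2 < smax M G p.1 then ENNReal.ofReal (p.2 ^ (t - 1)) else 0) := by
    refine Measurable.ite (measurableSet_lt (ENNReal.measurable_ofReal.comp measurable_snd)
      (hS.comp measurable_fst)) ?_ measurable_const
    exact ENNReal.measurable_ofReal.comp (measurable_snd.pow_const _)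
  have m2 : Measurable (fun p : E n × ℝ =>
      if ENNReal.ofReal p.2 < (c : ℝ≥0∞)⁻¹ * G p.1 then
        ENNReal.ofReal (p.2 ^ ((t - 1) - 1)) * G p.1 else 0) := by
    refine Measurable.ite (measurableSet_lt (ENNReal.measurable_ofReal.comp measurable_snd)
      ((hG.comp measurable_fst).const_mul _)) ?_ measurable_const
    exact (ENNReal.measurable_ofReal.comp (measurable_snd.pow_const _)).mul
      (hG.comp measurable_fst)
  calc ∫⁻ x, (⨆ j : ℕ, avg j M G x) ^ t
      = ∫⁻ x, ENNReal.ofReal t * ∫⁻ l in Ioi (0 : ℝ),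
          (if ENNReal.ofReal l < smax M G x then ENNReal.ofReal (l ^ (t - 1)) else 0) := by
        refine lintegral_congr fun x => ?_
        rw [cake t ht0]
        rfl
    _ = ENNReal.ofReal t * ∫⁻ x, ∫⁻ l in Ioi (0 : ℝ),
          (if ENNReal.ofReal l < smax M G x then ENNReal.ofReal (l ^ (t - 1)) else 0) := by
        rw [lintegral_const_mul]
        exact m1.lintegral_prod_right'
    _ = ENNReal.ofReal t * ∫⁻ l in Ioi (0 : ℝ), ∫⁻ x,
          (if ENNReal.ofReal l < smax M G x then ENNReal.ofReal (l ^ (t - 1)) else 0) := by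
        rw [lintegral_lintegral_swap]
        exact m1.aemeasurable
    _ ≤ ENNReal.ofReal t * ∫⁻ l in Ioi (0 : ℝ), C * ∫⁻ x,
          (if ENNReal.ofReal l < (c : ℝ≥0∞)⁻¹ * G x then
            ENNReal.ofReal (l ^ ((t - 1) - 1)) * G x else 0) := by
        refine mul_le_mul_right (setLIntegral_mono' measurableSet_Ioi fun l hl => ?_) _
        have hl0 : (0 : ℝ) < l := hl
        have hlne : ENNReal.ofReal l ≠ 0 := (ENNReal.ofReal_pos.2 hl0).ne'
        have e1 : ∫⁻ x, (if ENNReal.ofReal l < smax M G x then ENNReal.ofReal (l ^ (t - 1)) else 0)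
            = ENNReal.ofReal (l ^ (t - 1)) * volume {x | ENNReal.ofReal l < smax M G x} := by
          have hm : MeasurableSet {x | ENNReal.ofReal l < smax M G x} :=
            measurableSet_lt measurable_const hS
          rw [← lintegral_indicator_const hm]
          refine lintegral_congr fun x => ?_
          by_cases h5 : ENNReal.ofReal l < smax M G x
          · rw [if_pos h5, indicator_of_mem (show x ∈ {x | ENNReal.ofReal l < smax M G x} from h5)]
          · rw [if_neg h5, indicator_of_notMem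
              (show x ∉ {x | ENNReal.ofReal l < smax M G x} from h5)]
        have e2 : ENNReal.ofReal (l ^ (t - 1)) = ENNReal.ofReal (l ^ ((t - 1) - 1)) *
            ENNReal.ofReal l := by
          rw [← ENNReal.ofReal_mul (by positivity), ← Real.rpow_add_one hl0.ne']
          congr 2
          ring
        have e3 : ∀ x, (if ENNReal.ofReal l < (c : ℝ≥0∞)⁻¹ * G x then
            ENNReal.ofReal (l ^ ((t - 1) - 1)) * G x else 0) = ENNReal.ofReal (l ^ ((t - 1) - 1)) *
              {x | c * ENNReal.ofReal l < G x}.indicator G x := by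
          intro x
          have e4 : ENNReal.ofReal l < (c : ℝ≥0∞)⁻¹ * G x ↔ c * ENNReal.ofReal l < G x := by
            rw [mul_comm, ← div_eq_mul_inv, ENNReal.lt_div_iff_mul_lt (Or.inl hcne)
              (Or.inl ENNReal.coe_ne_top), mul_comm]
          by_cases h5 : c * ENNReal.ofReal l < G x
          · rw [if_pos (e4.2 h5), indicator_of_mem (show x ∈ {x | c * ENNReal.ofReal l < G x} from h5)]
          · rw [if_neg (fun h => h5 (e4.1 h)),
              indicator_of_notMem (show x ∉ {x | c * ENNReal.ofReal l < G x} from h5), mul_zero]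
        rw [e1, e2]
        simp_rw [e3]
        rw [lintegral_const_mul]
        · calc ENNReal.ofReal (l ^ (t - 1 - 1)) * ENNReal.ofReal l *
                volume {x | ENNReal.ofReal l < smax M G x}
              = ENNReal.ofReal (l ^ (t - 1 - 1)) * (ENNReal.ofReal l *
                volume {x | ENNReal.ofReal l < smax M G x}) := by ring
            _ ≤ ENNReal.ofReal (l ^ (t - 1 - 1)) * (C * ∫⁻ x,
                {x | c * ENNReal.ofReal l < G x}.indicator G x) := by
                exact mul_le_mul_right (hw G hG _ hlne ENNReal.ofReal_ne_top) _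
            _ = _ := by ring
        · exact hG.indicator (measurableSet_lt measurable_const hG)
    _ = ENNReal.ofReal t * C * ∫⁻ l in Ioi (0 : ℝ), ∫⁻ x,
          (if ENNReal.ofReal l < (c : ℝ≥0∞)⁻¹ * G x then
            ENNReal.ofReal (l ^ ((t - 1) - 1)) * G x else 0) := by
        rw [lintegral_const_mul, mul_assoc]
        exact m2.lintegral_prod_left'
    _ = ENNReal.ofReal t * C * ∫⁻ x, ∫⁻ l in Ioi (0 : ℝ),
          (if ENNReal.ofReal l < (c : ℝ≥0∞)⁻¹ * G x then
            ENNReal.ofReal (l ^ ((t - 1) - 1)) * G x else 0) := by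
        congr 1
        rw [← lintegral_lintegral_swap]
        exact m2.aemeasurable
    _ = ENNReal.ofReal t * C * ∫⁻ x, ((ENNReal.ofReal (t - 1))⁻¹ * ((c : ℝ≥0∞)⁻¹) ^ (t - 1)) *
          G x ^ t := by
        congr 1
        refine lintegral_congr fun x => ?_
        have hne : ENNReal.ofReal (t - 1) ≠ 0 := (ENNReal.ofReal_pos.2 ht1).ne'
        have k1 := cake (t - 1) ht1 ((c : ℝ≥0∞)⁻¹ * G x)
        have k2 : ∫⁻ l in Ioi (0 : ℝ), (if ENNReal.ofReal l < (c : ℝ≥0∞)⁻¹ * G x then
            ENNReal.ofReal (l ^ ((t - 1) - 1)) * G x else 0)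
            = (∫⁻ l in Ioi (0 : ℝ), (if ENNReal.ofReal l < (c : ℝ≥0∞)⁻¹ * G x then
            ENNReal.ofReal (l ^ ((t - 1) - 1)) else 0)) * G x := by
          rw [← lintegral_mul_const]
          · refine lintegral_congr fun l => ?_
            split_ifs <;> simp
          · refine Measurable.ite (measurableSet_lt ENNReal.measurable_ofReal measurable_const) ?_
              measurable_const
            exact ENNReal.measurable_ofReal.comp (measurable_id.pow_const _)
        have k3 : ∫⁻ l in Ioi (0 : ℝ), (if ENNReal.ofReal l < (c : ℝ≥0∞)⁻¹ * G x then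
            ENNReal.ofReal (l ^ ((t - 1) - 1)) else 0) =
            (ENNReal.ofReal (t - 1))⁻¹ * ((c : ℝ≥0∞)⁻¹ * G x) ^ (t - 1) := by
          rw [← k1, ← mul_assoc, ENNReal.inv_mul_cancel hne ENNReal.ofReal_ne_top, one_mul]
        rw [k2, k3, ENNReal.mul_rpow_of_nonneg _ _ ht1.le]
        have k4 : G x ^ t = G x ^ (t - 1) * G x := by
          conv_lhs => rw [show t = (t - 1) + 1 by ring]
          rw [ENNReal.rpow_add_of_nonneg _ _ ht1.le zero_le_one, ENNReal.rpow_one]
        rw [k4]
        ring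
    _ = D * ∫⁻ x, G x ^ t := by
        rw [lintegral_const_mul _ (hG.pow_const _), hD]
        ring

end Pool.Agent.Lib.MP_2116eb_an
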