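import Pool.Agent.Lib.MP_2116eb_an.Base

set_option autoImplicit false

/-!
# The maximal theorem with variable exponent, and its dual
-/

open MeasureTheory
open scoped ENNReal NNReal

noncomputable section

namespace Pool.Agent.Lib.MP_2116eb_an

variable {n : ℕ}

/-- The maximal theorem with constant exponent (statement). -/
def MaxThm (n : ℕ) : Prop := ∀ (t : ℝ), 1 < t → ∀ M : ℝ, (n : ℝ) < M →
    ∃ C : ℝ≥0, ∀ G : E n → ℝ≥0∞, Measurable G →
      ∫⁻ x, (⨆ j : ℕ, avg j M G x) ^ t ≤ C * ∫⁻ x, G x ^ t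

theorem real_step {Pb : E n → ℝ} {c g' K : ℝ} (hl : LocC Pb c) (hg : GlobC Pb g' c)
    (h1 : ∀ x, 1 ≤ Pb x) (hK : ∀ x, Pb x ≤ K) {D : ℝ} (hD : 1 ≤ D) (j : ℕ) (x y : E n) {A : ℝ}
    (hA : 0 < A) (hA1 : A ≤ D * (2 : ℝ) ^ ((j : ℝ) * n))
    (hA2 : (Real.exp 1 + ‖x‖) ^ (-(n : ℝ)) ≤ A) :
    A ^ (Pb x - Pb y) ≤ D ^ K * Real.exp (2 * n * c) * (1 + (2 : ℝ) ^ j * ‖x - y‖) ^ (n * c) := by
  have hc := hl.nonneg
  have hn : (0 : ℝ) ≤ n := Nat.cast_nonneg n
  have hKpos : 1 ≤ K := (h1 0).trans (hK 0)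
  have hbr := one_le_br j (x - y)
  have hbr0 := br_pos j (x - y)
  have hΔ : |Pb x - Pb y| ≤ K := by
    rw [abs_le]
    have := h1 x; have := h1 y; have := hK x; have := hK y
    constructor <;> linarith
  have hΔ0 := abs_nonneg (Pb x - Pb y)
  rcases le_or_gt 1 A with hA3 | hA3
  · calc A ^ (Pb x - Pb y) ≤ A ^ |Pb x - Pb y| :=
          Real.rpow_le_rpow_of_exponent_le hA3 (le_abs_self _)
      _ ≤ (D * (2 : ℝ) ^ ((j : ℝ) * n)) ^ |Pb x - Pb y| := Real.rpow_le_rpow hA.le hA1 hΔ0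
      _ = D ^ |Pb x - Pb y| * ((2 : ℝ) ^ ((j : ℝ) * |Pb x - Pb y|)) ^ (n : ℝ) := by
          rw [Real.mul_rpow (by positivity) (by positivity), ← Real.rpow_mul (by norm_num),
            ← Real.rpow_mul (by norm_num)]
          congr 2; ring
      _ ≤ D ^ K * (Real.exp c * (1 + (2 : ℝ) ^ j * ‖x - y‖) ^ c) ^ (n : ℝ) := by
          gcongr
          exact lemmaL hl j x y
      _ = D ^ K * Real.exp (n * c) * (1 + (2 : ℝ) ^ j * ‖x - y‖) ^ (n * c) := by
          rw [Real.mul_rpow (by positivity) (by positivity), ← Real.rpow_mul hbr0.le,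
            ← Real.exp_mul, mul_assoc, mul_comm c]
      _ ≤ _ := by
          have : (n : ℝ) * c ≤ 2 * n * c := by nlinarith [mul_nonneg hn hc]
          gcongr
  · calc A ^ (Pb x - Pb y) ≤ A ^ (-|Pb x - Pb y|) :=
          Real.rpow_le_rpow_of_exponent_ge hA hA3.le (neg_abs_le _)
      _ ≤ ((Real.exp 1 + ‖x‖) ^ (-(n : ℝ))) ^ (-|Pb x - Pb y|) :=
          Real.rpow_le_rpow_of_nonpos (by positivity) hA2 (by linarith)
      _ = (Real.exp 1 + ‖x‖) ^ ((n : ℝ) * |Pb x - Pb y|) := by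
          rw [← Real.rpow_mul (by positivity)]
          congr 1; ring
      _ ≤ Real.exp (2 * n * c) * (1 + ‖x - y‖) ^ (n * c) := lemmaL' hg hn x y
      _ ≤ Real.exp (2 * n * c) * (1 + (2 : ℝ) ^ j * ‖x - y‖) ^ (n * c) := by
          have h2j : (1 : ℝ) ≤ 2 ^ j := one_le_pow₀ (by norm_num)
          have : ‖x - y‖ ≤ (2 : ℝ) ^ j * ‖x - y‖ := by nlinarith [norm_nonneg (x - y)]
          gcongr
      _ ≤ _ := by
          have : 1 ≤ D ^ K := Real.one_le_rpow hD (by linarith)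
          calc _ = 1 * (Real.exp (2 * n * c) * (1 + (2 : ℝ) ^ j * ‖x - y‖) ^ (n * c)) := by ring
            _ ≤ D ^ K * (Real.exp (2 * n * c) * (1 + (2 : ℝ) ^ j * ‖x - y‖) ^ (n * c)) := by
                gcongr
            _ = _ := by ring

theorem split_le (f B : ℝ≥0∞) (hB : B ≠ 0) (hB' : B ≠ ∞) (p : ℝ) (hp : 1 ≤ p) :
    f ≤ B + B ^ (1 - p) * f ^ p := by
  rcases le_or_gt f B with h | h
  · exact h.trans le_self_add
  · refine le_trans ?_ le_add_self
    rcases eq_or_ne f ∞ with rfl | hf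
    · rw [ENNReal.top_rpow_of_pos (by linarith), ENNReal.mul_top]
      exact (ENNReal.rpow_pos (pos_iff_ne_zero.mpr hB) hB').ne'
    have hf0 : f ≠ 0 := (lt_of_le_of_lt bot_le h).ne'
    have h1 : f ^ (1 - p) * f ^ p = f := by
      rw [← ENNReal.rpow_add _ _ hf0 hf]; simp
    conv_lhs => rw [← h1]
    gcongr ?_ * _
    have e : (1 - p) = -(p - 1) := by ring
    rw [e, ENNReal.rpow_neg, ENNReal.rpow_neg, ENNReal.inv_le_inv]
    exact ENNReal.rpow_le_rpow h.le (by linarith)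

theorem pw {Pb : E n → ℝ} {c g' K a : ℝ} (hl : LocC Pb c)
    (hg : GlobC Pb g' c) (h1 : ∀ x, 1 ≤ Pb x) (hK : ∀ x, Pb x ≤ K) (ha : 1 ≤ a) {M : ℝ}
    (hM : (n : ℝ) < M) :
    ∃ C : ℝ≥0, ∀ F : E n → ℝ≥0∞, Measurable F → ∫⁻ x, F x ^ (a * Pb x) ≤ 1 →
      ∀ (j : ℕ) (x : E n), (avg j (M + n * c) F x) ^ (Pb x) ≤
        C * (avg j M (fun y => F y ^ Pb y) x +
          ENNReal.ofReal ((Real.exp 1 + ‖x‖) ^ (-(n : ℝ)))) := by
  have hc := hl.nonneg
  have hn : (0 : ℝ) ≤ n := Nat.cast_nonneg n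
  have hKpos : 1 ≤ K := (h1 0).trans (hK 0)
  set N := M + n * c with hN
  have hMN : M ≤ N := by nlinarith [mul_nonneg hn hc]
  have hcM := cM_lt_top (n := n) (M := N) (by linarith)
  set c0 := (cM n N).toReal with hc0
  have hc0' : cM n N = ENNReal.ofReal c0 := (ENNReal.ofReal_toReal hcM.ne).symm
  have hc00 : 0 ≤ c0 := ENNReal.toReal_nonneg
  set D := c0 + 1 with hD
  have hD1 : 1 ≤ D := by linarith
  set C3 : ℝ := (2 * D) ^ K * (D ^ K * Real.exp (2 * n * c)) with hC3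
  have hC31 : 1 ≤ C3 := by
    have e1 : 1 ≤ (2 * D) ^ K := Real.one_le_rpow (by linarith) (by linarith)
    have e2 : 1 ≤ D ^ K := Real.one_le_rpow (by linarith) (by linarith)
    have e3 : 1 ≤ Real.exp (2 * n * c) := Real.one_le_exp (by positivity)
    exact one_le_mul_of_one_le_of_one_le e1 (one_le_mul_of_one_le_of_one_le e2 e3)
  refine ⟨(2 * C3).toNNReal, ?_⟩
  intro F hF hF1 j x
  have hCeq : ((2 * C3).toNNReal : ℝ≥0∞) = ENNReal.ofReal (2 * C3) := rfl
  rw [hCeq]
  set A := avg j N F x with hA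
  -- bound on A
  have hAle : A ≤ ENNReal.ofReal (D * (2 : ℝ) ^ ((j : ℝ) * n)) := by
    have e1 : A ≤ ∫⁻ y, (eta n j N (x - y) + ENNReal.ofReal ((2 : ℝ) ^ ((j : ℝ) * n)) *
        F y ^ (a * Pb y)) := by
      rw [hA, avg_eq]
      refine lintegral_mono fun y => ?_
      have hp : 1 ≤ a * Pb y := by nlinarith [h1 y]
      have e2 : F y ≤ 1 + F y ^ (a * Pb y) := by
        rcases le_or_gt (F y) 1 with h | h
        · exact h.trans le_self_add
        · refine le_trans ?_ le_add_self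
          calc F y = F y ^ (1 : ℝ) := by rw [ENNReal.rpow_one]
            _ ≤ _ := ENNReal.rpow_le_rpow_of_exponent_le h.le hp
      calc eta n j N (x - y) * F y ≤ eta n j N (x - y) * (1 + F y ^ (a * Pb y)) := by gcongr
        _ = eta n j N (x - y) + eta n j N (x - y) * F y ^ (a * Pb y) := by ring
        _ ≤ _ := by
          gcongr
          exact eta_le j (by linarith) _
    refine e1.trans ?_
    have hm1 : Measurable fun y => eta n j N (x - y) :=
      (measurable_eta j N).comp (measurable_const.sub measurable_id)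
    rw [lintegral_add_left hm1, lintegral_eta_sub, lintegral_const_mul' _ _ ENNReal.ofReal_ne_top,
      hc0']
    calc ENNReal.ofReal c0 + ENNReal.ofReal ((2 : ℝ) ^ ((j : ℝ) * n)) *
          ∫⁻ y, F y ^ (a * Pb y) ≤ ENNReal.ofReal c0 + ENNReal.ofReal ((2 : ℝ) ^ ((j : ℝ) * n)) * 1 := by
            gcongr
      _ = ENNReal.ofReal (c0 + (2 : ℝ) ^ ((j : ℝ) * n)) := by
            rw [mul_one, ← ENNReal.ofReal_add hc00 (by positivity)]
      _ ≤ _ := by
            apply ENNReal.ofReal_le_ofReal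
            have : (1 : ℝ) ≤ (2 : ℝ) ^ ((j : ℝ) * n) := Real.one_le_rpow (by norm_num) (by positivity)
            rw [hD]; nlinarith
  have hAtop : A ≠ ∞ := (hAle.trans_lt ENNReal.ofReal_lt_top).ne
  have hPx := h1 x
  rcases eq_or_ne A 0 with hA0 | hA0
  · rw [hA0, ENNReal.zero_rpow_of_pos (by linarith)]; exact bot_le
  have he1 : (1 : ℝ) ≤ Real.exp 1 + ‖x‖ := by
    have := Real.add_one_le_exp (1 : ℝ)
    have := norm_nonneg x
    linarith
  rcases lt_or_ge A (ENNReal.ofReal ((Real.exp 1 + ‖x‖) ^ (-(n : ℝ)))) with hA2 | hA2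
  · have hw : ENNReal.ofReal ((Real.exp 1 + ‖x‖) ^ (-(n : ℝ))) ≤ 1 := by
      rw [← ENNReal.ofReal_one]
      apply ENNReal.ofReal_le_ofReal
      exact Real.rpow_le_one_of_one_le_of_nonpos he1 (by linarith)
    calc A ^ Pb x ≤ A ^ (1 : ℝ) := ENNReal.rpow_le_rpow_of_exponent_ge (hA2.le.trans hw) hPx
      _ = A := ENNReal.rpow_one _
      _ ≤ ENNReal.ofReal ((Real.exp 1 + ‖x‖) ^ (-(n : ℝ))) := hA2.le
      _ ≤ 1 * (avg j M (fun y => F y ^ Pb y) x +
          ENNReal.ofReal ((Real.exp 1 + ‖x‖) ^ (-(n : ℝ)))) := by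
            rw [one_mul]; exact le_add_self
      _ ≤ _ := by
            gcongr
            rw [← ENNReal.ofReal_one]
            exact ENNReal.ofReal_le_ofReal (by linarith)
  set α := A.toReal with hα
  have hAα : A = ENNReal.ofReal α := (ENNReal.ofReal_toReal hAtop).symm
  have hα0 : 0 < α := ENNReal.toReal_pos hA0 hAtop
  have hα1 : α ≤ D * (2 : ℝ) ^ ((j : ℝ) * n) := by
    rw [hAα] at hAle
    exact (ENNReal.ofReal_le_ofReal_iff (by positivity)).mp hAle
  have hα2 : (Real.exp 1 + ‖x‖) ^ (-(n : ℝ)) ≤ α := by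
    rw [hAα] at hA2
    exact (ENNReal.ofReal_le_ofReal_iff hα0.le).mp hA2
  have hβ0 : 0 < α / (2 * D) := by positivity
  set B := ENNReal.ofReal (α / (2 * D)) with hB
  have hB0 : B ≠ 0 := by
    rw [hB]; simp only [ne_eq, ENNReal.ofReal_eq_zero, not_le]; exact hβ0
  set J := ∫⁻ y, eta n j N (x - y) * (B ^ (1 - Pb y) * F y ^ Pb y) with hJ
  have hm1 : Measurable fun y => eta n j N (x - y) :=
    (measurable_eta j N).comp (measurable_const.sub measurable_id)
  have hAJ : A ≤ ENNReal.ofReal (α / 2) + J := by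
    calc A ≤ ∫⁻ y, (eta n j N (x - y) * B + eta n j N (x - y) * (B ^ (1 - Pb y) * F y ^ Pb y)) := by
          rw [hA, avg_eq]
          refine lintegral_mono fun y => ?_
          rw [← mul_add]
          dsimp only
          gcongr
          exact split_le (F y) B hB0 ENNReal.ofReal_ne_top (Pb y) (h1 y)
      _ = cM n N * B + J := by
          rw [lintegral_add_left (hm1.mul_const _), lintegral_mul_const _ hm1, lintegral_eta_sub]
      _ ≤ ENNReal.ofReal (α / 2) + J := by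
          gcongr
          rw [hc0', hB, ← ENNReal.ofReal_mul hc00]
          apply ENNReal.ofReal_le_ofReal
          rw [← mul_div_assoc, div_le_div_iff₀ (by positivity) (by norm_num)]
          nlinarith
  have hAJ2 : A ≤ 2 * J := by
    have e1 : A = ENNReal.ofReal (α / 2) + ENNReal.ofReal (α / 2) := by
      rw [hAα, ← ENNReal.ofReal_add (by positivity) (by positivity)]
      congr 1; ring
    have e2 : ENNReal.ofReal (α / 2) ≤ J := by
      rw [e1] at hAJ
      exact (ENNReal.add_le_add_iff_left ENNReal.ofReal_ne_top).mp hAJ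
    rw [e1, two_mul]
    exact add_le_add e2 e2
  have hfin : ∀ y, eta n j N (x - y) * (B ^ (1 - Pb y) * F y ^ Pb y) * A ^ (Pb x - 1) ≤
      ENNReal.ofReal C3 * (eta n j M (x - y) * F y ^ Pb y) := by
    intro y
    have e1 : B ^ (1 - Pb y) * A ^ (Pb x - 1) ≤
        ENNReal.ofReal C3 * ENNReal.ofReal ((1 + (2 : ℝ) ^ j * ‖x - y‖) ^ (n * c)) := by
      rw [hB, hAα, ENNReal.ofReal_rpow_of_pos hβ0, ENNReal.ofReal_rpow_of_pos hα0,
        ← ENNReal.ofReal_mul (by positivity), ← ENNReal.ofReal_mul (by positivity)]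
      apply ENNReal.ofReal_le_ofReal
      have e2 : (α / (2 * D)) ^ (1 - Pb y) * α ^ (Pb x - 1) =
          (2 * D) ^ (Pb y - 1) * α ^ (Pb x - Pb y) := by
        rw [Real.div_rpow hα0.le (by positivity), div_eq_mul_inv, ← Real.rpow_neg (by positivity),
          mul_right_comm, ← Real.rpow_add hα0, mul_comm]
        congr 2 <;> ring
      rw [e2, hC3, mul_assoc]
      have e3 : (2 * D) ^ (Pb y - 1) ≤ (2 * D) ^ K :=
        Real.rpow_le_rpow_of_exponent_le (by linarith) (by have := hK y; linarith)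
      have e4 := real_step hl hg h1 hK hD1 j x y hα0 hα1 hα2
      exact mul_le_mul e3 e4 (by positivity) (by positivity)
    calc eta n j N (x - y) * (B ^ (1 - Pb y) * F y ^ Pb y) * A ^ (Pb x - 1)
        = eta n j N (x - y) * (B ^ (1 - Pb y) * A ^ (Pb x - 1)) * F y ^ Pb y := by ring
      _ ≤ eta n j N (x - y) * (ENNReal.ofReal C3 *
          ENNReal.ofReal ((1 + (2 : ℝ) ^ j * ‖x - y‖) ^ (n * c))) * F y ^ Pb y := by gcongr
      _ = ENNReal.ofReal C3 * ((eta n j N (x - y) *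
          ENNReal.ofReal ((1 + (2 : ℝ) ^ j * ‖x - y‖) ^ (n * c))) * F y ^ Pb y) := by ring
      _ = _ := by rw [hN, eta_mul_br]
  calc A ^ Pb x = A * A ^ (Pb x - 1) := by
        conv_rhs => rw [← ENNReal.rpow_one A, ← ENNReal.rpow_mul, one_mul,
          ← ENNReal.rpow_add _ _ hA0 hAtop]
        congr 1; ring
    _ ≤ 2 * J * A ^ (Pb x - 1) := by gcongr
    _ = 2 * ∫⁻ y, eta n j N (x - y) * (B ^ (1 - Pb y) * F y ^ Pb y) * A ^ (Pb x - 1) := by
        rw [mul_assoc, hJ, lintegral_mul_const']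
        exact (ENNReal.rpow_lt_top_of_nonneg (by linarith) hAtop).ne
    _ ≤ 2 * ∫⁻ y, ENNReal.ofReal C3 * (eta n j M (x - y) * F y ^ Pb y) := by
        exact mul_le_mul_right (lintegral_mono hfin) 2
    _ = 2 * (ENNReal.ofReal C3 * avg j M (fun y => F y ^ Pb y) x) := by
        rw [lintegral_const_mul' _ _ ENNReal.ofReal_ne_top, avg_eq]
    _ = ENNReal.ofReal (2 * C3) * avg j M (fun y => F y ^ Pb y) x := by
        rw [ENNReal.ofReal_mul (p := 2) (q := C3) (by norm_num), mul_assoc,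
          ENNReal.ofReal_ofNat]
    _ ≤ _ := by gcongr; exact le_self_add

theorem log1_pos (x y : E n) : 0 < Real.log (Real.exp 1 + 1 / ‖x - y‖) := by
  have := one_le_log (1 / ‖x - y‖) (by positivity); linarith

theorem log2_pos (x : E n) : 0 < Real.log (Real.exp 1 + ‖x‖) := by
  have := one_le_log ‖x‖ (by positivity); linarith

theorem logGlob_consts {P : E n → ℝ} (hP : LogGlob P) : ∃ c g', LocC P c ∧ GlobC P g' c := by
  obtain ⟨⟨hcont, c1, h1⟩, g', c2, h2⟩ := hP
  refine ⟨max c1 c2, g', fun x y => (h1 x y).trans ?_, fun x => (h2 x).trans ?_⟩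
  · have := log1_pos x y
    gcongr; exact le_max_left _ _
  · have := log2_pos x
    gcongr; exact le_max_right _ _

theorem t2_maximal' (t1 : MaxThm n) (hn : 0 < n) {P : E n → ℝ} (hPc : Measurable P)
    {c g' : ℝ} (hl : LocC P c) (hg : GlobC P g' c) {a b : ℝ} (ha : 1 < a)
    (hab : ∀ x, a ≤ P x ∧ P x ≤ b) :
    ∃ M₀ : ℝ, ∀ M ≥ M₀, ∃ C : ℝ≥0, ∀ F : E n → ℝ≥0∞, Measurable F → ∫⁻ x, F x ^ P x ≤ 1 →
      ∫⁻ x, (⨆ j : ℕ, avg j M F x) ^ P x ≤ C := by
  have ha0 : 0 < a := by linarith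
  set Pb : E n → ℝ := fun x => P x / a with hPb
  have hPbm : Measurable Pb := hPc.div_const a
  have hlb : LocC Pb (c / a) := by
    intro x y
    have := hl x y
    have e : Pb x - Pb y = (P x - P y) / a := by simp only [hPb]; ring
    rw [e, abs_div, abs_of_pos ha0, div_right_comm]
    gcongr
  have hgb : GlobC Pb (g' / a) (c / a) := by
    intro x
    have := hg x
    have e : Pb x - g' / a = (P x - g') / a := by simp only [hPb]; ring
    rw [e, abs_div, abs_of_pos ha0, div_right_comm]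
    gcongr
  have h1 : ∀ x, 1 ≤ Pb x := fun x => by
    rw [hPb]; dsimp only; rw [le_div_iff₀ ha0]; linarith [(hab x).1]
  have hK : ∀ x, Pb x ≤ b / a := fun x => by
    rw [hPb]; dsimp only; gcongr; exact (hab x).2
  refine ⟨n + 1 + n * (c / a), fun M hM => ?_⟩
  set M' := M - n * (c / a) with hM'
  have hM'n : (n : ℝ) < M' := by rw [hM']; linarith
  have hMM' : M = M' + n * (c / a) := by rw [hM']; ring
  obtain ⟨C, hC⟩ := pw (a := a) hlb hgb h1 hK ha.le hM'n
  obtain ⟨C1, hC1⟩ := t1 a ha M' hM'n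
  set W : ℝ≥0∞ := ∫⁻ x : E n, ENNReal.ofReal ((Real.exp 1 + ‖x‖) ^ (-(n : ℝ))) ^ a with hW
  have hn' : (0 : ℝ) < n := by exact_mod_cast hn
  have hWfin : W < ∞ := by
    have e1 : W ≤ ∫⁻ x : E n, ENNReal.ofReal ((1 + ‖x‖) ^ (-((n : ℝ) * a))) := by
      refine lintegral_mono fun x => ?_
      dsimp only
      have hx := norm_nonneg x
      have he := Real.add_one_le_exp (1 : ℝ)
      rw [ENNReal.ofReal_rpow_of_pos (by positivity), ← Real.rpow_mul (by positivity), neg_mul]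
      apply ENNReal.ofReal_le_ofReal
      apply Real.rpow_le_rpow_of_nonpos (by positivity) (by linarith)
      nlinarith
    refine e1.trans_lt (finite_integral_one_add_norm ?_)
    rw [finrank_euclideanSpace_fin]
    nlinarith
  have hfin : (C : ℝ≥0∞) ^ a * (2 ^ (a - 1) * (C1 + W)) ≠ ∞ := by
    apply ENNReal.mul_ne_top
    · exact (ENNReal.rpow_lt_top_of_nonneg ha0.le ENNReal.coe_ne_top).ne
    · apply ENNReal.mul_ne_top
      · exact (ENNReal.rpow_lt_top_of_nonneg (by linarith) (by simp)).ne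
      · exact ENNReal.add_ne_top.mpr ⟨ENNReal.coe_ne_top, hWfin.ne⟩
  refine ⟨((C : ℝ≥0∞) ^ a * (2 ^ (a - 1) * (C1 + W))).toNNReal, fun F hF hF1 => ?_⟩
  rw [ENNReal.coe_toNNReal hfin]
  have haPb : ∀ x, a * Pb x = P x := fun x => by rw [hPb]; field_simp
  have haPb' : ∀ x, Pb x * a = P x := fun x => by rw [mul_comm, haPb]
  have hF1' : ∫⁻ x, F x ^ (a * Pb x) ≤ 1 := by simpa only [haPb] using hF1
  have hpw := hC F hF hF1'
  set G : E n → ℝ≥0∞ := fun y => F y ^ Pb y with hG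
  have hGm : Measurable G := hF.pow hPbm
  set S : E n → ℝ≥0∞ := fun x => ⨆ j : ℕ, avg j M' G x with hS
  have hSm : Measurable S := Measurable.iSup fun j => measurable_avg j M' hGm
  have key : ∀ x, (⨆ j : ℕ, avg j M F x) ^ P x ≤ (C : ℝ≥0∞) ^ a * (2 ^ (a - 1) *
      (S x ^ a + ENNReal.ofReal ((Real.exp 1 + ‖x‖) ^ (-(n : ℝ))) ^ a)) := by
    intro x
    have e1 : (⨆ j : ℕ, avg j M F x) ^ Pb x ≤
        C * (S x + ENNReal.ofReal ((Real.exp 1 + ‖x‖) ^ (-(n : ℝ)))) := by
      have hp : 0 < Pb x := by linarith [h1 x]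
      rw [← ENNReal.le_rpow_inv_iff hp]
      refine iSup_le fun j => ?_
      rw [ENNReal.le_rpow_inv_iff hp, hMM']
      refine (hpw j x).trans ?_
      gcongr
      exact le_iSup (fun j => avg j M' G x) j
    calc (⨆ j : ℕ, avg j M F x) ^ P x = ((⨆ j : ℕ, avg j M F x) ^ Pb x) ^ a := by
          rw [← ENNReal.rpow_mul, haPb']
      _ ≤ (C * (S x + ENNReal.ofReal ((Real.exp 1 + ‖x‖) ^ (-(n : ℝ))))) ^ a :=
          ENNReal.rpow_le_rpow e1 ha0.le
      _ = (C : ℝ≥0∞) ^ a * (S x + ENNReal.ofReal ((Real.exp 1 + ‖x‖) ^ (-(n : ℝ)))) ^ a :=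
          ENNReal.mul_rpow_of_nonneg _ _ ha0.le
      _ ≤ _ := by
          gcongr
          exact ENNReal.rpow_add_le_mul_rpow_add_rpow _ _ ha.le
  calc ∫⁻ x, (⨆ j : ℕ, avg j M F x) ^ P x
      ≤ ∫⁻ x, (C : ℝ≥0∞) ^ a * (2 ^ (a - 1) *
        (S x ^ a + ENNReal.ofReal ((Real.exp 1 + ‖x‖) ^ (-(n : ℝ))) ^ a)) := lintegral_mono key
    _ = (C : ℝ≥0∞) ^ a * (2 ^ (a - 1) * ((∫⁻ x, S x ^ a) + W)) := by
        have hCa : (C : ℝ≥0∞) ^ a ≠ ∞ :=
          (ENNReal.rpow_lt_top_of_nonneg ha0.le ENNReal.coe_ne_top).ne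
        have h2a : (2 : ℝ≥0∞) ^ (a - 1) ≠ ∞ :=
          (ENNReal.rpow_lt_top_of_nonneg (by linarith) (by simp)).ne
        rw [lintegral_const_mul' _ _ hCa, lintegral_const_mul' _ _ h2a,
          lintegral_add_left (hSm.pow_const a)]
    _ ≤ _ := by
        gcongr
        refine (hC1 G hGm).trans ?_
        have e2 : ∫⁻ x, G x ^ a = ∫⁻ x, F x ^ P x := by
          refine lintegral_congr fun x => ?_
          rw [hG]; dsimp only
          rw [← ENNReal.rpow_mul, haPb']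
        rw [e2]
        calc (C1 : ℝ≥0∞) * ∫⁻ x, F x ^ P x ≤ C1 * 1 := by gcongr
          _ = C1 := mul_one _

/-- T2A: maximal theorem, variable exponent. -/
theorem t2_maximal (t1 : MaxThm n) (hn : 0 < n) (P : E n → ℝ) (hP : LogGlob P) (a b : ℝ)
    (ha : 1 < a) (hab : ∀ x, a ≤ P x ∧ P x ≤ b) :
    ∃ M₀ : ℝ, ∀ M ≥ M₀, ∃ C : ℝ≥0, ∀ F : E n → ℝ≥0∞, Measurable F → ∫⁻ x, F x ^ P x ≤ 1 →
      ∫⁻ x, (⨆ j : ℕ, avg j M F x) ^ P x ≤ C := by
  obtain ⟨c, g', hl, hg⟩ := logGlob_consts hP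
  exact t2_maximal' t1 hn hP.1.1.measurable hl hg ha hab

theorem conj_sub (s t : ℝ) (hs : 1 < s) (ht : 1 < t) :
    s / (s - 1) - t / (t - 1) = (t - s) / ((s - 1) * (t - 1)) := by
  have : s - 1 ≠ 0 := by linarith
  have : t - 1 ≠ 0 := by linarith
  field_simp; ring

theorem conj_abs {a s t L c : ℝ} (ha : 1 < a) (hs : a ≤ s) (ht : a ≤ t)
    (h : |s - t| ≤ c / L) : |s / (s - 1) - t / (t - 1)| ≤ (c / (a - 1) ^ 2) / L := by
  rw [conj_sub s t (by linarith) (by linarith), abs_div, abs_sub_comm,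
    abs_of_pos (a := (s - 1) * (t - 1)) (mul_pos (by linarith) (by linarith))]
  have h1 : (a - 1) ^ 2 ≤ (s - 1) * (t - 1) := by nlinarith
  have h2 : 0 < (a - 1) ^ 2 := by
    have : 0 < a - 1 := by linarith
    positivity
  calc |s - t| / ((s - 1) * (t - 1)) ≤ |s - t| / (a - 1) ^ 2 := by gcongr
    _ ≤ (c / L) / (a - 1) ^ 2 := by gcongr
    _ = _ := by rw [div_right_comm]

theorem iSup_rpow {ι : Sort*} (f : ι → ℝ≥0∞) {p : ℝ} (hp : 0 < p) :
    (⨆ i, f i) ^ p = ⨆ i, f i ^ p :=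
  (ENNReal.orderIsoRpow p hp).map_iSup f

theorem young_one (F G : ℝ≥0∞) {p : ℝ} (hp : 1 < p) : F * G ≤ F ^ p + G ^ (p / (p - 1)) := by
  have hpq : p.HolderConjugate (p / (p - 1)) := by
    rw [Real.holderConjugate_iff]
    refine ⟨hp, ?_⟩
    have : p - 1 ≠ 0 := by linarith
    have : p ≠ 0 := by linarith
    field_simp; ring
  refine (ENNReal.young_inequality F G hpq).trans ?_
  have h2 : 1 < p / (p - 1) := hpq.symm.lt
  gcongr
  · apply ENNReal.div_le_of_le_mul
    refine le_mul_of_one_le_right bot_le ?_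
    rw [← ENNReal.ofReal_one]
    exact ENNReal.ofReal_le_ofReal hp.le
  · apply ENNReal.div_le_of_le_mul
    refine le_mul_of_one_le_right bot_le ?_
    rw [← ENNReal.ofReal_one]
    exact ENNReal.ofReal_le_ofReal h2.le

/-- T2B: dual inequality, variable exponent. -/
theorem t2_dual (t1 : MaxThm n) (hn : 0 < n) (P : E n → ℝ) (hP : LogGlob P) (a b : ℝ) (ha : 1 < a)
    (hab : ∀ x, a ≤ P x ∧ P x ≤ b) :
    ∃ M₀ : ℝ, ∀ M ≥ M₀, ∃ C : ℝ≥0, ∀ (F : E n → ℝ≥0∞) (u : ℕ → E n → ℝ≥0∞), Measurable F →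
      (∀ j, Measurable (u j)) → (∀ x, ∑' j, u j x ≤ F x) → ∫⁻ x, F x ^ P x ≤ 1 →
      ∫⁻ x, (∑' j : ℕ, avg j M (u j) x) ^ P x ≤ C := by
  obtain ⟨c, g', hl, hg⟩ := logGlob_consts hP
  have hPm : Measurable P := hP.1.1.measurable
  have hb : 1 < b := ha.trans_le ((hab 0).1.trans (hab 0).2)
  set P' : E n → ℝ := fun x => P x / (P x - 1) with hP'
  have hPm' : Measurable P' := hPm.div (hPm.sub_const 1)
  have hl' : LocC P' (c / (a - 1) ^ 2) := fun x y =>
    conj_abs ha (hab x).1 (hab y).1 (hl x y)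
  set g'' := max a (min b g') with hg''
  have hgl : GlobC P' (g'' / (g'' - 1)) (c / (a - 1) ^ 2) := by
    intro x
    apply conj_abs ha (hab x).1 (le_max_left _ _)
    refine le_trans ?_ (hg x)
    have h1 := (hab x).1
    have h2 := (hab x).2
    rcases le_total b g' with h | h
    · rw [min_eq_left h, max_eq_right (h1.trans h2), abs_sub_comm, abs_of_nonneg (by linarith),
        abs_sub_comm, abs_of_nonneg (by linarith)]
      linarith
    · rw [min_eq_right h]
      rcases le_total a g' with h3 | h3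
      · rw [max_eq_right h3]
      · rw [max_eq_left h3, abs_of_nonneg (by linarith), abs_of_nonneg (by linarith)]
        linarith
  have hab' : ∀ x, b / (b - 1) ≤ P' x ∧ P' x ≤ a / (a - 1) := by
    intro x
    have h1 := (hab x).1
    have h2 := (hab x).2
    rw [hP']; dsimp only
    constructor
    · rw [div_le_div_iff₀ (by linarith) (by linarith)]; linarith
    · rw [div_le_div_iff₀ (by linarith) (by linarith)]; linarith
  have hb' : 1 < b / (b - 1) := by rw [lt_div_iff₀ (by linarith)]; linarith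
  obtain ⟨M1, hM1⟩ := t2_maximal' t1 hn hPm hl hg ha hab
  obtain ⟨M2, hM2⟩ := t2_maximal' t1 hn hPm' hl' hgl hb' hab'
  refine ⟨max M1 M2, fun M hM => ?_⟩
  obtain ⟨C1, hC1⟩ := hM1 M ((le_max_left _ _).trans hM)
  obtain ⟨C2, hC2⟩ := hM2 M ((le_max_right _ _).trans hM)
  refine ⟨(1 + C2) ^ b, fun F u hF hu huF hF1 => ?_⟩
  have hcoe : (((1 + C2) ^ b : ℝ≥0) : ℝ≥0∞) = (1 + (C2 : ℝ≥0∞)) ^ b := by
    rw [ENNReal.coe_rpow_of_nonneg _ (by linarith)]; simp
  rw [hcoe]
  have hPpos : ∀ x, 0 < P x := fun x => by linarith [(hab x).1]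
  -- reduce to finite sums
  have hsum : ∀ x, (∑' j : ℕ, avg j M (u j) x) ^ P x =
      ⨆ N : ℕ, (∑ j ∈ Finset.range N, avg j M (u j) x) ^ P x := by
    intro x
    rw [ENNReal.tsum_eq_iSup_nat, iSup_rpow _ (hPpos x)]
  simp_rw [hsum]
  have hum : ∀ N : ℕ, Measurable fun x => ∑ j ∈ Finset.range N, avg j M (u j) x := fun N =>
    Finset.measurable_fun_sum _ fun j _ => measurable_avg j M (hu j)
  rw [lintegral_iSup (fun N => (hum N).pow hPm)]
  swap
  · intro N N' hNN' x
    dsimp only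
    apply ENNReal.rpow_le_rpow _ (hPpos x).le
    exact Finset.sum_le_sum_of_subset (Finset.range_mono hNN')
  refine iSup_le fun N => ?_
  set v : E n → ℝ≥0∞ := fun x => ∑ j ∈ Finset.range N, avg j M (u j) x with hv
  have hvm : Measurable v := hum N
  change ∫⁻ x, v x ^ P x ≤ _
  set I := ∫⁻ x, v x ^ P x with hI
  -- finiteness
  have huF' : ∀ j x, u j x ≤ F x := fun j x => (ENNReal.le_tsum j).trans (huF x)
  have hIfin : I < ∞ := by
    have e1 : ∀ x, v x ^ P x ≤ ((N : ℝ≥0∞) + 1) ^ b * (⨆ j : ℕ, avg j M F x) ^ P x := by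
      intro x
      have e2 : v x ≤ ((N : ℝ≥0∞) + 1) * (⨆ j : ℕ, avg j M F x) := by
        calc v x ≤ ∑ j ∈ Finset.range N, (⨆ j : ℕ, avg j M F x) := by
              refine Finset.sum_le_sum fun j _ => ?_
              exact (avg_mono j M (huF' j) x).trans (le_iSup (fun j => avg j M F x) j)
          _ = (N : ℝ≥0∞) * (⨆ j : ℕ, avg j M F x) := by simp
          _ ≤ _ := by gcongr; exact le_self_add
      calc v x ^ P x ≤ (((N : ℝ≥0∞) + 1) * (⨆ j : ℕ, avg j M F x)) ^ P x :=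
            ENNReal.rpow_le_rpow e2 (hPpos x).le
        _ = ((N : ℝ≥0∞) + 1) ^ P x * (⨆ j : ℕ, avg j M F x) ^ P x :=
            ENNReal.mul_rpow_of_nonneg _ _ (hPpos x).le
        _ ≤ _ := by
            gcongr
            · exact le_add_self
            · exact (hab x).2
    calc I ≤ ∫⁻ x, ((N : ℝ≥0∞) + 1) ^ b * (⨆ j : ℕ, avg j M F x) ^ P x := lintegral_mono e1
      _ = ((N : ℝ≥0∞) + 1) ^ b * ∫⁻ x, (⨆ j : ℕ, avg j M F x) ^ P x := by
          rw [lintegral_const_mul']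
          exact (ENNReal.rpow_lt_top_of_nonneg (by linarith) (by finiteness)).ne
      _ ≤ ((N : ℝ≥0∞) + 1) ^ b * C1 := by gcongr; exact hC1 F hF hF1
      _ < ∞ := by
          apply ENNReal.mul_lt_top
          · exact ENNReal.rpow_lt_top_of_nonneg (by linarith) (by finiteness)
          · exact ENNReal.coe_lt_top
  rcases le_or_gt I 1 with hI1 | hI1
  · refine hI1.trans ?_
    have : (1 : ℝ≥0∞) ≤ 1 + C2 := le_self_add
    calc (1 : ℝ≥0∞) = 1 ^ b := (ENNReal.one_rpow b).symm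
      _ ≤ _ := ENNReal.rpow_le_rpow this (by linarith)
  -- duality
  set g : E n → ℝ≥0∞ := fun x => v x ^ (P x - 1) with hgdef
  have hgm : Measurable g := hvm.pow (hPm.sub_const 1)
  have hdual : I ≤ ∫⁻ x, F x * ⨆ j : ℕ, avg j M g x := by
    calc I = ∫⁻ x, ∑ j ∈ Finset.range N, avg j M (u j) x * g x := by
          refine lintegral_congr fun x => ?_
          rw [← Finset.sum_mul]
          change v x ^ P x = v x * v x ^ (P x - 1)
          conv_rhs => rw [← ENNReal.rpow_one (v x), ← ENNReal.rpow_mul, one_mul,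
            ← ENNReal.rpow_add_of_nonneg _ _ zero_le_one (by linarith [(hab x).1])]
          congr 1; ring
      _ = ∑ j ∈ Finset.range N, ∫⁻ x, avg j M (u j) x * g x :=
          lintegral_finsetSum _ fun j _ => (measurable_avg j M (hu j)).mul hgm
      _ = ∑ j ∈ Finset.range N, ∫⁻ x, u j x * avg j M g x := by
          refine Finset.sum_congr rfl fun j _ => lintegral_avg_mul j M (hu j) hgm
      _ = ∫⁻ x, ∑ j ∈ Finset.range N, u j x * avg j M g x :=
          (lintegral_finsetSum _ fun j _ => (hu j).mul (measurable_avg j M hgm)).symm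
      _ ≤ _ := by
          refine lintegral_mono fun x => ?_
          dsimp only
          calc ∑ j ∈ Finset.range N, u j x * avg j M g x
              ≤ ∑ j ∈ Finset.range N, u j x * ⨆ j : ℕ, avg j M g x := by
                refine Finset.sum_le_sum fun j _ => ?_
                gcongr
                exact le_iSup (fun j => avg j M g x) j
            _ = (∑ j ∈ Finset.range N, u j x) * ⨆ j : ℕ, avg j M g x := by rw [Finset.sum_mul]
            _ ≤ _ := by
                gcongr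
                exact (ENNReal.sum_le_tsum _).trans (huF x)
  set b' := b / (b - 1) with hb'def
  have hb'0 : 0 < b' := by linarith
  have hI0 : I ≠ 0 := (lt_trans zero_lt_one hI1).ne'
  set l := I ^ (1 / b') with hldef
  have hl0 : l ≠ 0 := (ENNReal.rpow_pos (pos_iff_ne_zero.mpr hI0) hIfin.ne).ne'
  have hltop : l ≠ ∞ := (ENNReal.rpow_lt_top_of_nonneg (by positivity) hIfin.ne).ne
  have hl1 : 1 ≤ l := by
    calc (1 : ℝ≥0∞) = 1 ^ (1 / b') := (ENNReal.one_rpow _).symm
      _ ≤ _ := ENNReal.rpow_le_rpow hI1.le (by positivity)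
  have hlb' : l ^ b' = I := by
    rw [hldef, ← ENNReal.rpow_mul]
    simp [hb'0.ne']
  have hgl1 : ∫⁻ x, (l⁻¹ * g x) ^ P' x ≤ 1 := by
    have e1 : ∀ x, (l⁻¹ * g x) ^ P' x ≤ I⁻¹ * v x ^ P x := by
      intro x
      have hx := (hab' x).1
      have hP'0 : 0 ≤ P' x := by linarith
      rw [ENNReal.mul_rpow_of_nonneg _ _ hP'0]
      gcongr
      · rw [ENNReal.inv_rpow, ENNReal.inv_le_inv, ← hlb']
        exact ENNReal.rpow_le_rpow_of_exponent_le hl1 hx
      · rw [hgdef]; dsimp only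
        rw [← ENNReal.rpow_mul]
        apply le_of_eq
        congr 1
        rw [hP']; dsimp only
        have : P x - 1 ≠ 0 := by linarith [(hab x).1]
        field_simp
    calc ∫⁻ x, (l⁻¹ * g x) ^ P' x ≤ ∫⁻ x, I⁻¹ * v x ^ P x := lintegral_mono e1
      _ = I⁻¹ * I := by
          rw [lintegral_const_mul' _ _ (ENNReal.inv_ne_top.mpr hI0)]
      _ = 1 := ENNReal.inv_mul_cancel hI0 hIfin.ne
  have hmax := hC2 (fun x => l⁻¹ * g x) (hgm.const_mul _) hgl1
  set S : E n → ℝ≥0∞ := fun x => ⨆ j : ℕ, avg j M (fun x => l⁻¹ * g x) x with hS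
  have hSm : Measurable S := Measurable.iSup fun j => measurable_avg j M (hgm.const_mul _)
  have hIle : I ≤ l * (1 + C2) := by
    calc I ≤ ∫⁻ x, F x * ⨆ j : ℕ, avg j M g x := hdual
      _ ≤ ∫⁻ x, l * (F x * S x) := by
          refine lintegral_mono fun x => ?_
          dsimp only
          have : (⨆ j : ℕ, avg j M g x) ≤ l * S x := by
            refine iSup_le fun j => ?_
            have e3 : avg j M g x = l * avg j M (fun x => l⁻¹ * g x) x := by
              rw [avg_const_mul j M hgm, ← mul_assoc, ENNReal.mul_inv_cancel hl0 hltop, one_mul]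
            rw [e3]
            gcongr
            exact le_iSup (fun j => avg j M (fun x => l⁻¹ * g x) x) j
          calc F x * ⨆ j : ℕ, avg j M g x ≤ F x * (l * S x) := by gcongr
            _ = _ := by ring
      _ = l * ∫⁻ x, F x * S x := lintegral_const_mul' _ _ hltop
      _ ≤ l * ∫⁻ x, (F x ^ P x + S x ^ P' x) := by
          gcongr with x
          exact young_one (F x) (S x) (by linarith [(hab x).1])
      _ = l * ((∫⁻ x, F x ^ P x) + ∫⁻ x, S x ^ P' x) := by
          rw [lintegral_add_left (hF.pow hPm)]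
      _ ≤ l * (1 + C2) := by gcongr
  have hsplit : I = l * I ^ (1 / b) := by
    rw [hldef, ← ENNReal.rpow_add _ _ hI0 hIfin.ne]
    have : 1 / b' + 1 / b = 1 := by
      rw [hb'def]
      have : b ≠ 0 := by linarith
      have : b - 1 ≠ 0 := by linarith
      field_simp; ring
    rw [this, ENNReal.rpow_one]
  have hfinal : I ^ (1 / b) ≤ 1 + C2 := by
    rw [hsplit] at hIle
    exact (ENNReal.mul_le_mul_iff_right hl0 hltop).mp hIle
  calc I = (I ^ (1 / b)) ^ b := by
        rw [← ENNReal.rpow_mul, one_div_mul_cancel (by linarith), ENNReal.rpow_one]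
    _ ≤ (1 + (C2 : ℝ≥0∞)) ^ b := ENNReal.rpow_le_rpow hfinal (by linarith)

end Pool.Agent.Lib.MP_2116eb_an
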