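import Pool.Agent.Lib.MP_2116eb_an.Base

set_option autoImplicit false

/-!
# T3: the vector-valued inequality
-/

open MeasureTheory
open scoped ENNReal NNReal

noncomputable section

namespace Pool.Agent.Lib.MP_2116eb_an

variable {n : ℕ}

theorem measurable_lqNorm {q : E n → ℝ≥0∞} (hq : Measurable q) {G : ℕ → E n → ℝ≥0∞}
    (hG : ∀ j, Measurable (G j)) : Measurable fun x => lqNorm (q x) fun j => G j x := by
  unfold lqNorm
  refine Measurable.ite (measurableSet_eq_fun hq measurable_const) ?_ ?_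
  · exact Measurable.iSup hG
  · refine Measurable.pow (Measurable.tsum fun j => Measurable.pow (hG j)
      hq.ennreal_toReal) ?_
    exact measurable_const.div hq.ennreal_toReal

theorem lqNorm_mono (q : ℝ≥0∞) {f g : ℕ → ℝ≥0∞} (h : ∀ j, f j ≤ g j) :
    lqNorm q f ≤ lqNorm q g := by
  unfold lqNorm
  split_ifs with hq
  · exact iSup_mono h
  · gcongr with j
    exact h j

theorem lqNorm_const_mul {q : ℝ≥0∞} (hq1 : 1 ≤ q) (c : ℝ≥0∞) (f : ℕ → ℝ≥0∞) :
    lqNorm q (fun j => c * f j) = c * lqNorm q f := by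
  unfold lqNorm
  split_ifs with hq
  · rw [ENNReal.mul_iSup]
  · have h0 : 0 < q.toReal := ENNReal.toReal_pos (by positivity) hq
    have h1 : ∀ j, (c * f j) ^ q.toReal = c ^ q.toReal * f j ^ q.toReal := fun j =>
      ENNReal.mul_rpow_of_nonneg _ _ h0.le
    simp_rw [h1]
    rw [ENNReal.tsum_mul_left, ENNReal.mul_rpow_of_nonneg _ _ (by positivity),
      ← ENNReal.rpow_mul, mul_one_div_cancel h0.ne', ENNReal.rpow_one]

/-- the normalized weights -/
def hbar (q : ℝ≥0∞) (g : ℕ → ℝ≥0∞) (j : ℕ) : ℝ≥0∞ :=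
  max (if q = ∞ ∨ lqNorm q g = 0 ∨ lqNorm q g = ∞ then 0 else (g j / lqNorm q g) ^ q.toReal)
    (2⁻¹ ^ j)

theorem tsum_hbar_aux {q : ℝ≥0∞} (hq1 : 1 ≤ q) (g : ℕ → ℝ≥0∞) :
    ∑' j, (if q = ∞ ∨ lqNorm q g = 0 ∨ lqNorm q g = ∞ then (0 : ℝ≥0∞) else
      (g j / lqNorm q g) ^ q.toReal) ≤ 1 := by
  by_cases h : q = ∞ ∨ lqNorm q g = 0 ∨ lqNorm q g = ∞
  · simp [h]
  · simp only [h, if_false]
    push Not at h
    obtain ⟨hq, h0, h1⟩ := h
    have hq0 : 0 < q.toReal := ENNReal.toReal_pos (by positivity) hq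
    have e1 : ∀ j, (g j / lqNorm q g) ^ q.toReal = g j ^ q.toReal / (lqNorm q g) ^ q.toReal :=
      fun j => ENNReal.div_rpow_of_nonneg _ _ hq0.le
    simp_rw [e1, div_eq_mul_inv]
    rw [ENNReal.tsum_mul_right]
    have e2 : (lqNorm q g) ^ q.toReal = ∑' j, g j ^ q.toReal := by
      unfold lqNorm
      rw [if_neg hq, ← ENNReal.rpow_mul, one_div_mul_cancel hq0.ne', ENNReal.rpow_one]
    rw [← e2]
    exact ENNReal.mul_inv_le_one _

theorem tsum_hbar {q : ℝ≥0∞} (hq1 : 1 ≤ q) (g : ℕ → ℝ≥0∞) : ∑' j, hbar q g j ≤ 3 := by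
  have h1 := tsum_hbar_aux hq1 g
  have h2 : ∑' j : ℕ, (2⁻¹ : ℝ≥0∞) ^ j = 2 := by
    rw [ENNReal.tsum_geometric, ENNReal.one_sub_inv_two, inv_inv]
  calc ∑' j, hbar q g j ≤ ∑' j, ((if q = ∞ ∨ lqNorm q g = 0 ∨ lqNorm q g = ∞ then (0 : ℝ≥0∞) else
      (g j / lqNorm q g) ^ q.toReal) + 2⁻¹ ^ j) := by
        refine ENNReal.tsum_le_tsum fun j => ?_
        exact max_le_add_of_nonneg zero_le zero_le
    _ = _ := ENNReal.tsum_add
    _ ≤ 1 + 2 := by rw [h2]; gcongr
    _ = 3 := by norm_num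

theorem le_hbar (q : ℝ≥0∞) (g : ℕ → ℝ≥0∞) (j : ℕ) : 2⁻¹ ^ j ≤ hbar q g j := le_max_right _ _

theorem hbar_le_one {q : ℝ≥0∞} (hq1 : 1 ≤ q) (g : ℕ → ℝ≥0∞) (j : ℕ) : hbar q g j ≤ 1 := by
  refine max_le ?_ ?_
  · exact (ENNReal.le_tsum j).trans (tsum_hbar_aux hq1 g)
  · exact pow_le_one₀ zero_le (by simp)

theorem hbar_pos (q : ℝ≥0∞) (g : ℕ → ℝ≥0∞) (j : ℕ) : hbar q g j ≠ 0 := by
  have h := le_hbar q g j
  intro h0
  rw [h0] at h
  have : (2⁻¹ : ℝ≥0∞) ^ j ≠ 0 := by
    apply pow_ne_zero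
    simp
  exact this (le_antisymm h zero_le)

theorem hbar_ne_top {q : ℝ≥0∞} (hq1 : 1 ≤ q) (g : ℕ → ℝ≥0∞) (j : ℕ) : hbar q g j ≠ ∞ :=
  ((hbar_le_one hq1 g j).trans_lt ENNReal.one_lt_top).ne

theorem le_hbar_rpow_mul {q : ℝ≥0∞} (hq1 : 1 ≤ q) (g : ℕ → ℝ≥0∞) (j : ℕ) :
    g j ≤ hbar q g j ^ (q⁻¹).toReal * lqNorm q g := by
  rcases eq_or_ne q ∞ with hq | hq
  · subst hq
    simp only [ENNReal.inv_top, ENNReal.toReal_zero, ENNReal.rpow_zero, one_mul]
    unfold lqNorm
    simp only [if_true]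
    exact le_iSup g j
  have hq0 : 0 < q.toReal := ENNReal.toReal_pos (by positivity) hq
  have hle : g j ≤ lqNorm q g := by
    unfold lqNorm
    rw [if_neg hq]
    calc g j = (g j ^ q.toReal) ^ (1 / q.toReal) := by
          rw [← ENNReal.rpow_mul, mul_one_div_cancel hq0.ne', ENNReal.rpow_one]
      _ ≤ _ := by
          gcongr
          exact ENNReal.le_tsum (f := fun j => g j ^ q.toReal) j
  rcases eq_or_ne (lqNorm q g) 0 with h0 | h0
  · rw [h0] at hle
    rw [h0, mul_zero]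
    exact hle
  rcases eq_or_ne (lqNorm q g) ∞ with h1 | h1
  · rw [h1, ENNReal.mul_top]
    · exact le_top
    · have := hbar_pos q g j
      have h2 := hbar_ne_top hq1 g j
      simp [ENNReal.rpow_eq_zero_iff, this, h2]
  have h3 : (g j / lqNorm q g) ^ q.toReal ≤ hbar q g j := by
    unfold hbar
    rw [if_neg]
    · exact le_max_left _ _
    · push Not
      exact ⟨hq, h0, h1⟩
  have h4 : g j / lqNorm q g ≤ hbar q g j ^ (q⁻¹).toReal := by
    calc g j / lqNorm q g = ((g j / lqNorm q g) ^ q.toReal) ^ (q⁻¹).toReal := by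
          rw [← ENNReal.rpow_mul, ENNReal.toReal_inv, mul_inv_cancel₀ hq0.ne', ENNReal.rpow_one]
      _ ≤ _ := by gcongr
  calc g j = g j / lqNorm q g * lqNorm q g := (ENNReal.div_mul_cancel h0 h1).symm
    _ ≤ _ := by gcongr

theorem measurable_hbar {q : E n → ℝ≥0∞} (hq : Measurable q) {G : ℕ → E n → ℝ≥0∞}
    (hG : ∀ j, Measurable (G j)) (j : ℕ) :
    Measurable fun x => hbar (q x) (fun i => G i x) j := by
  unfold hbar
  refine Measurable.max ?_ measurable_const
  have hF := measurable_lqNorm hq hG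
  refine Measurable.ite ?_ measurable_const ?_
  · have h1 : MeasurableSet {x | q x = ∞} := measurableSet_eq_fun hq measurable_const
    have h2 : MeasurableSet {x | lqNorm (q x) (fun i => G i x) = 0} :=
      measurableSet_eq_fun hF measurable_const
    have h3 : MeasurableSet {x | lqNorm (q x) (fun i => G i x) = ∞} :=
      measurableSet_eq_fun hF measurable_const
    exact h1.union (h2.union h3)
  · exact ((hG j).div hF).pow hq.ennreal_toReal

/-- change of the exponent -/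
theorem rpow_change (t : ℝ≥0∞) (j : ℕ) (h1 : 2⁻¹ ^ j ≤ t) (h2 : t ≤ 1) (k l : ℝ) :
    t ^ l ≤ ENNReal.ofReal ((2 : ℝ) ^ ((j : ℝ) * |k - l|)) * t ^ k := by
  have ht0 : t ≠ 0 := by
    intro h0
    rw [h0] at h1
    have : (2⁻¹ : ℝ≥0∞) ^ j ≠ 0 := by
      apply pow_ne_zero
      simp
    exact this (le_antisymm h1 zero_le)
  have ht1 : t ≠ ∞ := (h2.trans_lt ENNReal.one_lt_top).ne
  have e1 : t ^ l = t ^ (l - k) * t ^ k := by
    rw [← ENNReal.rpow_add _ _ ht0 ht1]; congr 1; ring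
  rw [e1]
  gcongr
  calc t ^ (l - k) ≤ t ^ (-|k - l|) := by
        apply ENNReal.rpow_le_rpow_of_exponent_ge h2
        have := le_abs_self (k - l)
        linarith
    _ ≤ (2⁻¹ ^ j) ^ (-|k - l|) := by
        rw [ENNReal.rpow_neg, ENNReal.rpow_neg]
        gcongr
    _ = ENNReal.ofReal ((2 : ℝ) ^ ((j : ℝ) * |k - l|)) := by
        rw [← ENNReal.rpow_natCast, ← ENNReal.rpow_mul, ENNReal.inv_rpow, ← ENNReal.rpow_neg,
          ← ENNReal.ofReal_rpow_of_pos (by norm_num)]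
        simp

/-- the final estimate of the norms -/
theorem lqNorm_mix_le {q : ℝ≥0∞} (hq1 : 1 ≤ q) (α β : ℕ → ℝ≥0∞) :
    lqNorm q (fun j => α j ^ (q⁻¹).toReal * β j ^ (1 - (q⁻¹).toReal)) ≤
      ∑' j, α j + ⨆ j, β j := by
  rcases eq_or_ne q ∞ with hq | hq
  · subst hq
    simp only [ENNReal.inv_top, ENNReal.toReal_zero, ENNReal.rpow_zero, one_mul, sub_zero,
      ENNReal.rpow_one]
    unfold lqNorm
    simp only [if_true]
    exact le_add_self
  have hq0 : 0 < q.toReal := ENNReal.toReal_pos (by positivity) hq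
  have hq1' : 1 ≤ q.toReal := by
    have := ENNReal.toReal_mono hq hq1
    simpa using this
  set r := q.toReal with hr
  have hk : (q⁻¹).toReal = r⁻¹ := by rw [ENNReal.toReal_inv]
  have hk1 : r⁻¹ ≤ 1 := inv_le_one_of_one_le₀ hq1'
  have hk0 : 0 ≤ r⁻¹ := by positivity
  unfold lqNorm
  rw [if_neg hq, hk, ← hr]
  have e1 : ∀ j, (α j ^ r⁻¹ * β j ^ (1 - r⁻¹)) ^ r = α j * β j ^ (r - 1) := by
    intro j
    rw [ENNReal.mul_rpow_of_nonneg _ _ hq0.le, ← ENNReal.rpow_mul, ← ENNReal.rpow_mul,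
      inv_mul_cancel₀ hq0.ne', ENNReal.rpow_one]
    congr 2
    field_simp
  simp_rw [e1]
  set A := ∑' j, α j with hA
  set B := ⨆ j, β j with hB
  have e2 : ∑' j, α j * β j ^ (r - 1) ≤ A * B ^ (r - 1) := by
    rw [hA, ← ENNReal.tsum_mul_right]
    gcongr with j
    exact le_iSup β j
  calc (∑' j, α j * β j ^ (r - 1)) ^ (1 / r) ≤ (A * B ^ (r - 1)) ^ (1 / r) := by gcongr
    _ ≤ ((A + B) * (A + B) ^ (r - 1)) ^ (1 / r) := by
        gcongr
        · exact le_self_add
        · exact le_add_self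
    _ = A + B := by
        have : (A + B) * (A + B) ^ (r - 1) = (A + B) ^ r := by
          rcases eq_or_ne (A + B) 0 with h | h
          · rw [h, zero_mul, ENNReal.zero_rpow_of_pos hq0]
          rcases eq_or_ne (A + B) ∞ with h' | h'
          · rw [h', ENNReal.top_rpow_of_pos hq0, ENNReal.top_mul]
            intro h0
            rw [ENNReal.rpow_eq_zero_iff] at h0
            rcases h0 with h0 | h0
            · exact ENNReal.top_ne_zero h0.1
            · linarith [h0.2]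
          conv_lhs => rw [← ENNReal.rpow_one (A + B)]
          rw [ENNReal.rpow_one]
          nth_rewrite 1 [← ENNReal.rpow_one (A + B)]
          rw [← ENNReal.rpow_add _ _ h h']
          congr 1; ring
        rw [this, ← ENNReal.rpow_mul, mul_one_div_cancel hq0.ne', ENNReal.rpow_one]

theorem avg_le_mix {q : E n → ℝ≥0∞} (hqm : Measurable q) (hq1 : ∀ x, 1 ≤ q x) {c : ℝ}
    (hq : LocC (fun x => ((q x)⁻¹).toReal) c) (M : ℝ) {G : ℕ → E n → ℝ≥0∞}
    (hG : ∀ j, Measurable (G j)) (j : ℕ) (x : E n) :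
    avg j (M + c) (G j) x ≤ ENNReal.ofReal (Real.exp c) *
      (avg j M (fun y => hbar (q y) (fun i => G i y) j * lqNorm (q y) (fun i => G i y)) x
          ^ ((q x)⁻¹).toReal *
        avg j M (fun y => lqNorm (q y) (fun i => G i y)) x ^ (1 - ((q x)⁻¹).toReal)) := by
  set k : E n → ℝ := fun x => ((q x)⁻¹).toReal with hk
  set F : E n → ℝ≥0∞ := fun y => lqNorm (q y) (fun i => G i y) with hF
  set H : E n → ℝ≥0∞ := fun y => hbar (q y) (fun i => G i y) j with hH
  have hFm : Measurable F := measurable_lqNorm hqm hG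
  have hHm : Measurable H := measurable_hbar hqm hG j
  have hk0 : 0 ≤ k x := ENNReal.toReal_nonneg
  have hk1 : k x ≤ 1 := by
    have : (q x)⁻¹ ≤ 1 := ENNReal.inv_le_one.mpr (hq1 x)
    exact ENNReal.toReal_mono ENNReal.one_ne_top this
  have hem : Measurable fun y => eta n j M (x - y) :=
    (measurable_eta j M).comp (measurable_const.sub measurable_id)
  have hpt : ∀ y, eta n j (M + c) (x - y) * G j y ≤ ENNReal.ofReal (Real.exp c) *
      ((eta n j M (x - y) * (H y * F y)) ^ k x * (eta n j M (x - y) * F y) ^ (1 - k x)) := by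
    intro y
    have s1 : G j y ≤ H y ^ k y * F y := le_hbar_rpow_mul (hq1 y) (fun i => G i y) j
    have s2 : H y ^ k y ≤ ENNReal.ofReal ((2 : ℝ) ^ ((j : ℝ) * |k x - k y|)) * H y ^ k x :=
      rpow_change _ j (le_hbar _ _ _) (hbar_le_one (hq1 y) _ _) _ _
    have s3 : ENNReal.ofReal ((2 : ℝ) ^ ((j : ℝ) * |k x - k y|)) ≤
        ENNReal.ofReal (Real.exp c) * ENNReal.ofReal ((1 + (2 : ℝ) ^ j * ‖x - y‖) ^ c) := by
      rw [← ENNReal.ofReal_mul (by positivity)]
      exact ENNReal.ofReal_le_ofReal (lemmaL hq j x y)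
    have s4 : (eta n j M (x - y) * (H y * F y)) ^ k x * (eta n j M (x - y) * F y) ^ (1 - k x) =
        H y ^ k x * (eta n j M (x - y) * F y) := by
      rw [show eta n j M (x - y) * (H y * F y) = H y * (eta n j M (x - y) * F y) by ring,
        ENNReal.mul_rpow_of_nonneg _ _ hk0, mul_assoc,
        ← ENNReal.rpow_add_of_nonneg _ _ hk0 (by linarith)]
      simp
    rw [s4]
    calc eta n j (M + c) (x - y) * G j y
        ≤ eta n j (M + c) (x - y) * ((ENNReal.ofReal (Real.exp c) *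
          ENNReal.ofReal ((1 + (2 : ℝ) ^ j * ‖x - y‖) ^ c)) * H y ^ k x * F y) := by
          gcongr
          refine s1.trans ?_
          gcongr
          refine s2.trans ?_
          gcongr
      _ = ENNReal.ofReal (Real.exp c) * (H y ^ k x * ((eta n j (M + c) (x - y) *
          ENNReal.ofReal ((1 + (2 : ℝ) ^ j * ‖x - y‖) ^ c)) * F y)) := by ring
      _ = _ := by rw [eta_mul_br]
  calc avg j (M + c) (G j) x = ∫⁻ y, eta n j (M + c) (x - y) * G j y := avg_eq _ _ _ _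
    _ ≤ ∫⁻ y, ENNReal.ofReal (Real.exp c) *
      ((eta n j M (x - y) * (H y * F y)) ^ k x * (eta n j M (x - y) * F y) ^ (1 - k x)) :=
        lintegral_mono hpt
    _ = ENNReal.ofReal (Real.exp c) * ∫⁻ y,
      ((eta n j M (x - y) * (H y * F y)) ^ k x * (eta n j M (x - y) * F y) ^ (1 - k x)) := by
        rw [lintegral_const_mul]
        exact ((hem.mul (hHm.mul hFm)).pow_const _).mul ((hem.mul hFm).pow_const _)
    _ ≤ _ := by
        gcongr
        exact ENNReal.lintegral_mul_norm_pow_le (hem.mul (hHm.mul hFm)).aemeasurable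
          (hem.mul hFm).aemeasurable hk0 (by linarith) (by ring)

/-- T3 from T2 (same exponent `P`) -/
theorem t3_vector_of (P : E n → ℝ) (a b : ℝ) (ha : 1 < a)
    (hab : ∀ x, a ≤ P x ∧ P x ≤ b) (hPm : Measurable P)
    (h2A : ∃ M₀ : ℝ, ∀ M ≥ M₀, ∃ C : ℝ≥0, ∀ F : E n → ℝ≥0∞, Measurable F →
      ∫⁻ x, F x ^ P x ≤ 1 → ∫⁻ x, (⨆ j : ℕ, avg j M F x) ^ P x ≤ C)
    (h2B : ∃ M₀ : ℝ, ∀ M ≥ M₀, ∃ C : ℝ≥0, ∀ (F : E n → ℝ≥0∞) (u : ℕ → E n → ℝ≥0∞), Measurable F →
      (∀ j, Measurable (u j)) → (∀ x, ∑' j, u j x ≤ F x) → ∫⁻ x, F x ^ P x ≤ 1 →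
      ∫⁻ x, (∑' j : ℕ, avg j M (u j) x) ^ P x ≤ C)
    (q : E n → ℝ≥0∞) (hqm : Measurable q) (hq1 : ∀ x, 1 ≤ q x)
    (hq : LogLoc fun x => ((q x)⁻¹).toReal) :
    ∃ M₀ : ℝ, ∀ M ≥ M₀, ∃ C : ℝ≥0, ∀ G : ℕ → E n → ℝ≥0∞, (∀ j, Measurable (G j)) →
      ∫⁻ x, (lqNorm (q x) fun j => G j x) ^ P x ≤ 1 →
      ∫⁻ x, (lqNorm (q x) fun j => avg j M (G j) x) ^ P x ≤ C := by
  obtain ⟨MA, hA⟩ := h2A
  obtain ⟨MB, hB⟩ := h2B
  obtain ⟨-, c, hc⟩ := hq
  refine ⟨max MA MB + c, fun M hM => ?_⟩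
  obtain ⟨CA, hA⟩ := hA (M - c) (by linarith [le_max_left MA MB, hM.le])
  obtain ⟨CB, hB⟩ := hB (M - c) (by linarith [le_max_right MA MB, hM.le])
  have hc' : LocC (fun x => ((q x)⁻¹).toReal) c := hc
  have hc0 := hc'.nonneg
  set K : ℝ≥0 := Real.toNNReal (Real.exp c) * 6 with hK
  have hK1 : 1 ≤ K := by
    rw [hK, ← NNReal.coe_le_coe]
    push_cast
    rw [Real.coe_toNNReal _ (Real.exp_pos c).le]
    have := Real.one_le_exp hc0
    linarith
  refine ⟨K ^ b * (CB + CA), fun G hG hint => ?_⟩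
  set F : E n → ℝ≥0∞ := fun y => lqNorm (q y) (fun i => G i y) with hF
  set H : ℕ → E n → ℝ≥0∞ := fun j y => hbar (q y) (fun i => G i y) j with hH
  have hFm : Measurable F := measurable_lqNorm hqm hG
  have hHm : ∀ j, Measurable (H j) := fun j => measurable_hbar hqm hG j
  set u : ℕ → E n → ℝ≥0∞ := fun j y => 3⁻¹ * (H j y * F y) with hu
  have hum : ∀ j, Measurable (u j) := fun j => measurable_const.mul ((hHm j).mul hFm)
  have hsum : ∀ x, ∑' j, u j x ≤ F x := by
    intro x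
    simp only [hu]
    rw [ENNReal.tsum_mul_left, ENNReal.tsum_mul_right, ← mul_assoc]
    calc 3⁻¹ * (∑' j, H j x) * F x ≤ 3⁻¹ * 3 * F x := by
          gcongr
          exact tsum_hbar (hq1 x) _
      _ = F x := by rw [ENNReal.inv_mul_cancel (by norm_num) (by norm_num), one_mul]
  have hIA := hA F hFm hint
  have hIB := hB F u hFm hum hsum hint
  set A : E n → ℝ≥0∞ := fun x => ⨆ j : ℕ, avg j (M - c) F x with hAdef
  set B : E n → ℝ≥0∞ := fun x => ∑' j : ℕ, avg j (M - c) (u j) x with hBdef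
  have hAm : Measurable A := Measurable.iSup fun j => measurable_avg j _ hFm
  have hBm : Measurable B := Measurable.tsum fun j => measurable_avg j _ (hum j)
  have hpt : ∀ x, (lqNorm (q x) fun j => avg j M (G j) x) ≤ K * max (B x) (A x) := by
    intro x
    have e1 : ∀ j, avg j M (G j) x ≤ ENNReal.ofReal (Real.exp c) *
        (avg j (M - c) (fun y => H j y * F y) x ^ ((q x)⁻¹).toReal *
          avg j (M - c) F x ^ (1 - ((q x)⁻¹).toReal)) := by
      intro j
      have := avg_le_mix hqm hq1 hc' (M - c) hG j x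
      rwa [sub_add_cancel] at this
    have e2 : ∀ j, avg j (M - c) (fun y => H j y * F y) x = 3 * avg j (M - c) (u j) x := by
      intro j
      rw [← avg_const_mul _ _ (hum j)]
      congr 1
      ext y
      simp only [hu]
      rw [← mul_assoc, ENNReal.mul_inv_cancel (by norm_num) (by norm_num), one_mul]
    calc (lqNorm (q x) fun j => avg j M (G j) x)
        ≤ lqNorm (q x) fun j => ENNReal.ofReal (Real.exp c) *
        (avg j (M - c) (fun y => H j y * F y) x ^ ((q x)⁻¹).toReal *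
          avg j (M - c) F x ^ (1 - ((q x)⁻¹).toReal)) := lqNorm_mono _ e1
      _ = ENNReal.ofReal (Real.exp c) * lqNorm (q x) fun j => 
        (avg j (M - c) (fun y => H j y * F y) x ^ ((q x)⁻¹).toReal *
          avg j (M - c) F x ^ (1 - ((q x)⁻¹).toReal)) := lqNorm_const_mul (hq1 x) _ _
      _ ≤ ENNReal.ofReal (Real.exp c) * (∑' j, avg j (M - c) (fun y => H j y * F y) x +
          ⨆ j, avg j (M - c) F x) := by
          gcongr
          exact lqNorm_mix_le (hq1 x) _ _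
      _ = ENNReal.ofReal (Real.exp c) * (3 * B x + A x) := by
          simp_rw [e2]
          rw [ENNReal.tsum_mul_left]
      _ ≤ ENNReal.ofReal (Real.exp c) * (3 * max (B x) (A x) + 3 * max (B x) (A x)) := by
          gcongr
          · exact le_max_left _ _
          · calc A x ≤ 1 * max (B x) (A x) := by rw [one_mul]; exact le_max_right _ _
              _ ≤ _ := by gcongr; norm_num
      _ = K * max (B x) (A x) := by
          rw [hK]
          push_cast
          rw [ENNReal.ofReal]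
          ring
  calc ∫⁻ x, (lqNorm (q x) fun j => avg j M (G j) x) ^ P x
      ≤ ∫⁻ x, (K : ℝ≥0∞) ^ b * (B x ^ P x + A x ^ P x) := by
        refine lintegral_mono fun x => ?_
        have hP0 : 0 ≤ P x := by linarith [(hab x).1]
        calc (lqNorm (q x) fun j => avg j M (G j) x) ^ P x
            ≤ (K * max (B x) (A x)) ^ P x := by
              gcongr
              exact hpt x
          _ = (K : ℝ≥0∞) ^ P x * (max (B x) (A x)) ^ P x := ENNReal.mul_rpow_of_nonneg _ _ hP0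
          _ ≤ (K : ℝ≥0∞) ^ b * (B x ^ P x + A x ^ P x) := by
              gcongr
              · exact_mod_cast hK1
              · exact (hab x).2
              · rcases max_choice (B x) (A x) with h | h
                · rw [h]; exact le_self_add
                · rw [h]; exact le_add_self
    _ = (K : ℝ≥0∞) ^ b * ((∫⁻ x, B x ^ P x) + ∫⁻ x, A x ^ P x) := by
        have hm : Measurable fun x => B x ^ P x + A x ^ P x := (hBm.pow hPm).add (hAm.pow hPm)
        rw [lintegral_const_mul _ hm, lintegral_add_left (hBm.pow hPm)]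
    _ ≤ (K : ℝ≥0∞) ^ b * (CB + CA) := by gcongr
    _ = ((K ^ b * (CB + CA) : ℝ≥0) : ℝ≥0∞) := by
        push_cast
        rw [ENNReal.coe_rpow_of_ne_zero]
        positivity

end Pool.Agent.Lib.MP_2116eb_an
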