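import Pool.Agent.Lib.MP_2116eb_an.Defs

/-!
# Fourier multipliers of tempered distributions

Continuity and polynomial growth of `x ↦ piece θ f x` and the reproducing formula.
-/

set_option autoImplicit false

open MeasureTheory SchwartzMap FourierTransform
open scoped ENNReal NNReal

noncomputable section

namespace Pool.Agent.Lib.MP_2116eb_an

namespace T4

variable {n : ℕ}

/-- The character `ξ ↦ exp (2 π i ⟨x, ξ⟩)`. -/
def ch (x ξ : E n) : ℂ := Complex.exp (2 * Real.pi * Complex.I * ((inner ℝ x ξ : ℝ) : ℂ))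

lemma temperate_exp :
    (fun t : ℝ => Complex.exp (2 * Real.pi * Complex.I * (t : ℂ))).HasTemperateGrowth := by
  have hd : ∀ (k : ℕ), iteratedDeriv k (fun t : ℝ => Complex.exp (2 * Real.pi * Complex.I * (t : ℂ))) =
      fun t : ℝ => (2 * Real.pi * Complex.I) ^ k * Complex.exp (2 * Real.pi * Complex.I * (t : ℂ)) := by
    intro k
    induction k with
    | zero => simp
    | succ k ih =>
      rw [iteratedDeriv_succ, ih]
      funext t
      have h1 : HasDerivAt (fun t : ℝ => 2 * Real.pi * Complex.I * (t : ℂ))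
          (2 * Real.pi * Complex.I * 1) t :=
        (Complex.ofRealCLM.hasDerivAt (x := t)).const_mul _
      have h2 := (h1.cexp).const_mul ((2 * Real.pi * Complex.I) ^ k)
      rw [h2.deriv]
      ring
  constructor
  · exact (contDiff_const.mul Complex.ofRealCLM.contDiff).cexp
  · intro k
    refine ⟨0, ‖(2 * Real.pi * Complex.I : ℂ)‖ ^ k, fun t => ?_⟩
    rw [norm_iteratedFDeriv_eq_norm_iteratedDeriv, hd]
    simp only [norm_mul, norm_pow, pow_zero, mul_one]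
    have : ‖Complex.exp (2 * Real.pi * Complex.I * (t : ℂ))‖ = 1 := by
      rw [show 2 * (Real.pi : ℂ) * Complex.I * (t : ℂ) = ((2 * Real.pi * t : ℝ) : ℂ) * Complex.I by
        push_cast; ring]
      exact Complex.norm_exp_ofReal_mul_I _
    rw [this, mul_one]

lemma temperate_ch (x : E n) : (fun ξ : E n => ch x ξ).HasTemperateGrowth := by
  have h := temperate_exp.comp (Function.hasTemperateGrowth_inner_right (H := E n) x)
  exact h

/-- An abstract exchange lemma: a functional `f` which is bounded by the supremum of a family of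
functionals `lam i` commutes with a weak integral. -/
lemma exchange {X : Type} [AddCommGroup X] [Module ℂ X] {I : Type} (lam : I → X →ₗ[ℂ] ℂ)
    (f : X →ₗ[ℂ] ℂ) (C : ℝ) (hbdd : ∀ u, ∃ B, ∀ i, ‖lam i u‖ ≤ B)
    (hf : ∀ u B, 0 ≤ B → (∀ i, ‖lam i u‖ ≤ B) → ‖f u‖ ≤ C * B)
    (γ : E n → X) (g : E n → ℂ)
    (hcont : ∀ z₀, ∀ ε > 0, ∀ᶠ z in nhds z₀, ∀ i, ‖lam i (γ z - γ z₀)‖ ≤ ε)
    (hg : Continuous g) (W : E n → ℝ) (hW : ∀ z i, ‖lam i (γ z)‖ ≤ W z) (hW0 : ∀ z, 0 ≤ W z)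
    (hint : Integrable (fun z => ‖g z‖ * W z)) (v : X)
    (hv : ∀ i, lam i v = ∫ z, g z * lam i (γ z)) :
    f v = ∫ z, g z * f (γ z) := by
  classical
  let : TopologicalSpace I := ⊥
  have : DiscreteTopology I := ⟨rfl⟩
  choose B hB using hbdd
  let J : X →ₗ[ℂ] (BoundedContinuousFunction I ℂ) :=
    { toFun := fun u => BoundedContinuousFunction.ofNormedAddCommGroupDiscrete
        (fun i => lam i u) (B u) (hB u)
      map_add' := by intro u w; ext i; simp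
      map_smul' := by intro c u; ext i; simp }
  have hJ : ∀ u i, J u i = lam i u := fun u i => rfl
  have hJle : ∀ u b, 0 ≤ b → (∀ i, ‖lam i u‖ ≤ b) → ‖J u‖ ≤ b := by
    intro u b hb h
    exact (BoundedContinuousFunction.norm_le hb).2 h
  have hfJ : ∀ u, ‖f u‖ ≤ C * ‖J u‖ := by
    intro u
    apply hf u _ (norm_nonneg _)
    intro i
    rw [← hJ]
    exact (J u).norm_coe_le_norm i
  obtain ⟨r, hr⟩ := LinearMap.exists_rightInverse_of_surjective J.rangeRestrict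
    (LinearMap.range_rangeRestrict J)
  have hr' : ∀ b : LinearMap.range J, J (r b) = (b : BoundedContinuousFunction I ℂ) := by
    intro b
    have := congrArg (fun φ : LinearMap.range J →ₗ[ℂ] LinearMap.range J => (φ b : BoundedContinuousFunction I ℂ)) hr
    simpa using this
  let F0 : StrongDual ℂ (LinearMap.range J) := LinearMap.mkContinuous (f ∘ₗ r) C (by
    intro b
    have := hfJ (r b)
    rw [hr' b] at this
    exact this)
  obtain ⟨F, hF, -⟩ := exists_extension_norm_eq (LinearMap.range J) F0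
  have hFJ : ∀ u, F (J u) = f u := by
    intro u
    have h1 := hF ⟨J u, LinearMap.mem_range_self J u⟩
    simp only at h1
    rw [h1]
    show f (r ⟨J u, _⟩) = f u
    have h2 : ‖f (r ⟨J u, LinearMap.mem_range_self J u⟩ - u)‖ ≤ 0 := by
      refine (hfJ _).trans ?_
      rw [map_sub, hr']
      simp
    have h3 := norm_le_zero_iff.1 h2
    rw [map_sub, sub_eq_zero] at h3
    exact h3
  have hJc : Continuous fun z => J (γ z) := by
    rw [continuous_iff_continuousAt]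
    intro z₀
    rw [ContinuousAt, tendsto_iff_norm_sub_tendsto_zero, Metric.tendsto_nhds]
    intro ε hε
    filter_upwards [hcont z₀ (ε / 2) (by positivity)] with z hz
    rw [dist_zero_right, norm_norm, ← map_sub]
    exact lt_of_le_of_lt (hJle _ _ (by positivity) hz) (by linarith)
  have hJint : Integrable fun z => g z • J (γ z) := by
    refine Integrable.mono' hint (hg.smul hJc).aestronglyMeasurable (Filter.Eventually.of_forall ?_)
    intro z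
    rw [norm_smul]
    exact mul_le_mul_of_nonneg_left (hJle _ _ (hW0 z) (hW z)) (norm_nonneg _)
  have hI : ∫ z, g z • J (γ z) = J v := by
    ext i
    have h1 := (BoundedContinuousFunction.evalCLM ℂ i).integral_comp_comm hJint
    have h2 : ∀ z, (BoundedContinuousFunction.evalCLM ℂ i) (g z • J (γ z)) = g z * lam i (γ z) := by
      intro z
      rw [map_smul, smul_eq_mul]
      rfl
    simp only [h2] at h1
    rw [hJ, hv, h1]
    rfl
  have h3 := F.integral_comp_comm hJint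
  rw [hI, hFJ] at h3
  rw [← h3]
  congr 1
  funext z
  rw [map_smul, hFJ, smul_eq_mul]

lemma norm_ch (x ξ : E n) : ‖ch x ξ‖ = 1 := by
  rw [ch, show 2 * (Real.pi : ℂ) * Complex.I * ((inner ℝ x ξ : ℝ) : ℂ) =
    ((2 * Real.pi * inner ℝ x ξ : ℝ) : ℂ) * Complex.I by push_cast; ring]
  exact Complex.norm_exp_ofReal_mul_I _

/-- The Fourier transform of a modulated function is translated. -/
lemma fourier_ch (z : E n) (θ : 𝓢(E n, ℂ)) :
    𝓕 (smulLeftCLM ℂ (ch z) θ) = compSubConstCLM ℂ z (𝓕 θ) := by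
  ext y
  rw [compSubConstCLM_apply, fourier_coe, fourier_coe, Real.fourier_eq', Real.fourier_eq']
  congr 1
  funext v
  rw [smulLeftCLM_apply_apply (temperate_ch z)]
  simp only [smul_eq_mul, ch]
  rw [← mul_assoc, ← Complex.exp_add]
  congr 2
  rw [inner_sub_right, real_inner_comm v z]
  push_cast
  ring

lemma piece_eq (θ : 𝓢(E n, ℂ)) (f : 𝓢'(E n, ℂ)) (x : E n) :
    piece θ f x = f (compSubConstCLM ℂ x (𝓕 θ)) := by
  rw [← fourier_ch]
  rfl

/-- The Fourier transform of a product as a convolution. -/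
lemma fourier_mul (θ Θ : 𝓢(E n, ℂ)) (a : E n) :
    (𝓕 (smulLeftCLM ℂ Θ θ) : 𝓢(E n, ℂ)) a =
      ∫ z, (𝓕⁻ Θ : 𝓢(E n, ℂ)) (-z) * (𝓕 θ : 𝓢(E n, ℂ)) (a - z) := by
  have hT : (fun x : E n => Θ x).HasTemperateGrowth := Θ.hasTemperateGrowth
  have h1 : SchwartzMap.convolution (ContinuousLinearMap.mul ℂ ℂ) (𝓕⁻ Θ) (𝓕⁻ θ) =
      𝓕⁻ (smulLeftCLM ℂ Θ θ : 𝓢(E n, ℂ)) := by
    have h2 : smulLeftCLM ℂ Θ θ = SchwartzMap.pairing (ContinuousLinearMap.mul ℂ ℂ) Θ θ := by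
      ext x
      rw [smulLeftCLM_apply_apply hT, pairing_apply_apply]
      simp
    rw [h2]
    have h3 := fourier_convolution (ContinuousLinearMap.mul ℂ ℂ) (𝓕⁻ Θ) (𝓕⁻ θ)
    rw [fourier_fourierInv_eq, fourier_fourierInv_eq] at h3
    rw [← h3, fourierInv_fourier_eq]
  have h4 : (𝓕 (smulLeftCLM ℂ Θ θ) : 𝓢(E n, ℂ)) a =
      (𝓕⁻ (smulLeftCLM ℂ Θ θ : 𝓢(E n, ℂ)) : 𝓢(E n, ℂ)) (-a) := by
    rw [fourier_coe, fourierInv_coe, Real.fourierInv_eq_fourier_neg, neg_neg]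
  rw [h4, ← h1, convolution_apply, convolution_def, ← integral_neg_eq_self]
  congr 1
  funext z
  have h5 : (𝓕⁻ θ : 𝓢(E n, ℂ)) (-a - -z) = (𝓕 θ : 𝓢(E n, ℂ)) (a - z) := by
    rw [fourier_coe, fourierInv_coe, Real.fourierInv_eq_fourier_neg,
      show -(-a - -z) = a - z by abel]
  rw [h5]
  rfl

/-- The multiplier of the derivative in the direction `m`. -/
def P (m : E n) (θ : 𝓢(E n, ℂ)) : 𝓢(E n, ℂ) :=
  -(2 * Real.pi * Complex.I) • smulLeftCLM ℂ (inner ℝ · m) θ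

lemma P_apply (m : E n) (θ : 𝓢(E n, ℂ)) (ξ : E n) :
    P m θ ξ = -(2 * Real.pi * Complex.I) * ((inner ℝ ξ m : ℝ) * θ ξ) := by
  have h : (inner ℝ · m : E n → ℝ).HasTemperateGrowth := by fun_prop
  simp only [P]
  show -(2 * Real.pi * Complex.I) * ((smulLeftCLM ℂ (inner ℝ · m) θ : 𝓢(E n, ℂ)) ξ) = _
  rw [smulLeftCLM_apply_apply h]
  simp

lemma P_comm (m : E n) (h : E n → ℂ) (hh : h.HasTemperateGrowth) (θ : 𝓢(E n, ℂ)) :
    P m (smulLeftCLM ℂ h θ) = smulLeftCLM ℂ h (P m θ) := by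
  ext ξ
  rw [P_apply, smulLeftCLM_apply_apply hh, smulLeftCLM_apply_apply hh, P_apply]
  simp only [smul_eq_mul]
  ring

open LineDeriv in
/-- The iterated line derivatives of a Fourier transform. -/
lemma iterated_fourier (l : ℕ) (m : Fin l → E n) :
    ∃ Q : 𝓢(E n, ℂ) → 𝓢(E n, ℂ), (∀ θ, ∂^{m} (𝓕 θ) = 𝓕 (Q θ)) ∧
      ∀ (h : E n → ℂ), h.HasTemperateGrowth → ∀ θ, Q (smulLeftCLM ℂ h θ) = smulLeftCLM ℂ h (Q θ) := by
  induction l with
  | zero => exact ⟨id, fun θ => rfl, fun h _ θ => rfl⟩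
  | succ l ih =>
    obtain ⟨Q, hQ1, hQ2⟩ := ih (Fin.tail m)
    refine ⟨fun θ => P (m 0) (Q θ), fun θ => ?_, fun h hh θ => ?_⟩
    · rw [iteratedLineDerivOp_succ_left, hQ1, lineDerivOp_fourier_eq]
      rfl
    · simp only
      rw [hQ2 h hh, P_comm _ _ hh]

/-- The derivatives of `𝓕 (ch x Θ θ)` under the integral sign. -/
lemma deriv_repro (θ Θ : 𝓢(E n, ℂ)) (x : E n) (l : ℕ) (m : Fin l → E n) (y : E n) :
    iteratedFDeriv ℝ l (𝓕 (smulLeftCLM ℂ (ch x) (smulLeftCLM ℂ Θ θ)) : 𝓢(E n, ℂ)) y m =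
      ∫ z, (𝓕⁻ Θ : 𝓢(E n, ℂ)) (x - z) *
        iteratedFDeriv ℝ l (𝓕 (smulLeftCLM ℂ (ch z) θ) : 𝓢(E n, ℂ)) y m := by
  obtain ⟨Q, hQ1, hQ2⟩ := iterated_fourier l m
  have hT : (fun x : E n => Θ x).HasTemperateGrowth := Θ.hasTemperateGrowth
  rw [← iteratedLineDerivOp_eq_iteratedFDeriv, hQ1, hQ2 _ (temperate_ch x), hQ2 _ hT, fourier_ch,
    compSubConstCLM_apply, fourier_mul, ← integral_sub_right_eq_self _ x]
  congr 1
  funext z
  rw [← iteratedLineDerivOp_eq_iteratedFDeriv, hQ1, hQ2 _ (temperate_ch z), fourier_ch,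
    compSubConstCLM_apply, neg_sub, show y - x - (z - x) = y - z by abel]

/-! ### Seminorm estimates for translations -/

lemma iteratedFDeriv_translate (u : 𝓢(E n, ℂ)) (l : ℕ) (z y : E n) :
    iteratedFDeriv ℝ l (compSubConstCLM ℂ z u : 𝓢(E n, ℂ)) y = iteratedFDeriv ℝ l u (y - z) := by
  have h : ((compSubConstCLM ℂ z u : 𝓢(E n, ℂ)) : E n → ℂ) = fun y => u (y - z) := rfl
  rw [h, iteratedFDeriv_comp_sub]

lemma decay_bound (u : 𝓢(E n, ℂ)) (k l : ℕ) :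
    ∃ C : ℝ, 0 ≤ C ∧ ∀ w, (1 + ‖w‖) ^ k * ‖iteratedFDeriv ℝ l u w‖ ≤ C := by
  refine ⟨2 ^ k * (Finset.Iic (k, l)).sup (fun m => SchwartzMap.seminorm ℂ m.1 m.2) u,
    by positivity, fun w => ?_⟩
  exact one_add_le_sup_seminorm_apply (𝕜 := ℂ) (m := (k, l)) le_rfl le_rfl u w

lemma translate_bound (u : 𝓢(E n, ℂ)) (k l : ℕ) :
    ∃ C : ℝ, 0 ≤ C ∧ ∀ z y, ‖y‖ ^ k * ‖iteratedFDeriv ℝ l u (y - z)‖ ≤ C * (1 + ‖z‖) ^ k := by
  obtain ⟨C, hC, h⟩ := decay_bound u k l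
  refine ⟨C, hC, fun z y => ?_⟩
  have h1 : ‖y‖ ≤ (1 + ‖y - z‖) * (1 + ‖z‖) := by
    have h2 : ‖y‖ ≤ ‖y - z‖ + ‖z‖ := by
      calc ‖y‖ = ‖(y - z) + z‖ := by rw [sub_add_cancel]
        _ ≤ _ := norm_add_le _ _
    have := mul_nonneg (norm_nonneg (y - z)) (norm_nonneg z)
    nlinarith
  calc ‖y‖ ^ k * ‖iteratedFDeriv ℝ l u (y - z)‖
      ≤ ((1 + ‖y - z‖) * (1 + ‖z‖)) ^ k * ‖iteratedFDeriv ℝ l u (y - z)‖ := by gcongr
    _ = ((1 + ‖y - z‖) ^ k * ‖iteratedFDeriv ℝ l u (y - z)‖) * (1 + ‖z‖) ^ k := by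
        rw [mul_pow]; ring
    _ ≤ C * (1 + ‖z‖) ^ k := by
        gcongr
        exact h _

lemma translate_sub_bound (u : 𝓢(E n, ℂ)) (k l : ℕ) :
    ∃ C : ℝ, 0 ≤ C ∧ ∀ z z' y, ‖z' - z‖ ≤ 1 →
      ‖y‖ ^ k * ‖iteratedFDeriv ℝ l u (y - z') - iteratedFDeriv ℝ l u (y - z)‖ ≤
        C * (1 + ‖z‖) ^ k * ‖z' - z‖ := by
  obtain ⟨C, hC, h⟩ := decay_bound u k (l + 1)
  refine ⟨C, hC, fun z z' y hz => ?_⟩
  have hd : Differentiable ℝ (iteratedFDeriv ℝ l u) :=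
    (u.smooth (l + 1)).differentiable_iteratedFDeriv (by norm_cast; omega)
  have hmv := Convex.norm_image_sub_le_of_norm_fderiv_le (𝕜 := ℝ)
    (f := fun w => (‖y‖ ^ k) • iteratedFDeriv ℝ l u w) (C := C * (1 + ‖z‖) ^ k)
    (s := Metric.closedBall (y - z) 1) (x := y - z) (y := y - z')
    (fun w _ => (hd w).fun_const_smul _)
    (by
      intro w hw
      rw [fderiv_fun_const_smul (hd w), norm_smul, norm_fderiv_iteratedFDeriv, norm_pow, norm_norm]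
      have h1 : ‖y‖ ≤ (1 + ‖w‖) * (1 + ‖z‖) := by
        have h2 : ‖y - z - w‖ ≤ 1 := by
          rw [Metric.mem_closedBall, dist_eq_norm] at hw
          rwa [norm_sub_rev]
        have h3 : ‖y‖ ≤ ‖w‖ + ‖y - z - w‖ + ‖z‖ := by
          calc ‖y‖ = ‖w + (y - z - w) + z‖ := by congr 1; abel
            _ ≤ _ := norm_add₃_le
        have := mul_nonneg (norm_nonneg w) (norm_nonneg z)
        nlinarith
      calc ‖y‖ ^ k * ‖iteratedFDeriv ℝ (l + 1) u w‖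
          ≤ ((1 + ‖w‖) * (1 + ‖z‖)) ^ k * ‖iteratedFDeriv ℝ (l + 1) u w‖ := by gcongr
        _ = ((1 + ‖w‖) ^ k * ‖iteratedFDeriv ℝ (l + 1) u w‖) * (1 + ‖z‖) ^ k := by
            rw [mul_pow]; ring
        _ ≤ C * (1 + ‖z‖) ^ k := by
            gcongr
            exact h _)
    (convex_closedBall _ _) (by simp)
    (by
      rw [Metric.mem_closedBall, dist_eq_norm]
      have : y - z' - (y - z) = -(z' - z) := by abel
      rw [this, norm_neg]
      exact hz)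
  have h5 : y - z' - (y - z) = -(z' - z) := by abel
  rw [← smul_sub, norm_smul, norm_pow, norm_norm, h5, norm_neg] at hmv
  exact hmv

/-- The norm of a multilinear map from its values on the unit ball. -/
lemma norm_multilinear_le {l : ℕ} (A : ContinuousMultilinearMap ℝ (fun _ : Fin l => E n) ℂ)
    (B : ℝ) (hB : 0 ≤ B) (h : ∀ m : Fin l → E n, (∀ j, ‖m j‖ ≤ 1) → ‖A m‖ ≤ B) : ‖A‖ ≤ B := by
  apply ContinuousMultilinearMap.opNorm_le_bound hB
  intro m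
  by_cases h0 : ∃ j, m j = 0
  · obtain ⟨j, hj⟩ := h0
    rw [A.map_coord_zero j hj, norm_zero]
    positivity
  · push Not at h0
    have h1 : m = fun j => ‖m j‖ • (‖m j‖⁻¹ • m j) := by
      funext j
      rw [smul_smul, mul_inv_cancel₀ (norm_ne_zero_iff.2 (h0 j)), one_smul]
    have h2 := h (fun j => ‖m j‖⁻¹ • m j) (by
      intro j
      rw [norm_smul, norm_inv, norm_norm, inv_mul_cancel₀ (norm_ne_zero_iff.2 (h0 j))])
    calc ‖A m‖ = ‖A (fun j => ‖m j‖ • (‖m j‖⁻¹ • m j))‖ := by rw [← h1]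
      _ = (∏ j, ‖m j‖) * ‖A (fun j => ‖m j‖⁻¹ • m j)‖ := by
          rw [A.map_smul_univ, norm_smul, Real.norm_of_nonneg (by positivity)]
      _ ≤ (∏ j, ‖m j‖) * B := by gcongr
      _ = B * ∏ j, ‖m j‖ := mul_comm _ _

/-- A tempered distribution is of finite order. -/
lemma finite_order (f : 𝓢'(E n, ℂ)) :
    ∃ (s : Finset (ℕ × ℕ)) (C : ℝ), 0 ≤ C ∧ ∀ (u : 𝓢(E n, ℂ)) (B : ℝ), 0 ≤ B →
      (∀ i ∈ s, SchwartzMap.seminorm ℂ i.1 i.2 u ≤ B) → ‖f u‖ ≤ C * B := by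
  have hc : Continuous fun u : 𝓢(E n, ℂ) => ‖f u‖ := continuous_norm.comp (map_continuous f)
  let q : Seminorm ℂ 𝓢(E n, ℂ) := Seminorm.of (fun u => ‖f u‖)
    (fun u w => by simp only [map_add]; exact norm_add_le _ _)
    (fun c u => by simp only [map_smul, norm_smul])
  obtain ⟨s, C, -, hq⟩ := Seminorm.bound_of_continuous (schwartz_withSeminorms ℂ (E n) ℂ) q hc
  refine ⟨s, C, C.2, fun u B hB h => ?_⟩
  calc ‖f u‖ = q u := rfl
    _ ≤ (C • s.sup (schwartzSeminormFamily ℂ (E n) ℂ)) u := hq u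
    _ = C * (s.sup (schwartzSeminormFamily ℂ (E n) ℂ)) u := rfl
    _ ≤ C * B := by
        gcongr
        exact Seminorm.finset_sup_apply_le hB h

lemma seminorm_translate_le (u : 𝓢(E n, ℂ)) (k l : ℕ) :
    ∃ C : ℝ, 0 ≤ C ∧ ∀ z, SchwartzMap.seminorm ℂ k l (compSubConstCLM ℂ z u) ≤
      C * (1 + ‖z‖) ^ k := by
  obtain ⟨C, hC, h⟩ := translate_bound u k l
  refine ⟨C, hC, fun z => ?_⟩
  apply seminorm_le_bound _ _ _ _ (by positivity)
  intro y
  rw [iteratedFDeriv_translate]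
  exact h z y

lemma seminorm_translate_sub_le (u : 𝓢(E n, ℂ)) (k l : ℕ) :
    ∃ C : ℝ, 0 ≤ C ∧ ∀ z z', ‖z' - z‖ ≤ 1 →
      SchwartzMap.seminorm ℂ k l (compSubConstCLM ℂ z' u - compSubConstCLM ℂ z u) ≤
      C * (1 + ‖z‖) ^ k * ‖z' - z‖ := by
  obtain ⟨C, hC, h⟩ := translate_sub_bound u k l
  refine ⟨C, hC, fun z z' hz => ?_⟩
  apply seminorm_le_bound _ _ _ _ (by positivity)
  intro y
  have h1 : iteratedFDeriv ℝ l (compSubConstCLM ℂ z' u - compSubConstCLM ℂ z u : 𝓢(E n, ℂ)) y =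
      iteratedFDeriv ℝ l u (y - z') - iteratedFDeriv ℝ l u (y - z) := by
    rw [← iteratedFDeriv_translate, ← iteratedFDeriv_translate]
    exact iteratedFDeriv_sub_apply ((compSubConstCLM ℂ z' u).contDiffAt l)
      ((compSubConstCLM ℂ z u).contDiffAt l)
  rw [h1]
  exact h z z' y hz

/-- Uniform version for finitely many seminorms. -/
lemma finset_bound (s : Finset (ℕ × ℕ)) (u : 𝓢(E n, ℂ)) :
    ∃ (C : ℝ) (K : ℕ), 0 ≤ C ∧ (∀ i ∈ s, ∀ z,
      SchwartzMap.seminorm ℂ i.1 i.2 (compSubConstCLM ℂ z u) ≤ C * (1 + ‖z‖) ^ K) ∧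
      (∀ i ∈ s, ∀ z z', ‖z' - z‖ ≤ 1 →
        SchwartzMap.seminorm ℂ i.1 i.2 (compSubConstCLM ℂ z' u - compSubConstCLM ℂ z u) ≤
          C * (1 + ‖z‖) ^ K * ‖z' - z‖) := by
  classical
  choose C1 hC1 h1 using fun i : ℕ × ℕ => seminorm_translate_le u i.1 i.2
  choose C2 hC2 h2 using fun i : ℕ × ℕ => seminorm_translate_sub_le u i.1 i.2
  refine ⟨∑ i ∈ s, (C1 i + C2 i), ∑ i ∈ s, i.1, ?_, ?_, ?_⟩
  · exact Finset.sum_nonneg fun i _ => add_nonneg (hC1 i) (hC2 i)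
  · intro i hi z
    have e1 : C1 i ≤ ∑ i ∈ s, (C1 i + C2 i) :=
      le_trans (by linarith [hC2 i]) (Finset.single_le_sum
        (f := fun i => C1 i + C2 i) (fun i _ => add_nonneg (hC1 i) (hC2 i)) hi)
    have e2 : i.1 ≤ ∑ i ∈ s, i.1 := Finset.single_le_sum (f := fun i : ℕ × ℕ => i.1)
      (fun _ _ => Nat.zero_le _) hi
    have e3 : (1 : ℝ) ≤ 1 + ‖z‖ := by linarith [norm_nonneg z]
    calc _ ≤ C1 i * (1 + ‖z‖) ^ i.1 := h1 i z
      _ ≤ _ := mul_le_mul e1 (pow_le_pow_right₀ e3 e2) (by positivity) (le_trans (hC1 i) e1)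
  · intro i hi z z' hz
    have e1 : C2 i ≤ ∑ i ∈ s, (C1 i + C2 i) :=
      le_trans (by linarith [hC1 i]) (Finset.single_le_sum
        (f := fun i => C1 i + C2 i) (fun i _ => add_nonneg (hC1 i) (hC2 i)) hi)
    have e2 : i.1 ≤ ∑ i ∈ s, i.1 := Finset.single_le_sum (f := fun i : ℕ × ℕ => i.1)
      (fun _ _ => Nat.zero_le _) hi
    have e3 : (1 : ℝ) ≤ 1 + ‖z‖ := by linarith [norm_nonneg z]
    calc _ ≤ C2 i * (1 + ‖z‖) ^ i.1 * ‖z' - z‖ := h2 i z z' hz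
      _ ≤ _ := mul_le_mul_of_nonneg_right (mul_le_mul e1 (pow_le_pow_right₀ e3 e2) (by positivity)
        (le_trans (hC2 i) e1)) (norm_nonneg _)

lemma integrable_weight (G : 𝓢(E n, ℂ)) (C : ℝ) (K : ℕ) (hC : 0 ≤ C) (x : E n) :
    Integrable (fun z => ‖G (x - z)‖ * (C * (1 + ‖z‖) ^ K)) := by
  have h1 : Integrable (fun w => 2 ^ K * (‖w‖ ^ 0 * ‖G w‖ + ‖w‖ ^ K * ‖G w‖)) :=
    ((G.integrable_pow_mul volume 0).add (G.integrable_pow_mul volume K)).const_mul _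
  have h2 := (h1.comp_sub_left x).const_mul (C * (1 + ‖x‖) ^ K)
  refine Integrable.mono' h2 (by fun_prop) (Filter.Eventually.of_forall fun z => ?_)
  rw [Real.norm_of_nonneg (by positivity)]
  have h3 : 1 + ‖z‖ ≤ (1 + ‖x‖) * (1 + ‖x - z‖) := by
    have h4 : ‖z‖ ≤ ‖x‖ + ‖x - z‖ := by
      calc ‖z‖ = ‖x - (x - z)‖ := by rw [sub_sub_cancel]
        _ ≤ _ := norm_sub_le _ _
    have := mul_nonneg (norm_nonneg x) (norm_nonneg (x - z))
    nlinarith
  have h5 : (1 + ‖x - z‖) ^ K ≤ 2 ^ K * (‖x - z‖ ^ 0 + ‖x - z‖ ^ K) := by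
    calc (1 + ‖x - z‖) ^ K ≤ 2 ^ (K - 1) * (1 ^ K + ‖x - z‖ ^ K) :=
          add_pow_le zero_le_one (norm_nonneg _) K
      _ ≤ 2 ^ K * (‖x - z‖ ^ 0 + ‖x - z‖ ^ K) := by
          rw [one_pow, pow_zero]
          gcongr
          · norm_num
          · omega
  calc ‖G (x - z)‖ * (C * (1 + ‖z‖) ^ K)
      ≤ ‖G (x - z)‖ * (C * ((1 + ‖x‖) * (1 + ‖x - z‖)) ^ K) := by gcongr
    _ = C * (1 + ‖x‖) ^ K * ((1 + ‖x - z‖) ^ K * ‖G (x - z)‖) := by rw [mul_pow]; ring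
    _ ≤ C * (1 + ‖x‖) ^ K * ((2 ^ K * (‖x - z‖ ^ 0 + ‖x - z‖ ^ K)) * ‖G (x - z)‖) := by gcongr
    _ = _ := by ring

end T4

open T4

variable {n : ℕ}

/-- T4a -/
theorem t4_continuous (θ : 𝓢(E n, ℂ)) (f : 𝓢'(E n, ℂ)) : Continuous (piece θ f) := by
  obtain ⟨s, C, hC, hf⟩ := finite_order f
  obtain ⟨C', K, hC', -, h2⟩ := finset_bound s (𝓕 θ)
  rw [continuous_iff_continuousAt]
  intro x
  rw [ContinuousAt, tendsto_iff_norm_sub_tendsto_zero]
  have hlim : Filter.Tendsto (fun y => C * (C' * (1 + ‖x‖) ^ K * ‖y - x‖)) (nhds x) (nhds 0) := by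
    have : Continuous fun y => C * (C' * (1 + ‖x‖) ^ K * ‖y - x‖) := by fun_prop
    have h3 := this.tendsto x
    simpa using h3
  apply squeeze_zero' (Filter.Eventually.of_forall fun y => norm_nonneg _) _ hlim
  filter_upwards [Metric.closedBall_mem_nhds x one_pos] with y hy
  rw [Metric.mem_closedBall, dist_eq_norm] at hy
  rw [piece_eq, piece_eq, ← map_sub]
  apply hf _ _ (by positivity)
  intro i hi
  exact h2 i hi x y hy

/-- T4b -/
theorem t4_growth (θ : 𝓢(E n, ℂ)) (f : 𝓢'(E n, ℂ)) :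
    ∃ (C : ℝ) (k : ℕ), ∀ x, ‖piece θ f x‖ ≤ C * (1 + ‖x‖) ^ k := by
  obtain ⟨s, C, hC, hf⟩ := finite_order f
  obtain ⟨C', K, hC', h1, -⟩ := finset_bound s (𝓕 θ)
  refine ⟨C * C', K, fun x => ?_⟩
  rw [piece_eq, mul_assoc]
  exact hf _ _ (by positivity) fun i hi => h1 i hi x

/-- T4c: reproducing formula. -/
theorem t4_repro (θ Θ : 𝓢(E n, ℂ)) (f : 𝓢'(E n, ℂ)) (x : E n) :
    piece (SchwartzMap.smulLeftCLM ℂ Θ θ) f x = ∫ z, (𝓕⁻ Θ : 𝓢(E n, ℂ)) (x - z) * piece θ f z := by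
  obtain ⟨s, C, hC, hf⟩ := finite_order f
  obtain ⟨C', K, hC', h1, h2⟩ := finset_bound s (𝓕 θ)
  let I : Type := {i : ℕ × ℕ // i ∈ s} × E n × {m : ℕ → E n // ∀ j, ‖m j‖ ≤ 1}
  let lam : I → 𝓢(E n, ℂ) →ₗ[ℂ] ℂ := fun i =>
    { toFun := fun u => ((‖i.2.1‖ : ℂ) ^ i.1.1.1) *
        iteratedFDeriv ℝ i.1.1.2 u i.2.1 (fun j => i.2.2.1 j)
      map_add' := by
        intro u w
        have : iteratedFDeriv ℝ i.1.1.2 (u + w : 𝓢(E n, ℂ)) i.2.1 =
            iteratedFDeriv ℝ i.1.1.2 u i.2.1 + iteratedFDeriv ℝ i.1.1.2 w i.2.1 :=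
          iteratedFDeriv_add_apply (u.contDiffAt _) (w.contDiffAt _)
        rw [this]
        simp [mul_add]
      map_smul' := by
        intro c u
        have : iteratedFDeriv ℝ i.1.1.2 (c • u : 𝓢(E n, ℂ)) i.2.1 =
            c • iteratedFDeriv ℝ i.1.1.2 u i.2.1 :=
          iteratedFDeriv_const_smul_apply (u.contDiffAt _)
        rw [this]
        simp [mul_left_comm] }
  have hlam_le : ∀ (u : 𝓢(E n, ℂ)) (i : I), ‖lam i u‖ ≤ SchwartzMap.seminorm ℂ i.1.1.1 i.1.1.2 u := by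
    intro u i
    show ‖((‖i.2.1‖ : ℂ) ^ i.1.1.1) * iteratedFDeriv ℝ i.1.1.2 u i.2.1 (fun j => i.2.2.1 j)‖ ≤ _
    rw [norm_mul, norm_pow, Complex.norm_real, norm_norm]
    refine le_trans ?_ (le_seminorm ℂ i.1.1.1 i.1.1.2 u i.2.1)
    gcongr
    refine ((iteratedFDeriv ℝ i.1.1.2 u i.2.1).le_opNorm _).trans ?_
    have : ∏ j : Fin i.1.1.2, ‖i.2.2.1 j‖ ≤ 1 := by
      apply Finset.prod_le_one
      · intro j _; exact norm_nonneg _
      · intro j _; exact i.2.2.2 j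
    calc _ ≤ ‖iteratedFDeriv ℝ i.1.1.2 u i.2.1‖ * 1 := by gcongr
      _ = _ := mul_one _
  have hsem : ∀ (u : 𝓢(E n, ℂ)) (B : ℝ), 0 ≤ B → (∀ i, ‖lam i u‖ ≤ B) →
      ∀ i ∈ s, SchwartzMap.seminorm ℂ i.1 i.2 u ≤ B := by
    intro u B hB h i hi
    apply seminorm_le_bound _ _ _ _ hB
    intro y
    rcases (pow_nonneg (norm_nonneg y) i.1).eq_or_lt with h0 | h0
    · rw [← h0, zero_mul]; exact hB
    · have h3 : ‖iteratedFDeriv ℝ i.2 u y‖ ≤ B / ‖y‖ ^ i.1 := by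
        apply norm_multilinear_le _ _ (by positivity)
        intro m hm
        have h4 := h ⟨⟨i, hi⟩, y, ⟨fun j => if hj : j < i.2 then m ⟨j, hj⟩ else 0, by
          intro j
          simp only
          split_ifs with hj
          · exact hm _
          · simp⟩⟩
        have h5 : (fun j : Fin i.2 => (if hj : (j : ℕ) < i.2 then m ⟨j, hj⟩ else 0 : E n)) = m := by
          funext j
          simp
        change ‖((‖y‖ : ℂ) ^ i.1) * iteratedFDeriv ℝ i.2 u y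
          (fun j : Fin i.2 => (if hj : (j : ℕ) < i.2 then m ⟨j, hj⟩ else 0 : E n))‖ ≤ B at h4
        rw [h5, norm_mul, norm_pow, Complex.norm_real, norm_norm] at h4
        rw [le_div_iff₀ h0, mul_comm]
        exact h4
      rw [le_div_iff₀ h0] at h3
      linarith
  have key := exchange (n := n) lam ((f : 𝓢(E n, ℂ) →L[ℂ] ℂ) : 𝓢(E n, ℂ) →ₗ[ℂ] ℂ) C
    (fun u => ⟨∑ i ∈ s, SchwartzMap.seminorm ℂ i.1 i.2 u, fun i => (hlam_le u i).trans
      (Finset.single_le_sum (f := fun i : ℕ × ℕ => SchwartzMap.seminorm ℂ i.1 i.2 u)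
        (fun _ _ => apply_nonneg _ _) i.1.2)⟩)
    (fun u B hB h => hf u B hB (hsem u B hB h))
    (fun z => compSubConstCLM ℂ z (𝓕 θ)) (fun z => (𝓕⁻ Θ : 𝓢(E n, ℂ)) (x - z))
    (by
      intro z₀ ε hε
      have hlim : Filter.Tendsto (fun y => C' * (1 + ‖z₀‖) ^ K * ‖y - z₀‖) (nhds z₀) (nhds 0) := by
        have : Continuous fun y => C' * (1 + ‖z₀‖) ^ K * ‖y - z₀‖ := by fun_prop
        have h3 := this.tendsto z₀
        simpa using h3
      filter_upwards [Metric.closedBall_mem_nhds z₀ one_pos, hlim.eventually_le_const hε] with y hy h4 i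
      rw [Metric.mem_closedBall, dist_eq_norm] at hy
      exact (hlam_le _ i).trans ((h2 i.1.1 i.1.2 z₀ y hy).trans h4))
    (by fun_prop)
    (fun z => C' * (1 + ‖z‖) ^ K) (fun z i => (hlam_le _ i).trans (h1 i.1.1 i.1.2 z))
    (fun z => by positivity)
    (integrable_weight (𝓕⁻ Θ) C' K hC' x)
    (𝓕 (smulLeftCLM ℂ (ch x) (smulLeftCLM ℂ Θ θ)))
    (by
      intro i
      show ((‖i.2.1‖ : ℂ) ^ i.1.1.1) * iteratedFDeriv ℝ i.1.1.2 _ i.2.1 (fun j => i.2.2.1 j) = _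
      rw [deriv_repro, ← integral_const_mul]
      congr 1
      funext z
      rw [fourier_ch]
      show _ = _ * (((‖i.2.1‖ : ℂ) ^ i.1.1.1) * iteratedFDeriv ℝ i.1.1.2 _ i.2.1 (fun j => i.2.2.1 j))
      ring)
  calc piece (SchwartzMap.smulLeftCLM ℂ Θ θ) f x = f (𝓕 (smulLeftCLM ℂ (ch x) (smulLeftCLM ℂ Θ θ))) := rfl
    _ = _ := key
    _ = _ := by
      congr 1
      funext z
      rw [piece_eq]
      rfl

end Pool.Agent.Lib.MP_2116eb_an
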