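import Pool.Agent.Lib.MP_2116eb_an.Base
import Pool.Agent.Lib.MP_2116eb_an.T4

/-!
# Pointwise estimate for band-limited pieces by averages
-/

set_option autoImplicit false

open MeasureTheory SchwartzMap FourierTransform
open scoped ENNReal NNReal

noncomputable section

namespace Pool.Agent.Lib.MP_2116eb_an

namespace T5

variable {n : ℕ}

theorem dil_apply (φ : 𝓢(E n, ℂ)) (j : ℕ) (ξ : E n) : dil φ j ξ = φ (((2 : ℝ) ^ j)⁻¹ • ξ) := rfl

theorem dil_zero (φ : 𝓢(E n, ℂ)) : dil φ 0 = φ := by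
  ext ξ
  rw [dil_apply]; simp

/-- The inverse Fourier transform of a dilation. -/
theorem fourierInv_dil (φ : 𝓢(E n, ℂ)) (j : ℕ) (z : E n) :
    (𝓕⁻ (dil φ j) : 𝓢(E n, ℂ)) z =
      ((2 : ℝ) ^ j) ^ n • (𝓕⁻ φ : 𝓢(E n, ℂ)) ((2 : ℝ) ^ j • z) := by
  have h2 : ((2 : ℝ) ^ j) ≠ 0 := by positivity
  rw [fourierInv_coe, fourierInv_coe, Real.fourierInv_eq', Real.fourierInv_eq']
  have h := Measure.integral_comp_smul (volume : Measure (E n))
    (fun v : E n => Complex.exp (↑(2 * Real.pi * inner ℝ v ((2 : ℝ) ^ j • z)) * Complex.I) • φ v)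
    (((2 : ℝ) ^ j)⁻¹)
  have h1 : ∀ x : E n, Complex.exp (↑(2 * Real.pi * inner ℝ (((2 : ℝ) ^ j)⁻¹ • x)
      ((2 : ℝ) ^ j • z)) * Complex.I) • φ (((2 : ℝ) ^ j)⁻¹ • x) =
      Complex.exp (↑(2 * Real.pi * inner ℝ x z) * Complex.I) • dil φ j x := by
    intro x
    rw [dil_apply, inner_smul_left, inner_smul_right]
    congr 4
    simp only [map_inv₀, map_pow, conj_trivial]
    field_simp
  simp_rw [h1] at h
  rw [h]
  congr 1
  rw [finrank_euclideanSpace_fin, inv_pow, inv_inv, abs_of_nonneg (by positivity)]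

/-- Decay of a Schwartz function. -/
theorem decay (u : 𝓢(E n, ℂ)) (N : ℝ) :
    ∃ C : ℝ, 0 ≤ C ∧ ∀ z, ‖u z‖ ≤ C * (1 + ‖z‖) ^ (-N) := by
  obtain ⟨k, hk⟩ := exists_nat_ge N
  obtain ⟨C, hC, h⟩ := T4.decay_bound u k 0
  refine ⟨C, hC, fun z => ?_⟩
  have h1 := h z
  rw [norm_iteratedFDeriv_zero] at h1
  have h2 : (1 : ℝ) ≤ 1 + ‖z‖ := by linarith [norm_nonneg z]
  have h3 : 0 < (1 + ‖z‖) ^ k := by positivity
  have h4 : ‖u z‖ ≤ C * (1 + ‖z‖) ^ (-(k : ℝ)) := by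
    rw [Real.rpow_neg (by positivity), Real.rpow_natCast, ← div_eq_mul_inv, le_div_iff₀ h3]
    linarith
  refine h4.trans ?_
  gcongr

theorem two_rpow (j : ℕ) : (2 : ℝ) ^ ((j : ℝ) * n) = ((2 : ℝ) ^ j) ^ n := by
  rw [← pow_mul, ← Real.rpow_natCast]; push_cast; rfl

/-- Kernel bound for dilations. -/
theorem dil_bound (φ : 𝓢(E n, ℂ)) (N : ℝ) :
    ∃ C : ℝ≥0, ∀ j z, ‖(𝓕⁻ (dil φ j) : 𝓢(E n, ℂ)) z‖ₑ ≤ C * eta n j N z := by
  obtain ⟨C, hC, h⟩ := decay (𝓕⁻ φ : 𝓢(E n, ℂ)) N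
  refine ⟨Real.toNNReal C, fun j z => ?_⟩
  have h1 := h ((2 : ℝ) ^ j • z)
  rw [norm_smul, Real.norm_of_nonneg (by positivity)] at h1
  rw [fourierInv_dil, ← ofReal_norm, eta]
  have h2 : ((Real.toNNReal C : ℝ≥0) : ℝ≥0∞) = ENNReal.ofReal C := rfl
  rw [h2, ← ENNReal.ofReal_mul hC]
  apply ENNReal.ofReal_le_ofReal
  rw [norm_smul, Real.norm_of_nonneg (by positivity), two_rpow]
  calc ((2 : ℝ) ^ j) ^ n * ‖(𝓕⁻ φ : 𝓢(E n, ℂ)) ((2 : ℝ) ^ j • z)‖
      ≤ ((2 : ℝ) ^ j) ^ n * (C * (1 + (2 : ℝ) ^ j * ‖z‖) ^ (-N)) := by gcongr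
    _ = _ := by ring

theorem eta_succ_le (j : ℕ) {N : ℝ} (hN : 0 ≤ N) (z : E n) :
    eta n (j + 1) N z ≤ ENNReal.ofReal (2 ^ n) * eta n j N z := by
  rw [eta, eta, ← ENNReal.ofReal_mul (by positivity)]
  apply ENNReal.ofReal_le_ofReal
  rw [two_rpow, two_rpow, ← mul_assoc]
  have h1 : ((2 : ℝ) ^ (j + 1)) ^ n = 2 ^ n * ((2 : ℝ) ^ j) ^ n := by
    rw [pow_succ, mul_pow]; ring
  rw [h1]
  refine mul_le_mul_of_nonneg_left ?_ (by positivity)
  apply Real.rpow_le_rpow_of_nonpos (br_pos j z) _ (by linarith)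
  have : (2 : ℝ) ^ j ≤ 2 ^ (j + 1) := pow_le_pow_right₀ (by norm_num) (by omega)
  gcongr

theorem eta_le_succ (j : ℕ) {N : ℝ} (hN : 0 ≤ N) (z : E n) :
    eta n j N z ≤ ENNReal.ofReal (2 ^ N) * eta n (j + 1) N z := by
  rw [eta, eta, ← ENNReal.ofReal_mul (by positivity)]
  apply ENNReal.ofReal_le_ofReal
  rw [two_rpow, two_rpow]
  have h1 : ((2 : ℝ) ^ (j + 1)) ^ n = 2 ^ n * ((2 : ℝ) ^ j) ^ n := by
    rw [pow_succ, mul_pow]; ring
  have h3 : (1 + (2 : ℝ) ^ j * ‖z‖) ^ (-N) ≤ 2 ^ N * (1 + (2 : ℝ) ^ (j + 1) * ‖z‖) ^ (-N) := by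
    have h4 : 0 < 1 + (2 : ℝ) ^ (j + 1) * ‖z‖ := br_pos (j + 1) z
    rw [Real.rpow_neg h4.le, ← div_eq_mul_inv, le_div_iff₀ (by positivity),
      Real.rpow_neg (br_pos j z).le, ← div_eq_inv_mul, div_le_iff₀ (by have := br_pos j z; positivity),
      ← Real.mul_rpow (by norm_num) (br_pos j z).le]
    apply Real.rpow_le_rpow h4.le _ hN
    rw [pow_succ]
    have := norm_nonneg z
    nlinarith [pow_pos (show (0 : ℝ) < 2 by norm_num) j]
  calc ((2 : ℝ) ^ j) ^ n * (1 + (2 : ℝ) ^ j * ‖z‖) ^ (-N)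
      ≤ ((2 : ℝ) ^ (j + 1)) ^ n * (2 ^ N * (1 + (2 : ℝ) ^ (j + 1) * ‖z‖) ^ (-N)) := by
        have h5 : ((2 : ℝ) ^ j) ^ n ≤ ((2 : ℝ) ^ (j + 1)) ^ n := by
          gcongr
          · norm_num
          · omega
        have h6 : 0 ≤ (1 + (2 : ℝ) ^ j * ‖z‖) ^ (-N) := Real.rpow_nonneg (br_pos j z).le _
        exact mul_le_mul h5 h3 h6 (by positivity)
    _ = _ := by ring

/-- Kernel bound for the resolution. -/
theorem res_bound (φ : 𝓢(E n, ℂ)) {N : ℝ} (hN : 0 ≤ N) :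
    ∃ C : ℝ≥0, ∀ j z, ‖(𝓕⁻ (res φ j) : 𝓢(E n, ℂ)) z‖ₑ ≤ C * eta n j N z := by
  obtain ⟨C, hC⟩ := dil_bound φ N
  refine ⟨C + C * Real.toNNReal (2 ^ N), fun j z => ?_⟩
  cases j with
  | zero =>
    have h1 := hC 0 z
    rw [dil_zero] at h1
    refine h1.trans ?_
    gcongr
    exact le_self_add
  | succ j =>
    have h1 : (𝓕⁻ (res φ (j + 1)) : 𝓢(E n, ℂ)) z =
        (𝓕⁻ (dil φ (j + 1)) : 𝓢(E n, ℂ)) z - (𝓕⁻ (dil φ j) : 𝓢(E n, ℂ)) z := by
      have h2 : (𝓕⁻ (res φ (j + 1)) : 𝓢(E n, ℂ)) = 𝓕⁻ (dil φ (j + 1)) - 𝓕⁻ (dil φ j) := by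
        simp only [res]
        rw [sub_eq_add_neg, fourierInv_add, FourierTransform.fourierInv_neg, ← sub_eq_add_neg]
      rw [h2]; rfl
    rw [h1]
    refine enorm_sub_le.trans ?_
    have h3 := hC (j + 1) z
    have h4 := hC j z
    have h5 := eta_le_succ j hN z
    calc ‖(𝓕⁻ (dil φ (j + 1)) : 𝓢(E n, ℂ)) z‖ₑ + ‖(𝓕⁻ (dil φ j) : 𝓢(E n, ℂ)) z‖ₑ
        ≤ C * eta n (j + 1) N z + C * (ENNReal.ofReal (2 ^ N) * eta n (j + 1) N z) := by
          gcongr
          exact h4.trans (by gcongr)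
      _ = _ := by
        push_cast
        rw [ENNReal.ofReal]
        ring

/-! ### Supports -/

theorem dil_eq_one {ρ : ℝ} {φ : 𝓢(E n, ℂ)} (hφ : Admissible ρ φ) {j : ℕ} {ξ : E n}
    (h : ‖ξ‖ ≤ 2 ^ j * ρ) : dil φ j ξ = 1 := by
  rw [dil_apply]
  apply hφ.1
  rw [norm_smul, norm_inv, norm_pow, Real.norm_of_nonneg (by norm_num : (0 : ℝ) ≤ 2)]
  rw [inv_mul_le_iff₀ (by positivity)]
  exact h

theorem dil_eq_zero {ρ : ℝ} {φ : 𝓢(E n, ℂ)} (hφ : Admissible ρ φ) {j : ℕ} {ξ : E n}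
    (h : 2 ^ (j + 1) * ρ < ‖ξ‖) : dil φ j ξ = 0 := by
  rw [dil_apply]
  apply hφ.2
  rw [norm_smul, norm_inv, norm_pow, Real.norm_of_nonneg (by norm_num : (0 : ℝ) ≤ 2)]
  rw [lt_inv_mul_iff₀ (by positivity)]
  rw [pow_succ] at h
  linarith

theorem res_succ_apply (φ : 𝓢(E n, ℂ)) (j : ℕ) (ξ : E n) :
    res φ (j + 1) ξ = dil φ (j + 1) ξ - dil φ j ξ := rfl

theorem res_zero_apply (φ : 𝓢(E n, ℂ)) (ξ : E n) : res φ 0 ξ = dil φ 0 ξ := by
  rw [dil_zero]; rfl

theorem res_eq_zero_of_large {ρ : ℝ} (hρ : 0 < ρ) {φ : 𝓢(E n, ℂ)} (hφ : Admissible ρ φ) {j : ℕ}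
    {ξ : E n} (h : 2 ^ (j + 1) * ρ < ‖ξ‖) : res φ j ξ = 0 := by
  cases j with
  | zero => rw [res_zero_apply]; exact dil_eq_zero hφ h
  | succ j =>
    rw [res_succ_apply, dil_eq_zero hφ h, dil_eq_zero hφ, sub_zero]
    refine lt_of_le_of_lt ?_ h
    have h2 : (2 : ℝ) ^ (j + 1) ≤ 2 ^ (j + 1 + 1) := pow_le_pow_right₀ (by norm_num) (by omega)
    exact mul_le_mul_of_nonneg_right h2 hρ.le

theorem res_eq_zero_of_small {ρ : ℝ} (hρ : 0 < ρ) {φ : 𝓢(E n, ℂ)} (hφ : Admissible ρ φ) {j : ℕ}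
    {ξ : E n} (h : ‖ξ‖ ≤ 2 ^ j * ρ) : res φ (j + 1) ξ = 0 := by
  rw [res_succ_apply, dil_eq_one hφ h, dil_eq_one hφ, sub_self]
  refine h.trans ?_
  have h2 : (2 : ℝ) ^ j ≤ 2 ^ (j + 1) := pow_le_pow_right₀ (by norm_num) (by omega)
  exact mul_le_mul_of_nonneg_right h2 hρ.le

/-- A piece of the resolution is reproduced by a dilation of the generator. -/
theorem res_repro {ρ : ℝ} (hρ : 0 < ρ) {φ ψ : 𝓢(E n, ℂ)} (hφ : Admissible ρ φ)
    (hψ : Admissible ρ ψ) (j : ℕ) :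
    res φ j = smulLeftCLM ℂ (dil ψ (j + 1)) (res φ j) := by
  ext ξ
  have hT : (fun x : E n => dil ψ (j + 1) x).HasTemperateGrowth := (dil ψ (j + 1)).hasTemperateGrowth
  rw [smulLeftCLM_apply_apply hT, smul_eq_mul]
  by_cases h : 2 ^ (j + 1) * ρ < ‖ξ‖
  · rw [res_eq_zero_of_large hρ hφ h, mul_zero]
  · rw [dil_eq_one hψ (not_lt.mp h), one_mul]

/-- Sum of three consecutive pieces. -/
theorem sum_res_one {ρ : ℝ} (hρ : 0 < ρ) {φ ψ : 𝓢(E n, ℂ)} (hφ : Admissible ρ φ)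
    (hψ : Admissible ρ ψ) (j : ℕ) (ξ : E n) :
    res φ j ξ * ∑ k ∈ Finset.Icc (j - 1) (j + 1), res ψ k ξ = res φ j ξ := by
  by_cases h : 2 ^ (j + 1) * ρ < ‖ξ‖
  · rw [res_eq_zero_of_large hρ hφ h, zero_mul]
  · have h1 : dil ψ (j + 1) ξ = 1 := dil_eq_one hψ (not_lt.mp h)
    obtain rfl | rfl | ⟨i, rfl⟩ : j = 0 ∨ j = 1 ∨ ∃ i, j = i + 2 := by
      rcases j with _ | _ | i
      · left; rfl
      · right; left; rfl
      · right; right; exact ⟨i, rfl⟩
    · have h2 : Finset.Icc (0 - 1) (0 + 1) = ({0, 1} : Finset ℕ) := by decide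
      rw [h2, Finset.sum_pair (by norm_num), res_zero_apply ψ, res_succ_apply ψ]
      rw [zero_add] at h1
      rw [zero_add, h1]
      ring
    · have h2 : Finset.Icc (1 - 1) (1 + 1) = ({0, 1, 2} : Finset ℕ) := by decide
      rw [h2, Finset.sum_insert (by decide), Finset.sum_pair (by norm_num), res_zero_apply ψ,
        res_succ_apply ψ 0, res_succ_apply ψ 1]
      have h3 : dil ψ (1 + 1) ξ = 1 := h1
      rw [h3]
      ring
    · have h2 : Finset.Icc (i + 2 - 1) (i + 2 + 1) = ({i + 1, i + 2, i + 3} : Finset ℕ) := by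
        ext k
        simp only [Finset.mem_Icc, Finset.mem_insert, Finset.mem_singleton]
        omega
      rw [h2, Finset.sum_insert (by simp), Finset.sum_pair (by simp),
        res_succ_apply ψ i, res_succ_apply ψ (i + 1), res_succ_apply ψ (i + 2)]
      have h3 : dil ψ (i + 2 + 1) ξ = 1 := h1
      rw [h3]
      by_cases h4 : ‖ξ‖ ≤ 2 ^ (i + 1) * ρ
      · have h5 : res φ (i + 2) ξ = 0 := res_eq_zero_of_small hρ hφ h4
        rw [h5, zero_mul]
      · rw [dil_eq_zero hψ (not_le.mp h4)]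
        ring

theorem piece_sum (s : Finset ℕ) (θ : ℕ → 𝓢(E n, ℂ)) (f : 𝓢'(E n, ℂ)) (x : E n) :
    piece (∑ k ∈ s, θ k) f x = ∑ k ∈ s, piece (θ k) f x := by
  simp only [piece]
  rw [map_sum, map_sum]

theorem res_decomp {ρ : ℝ} (hρ : 0 < ρ) {φ ψ : 𝓢(E n, ℂ)} (hφ : Admissible ρ φ)
    (hψ : Admissible ρ ψ) (j : ℕ) :
    res φ j = ∑ k ∈ Finset.Icc (j - 1) (j + 1), smulLeftCLM ℂ (res φ j) (res ψ k) := by
  ext ξ
  have hT : (fun x : E n => res φ j x).HasTemperateGrowth := (res φ j).hasTemperateGrowth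
  have h1 : (∑ k ∈ Finset.Icc (j - 1) (j + 1), smulLeftCLM ℂ (res φ j) (res ψ k)) ξ =
      ∑ k ∈ Finset.Icc (j - 1) (j + 1), (smulLeftCLM ℂ (res φ j) (res ψ k)) ξ := by
    simp
  rw [h1, ← sum_res_one hρ hφ hψ j ξ, Finset.mul_sum]
  refine Finset.sum_congr rfl fun k _ => ?_
  rw [smulLeftCLM_apply_apply hT, smul_eq_mul]

/-- Convolution bound. -/
theorem piece_le {θ Θ : 𝓢(E n, ℂ)} {N : ℝ} {j : ℕ} {C : ℝ≥0}
    (h : ∀ z, ‖(𝓕⁻ Θ : 𝓢(E n, ℂ)) z‖ₑ ≤ C * eta n j N z) (f : 𝓢'(E n, ℂ)) (x : E n) :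
    ‖piece (smulLeftCLM ℂ Θ θ) f x‖ₑ ≤ C * avg j N (fun z => ‖piece θ f z‖ₑ) x := by
  rw [t4_repro]
  refine (enorm_integral_le_lintegral_enorm _).trans ?_
  have hm : Measurable (fun z : E n => ‖piece θ f z‖ₑ) :=
    (t4_continuous θ f).measurable.enorm
  rw [← avg_const_mul j N hm, avg_eq]
  refine lintegral_mono fun z => ?_
  dsimp only
  rw [enorm_mul]
  calc ‖(𝓕⁻ Θ : 𝓢(E n, ℂ)) (x - z)‖ₑ * ‖piece θ f z‖ₑ
      ≤ (C * eta n j N (x - z)) * ‖piece θ f z‖ₑ := by gcongr; exact h _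
    _ = _ := by ring

/-! ### The Peetre maximal function -/

/-- polynomial weights -/
def W (k : ℕ) (a : ℝ) (z : E n) : ℝ≥0∞ := ENNReal.ofReal ((1 + (2 : ℝ) ^ k * ‖z‖) ^ a)

theorem W_add (k : ℕ) (a b : ℝ) (z : E n) : W k a z * W k b z = W k (a + b) z := by
  rw [W, W, W, ← ENNReal.ofReal_mul (Real.rpow_nonneg (br_pos k z).le _),
    Real.rpow_add (br_pos k z)]

theorem W_zero (k : ℕ) (z : E n) : W k 0 z = 1 := by simp [W]

theorem W_at_zero (k : ℕ) (a : ℝ) : W k a (0 : E n) = 1 := by simp [W]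

theorem W_rpow (k : ℕ) (a : ℝ) {r : ℝ} (hr : 0 ≤ r) (z : E n) : W k a z ^ r = W k (a * r) z := by
  rw [W, W, ENNReal.ofReal_rpow_of_nonneg (Real.rpow_nonneg (br_pos k z).le _) hr,
    ← Real.rpow_mul (br_pos k z).le]

theorem W_lt_top (k : ℕ) (a : ℝ) (z : E n) : W k a z < ∞ := ENNReal.ofReal_lt_top

theorem eta_eq (k : ℕ) (M : ℝ) (z : E n) :
    eta n k M z = ENNReal.ofReal ((2 : ℝ) ^ ((k : ℝ) * n)) * W k (-M) z := by
  rw [eta, W, ENNReal.ofReal_mul (by positivity)]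

theorem br_triangle (k : ℕ) (x z w : E n) :
    1 + (2 : ℝ) ^ k * ‖x - w‖ ≤ (1 + (2 : ℝ) ^ k * ‖x - z‖) * (1 + (2 : ℝ) ^ k * ‖z - w‖) := by
  have h : ‖x - w‖ ≤ ‖x - z‖ + ‖z - w‖ := norm_sub_le_norm_sub_add_norm_sub x z w
  have h1 : (0 : ℝ) < 2 ^ k := by positivity
  have h2 : 0 ≤ (2 : ℝ) ^ k * ‖x - z‖ * ((2 : ℝ) ^ k * ‖z - w‖) := by positivity
  nlinarith

theorem W_triangle (k : ℕ) {a : ℝ} (ha : 0 ≤ a) (x z w : E n) :
    W k a (x - w) ≤ W k a (x - z) * W k a (z - w) := by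
  rw [W, W, W, ← ENNReal.ofReal_mul (Real.rpow_nonneg (br_pos k _).le _),
    ← Real.mul_rpow (br_pos k _).le (br_pos k _).le]
  apply ENNReal.ofReal_le_ofReal
  exact Real.rpow_le_rpow (br_pos k _).le (br_triangle k x z w) ha

theorem W_neg_triangle (k : ℕ) {a : ℝ} (ha : 0 ≤ a) (x z w : E n) :
    W k (-a) (z - w) * W k (-a) (x - z) ≤ W k (-a) (x - w) := by
  have h1 := W_triangle k ha x z w
  calc W k (-a) (z - w) * W k (-a) (x - z)
      = W k (-a) (z - w) * W k (-a) (x - z) * (W k a (x - w) * W k (-a) (x - w)) := by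
        rw [W_add, add_neg_cancel, W_zero, mul_one]
    _ ≤ W k (-a) (z - w) * W k (-a) (x - z) *
        ((W k a (x - z) * W k a (z - w)) * W k (-a) (x - w)) := by gcongr
    _ = (W k (-a) (z - w) * W k a (z - w)) * (W k (-a) (x - z) * W k a (x - z)) *
        W k (-a) (x - w) := by ring
    _ = W k (-a) (x - w) := by
        rw [W_add, W_add, neg_add_cancel, W_zero, W_zero]; ring

theorem W_scale {k j : ℕ} (hkj : k ≤ j + 1) {a : ℝ} (ha : 0 ≤ a) (z : E n) :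
    W k a z ≤ ENNReal.ofReal (2 ^ a) * W j a z := by
  rw [W, W, ← ENNReal.ofReal_mul (by positivity)]
  apply ENNReal.ofReal_le_ofReal
  rw [← Real.mul_rpow (by norm_num) (br_pos j z).le]
  apply Real.rpow_le_rpow (br_pos k z).le _ ha
  have h1 : (2 : ℝ) ^ k ≤ 2 ^ (j + 1) := pow_le_pow_right₀ (by norm_num) hkj
  have h2 : (2 : ℝ) ^ (j + 1) = 2 * 2 ^ j := by rw [pow_succ]; ring
  have h3 := norm_nonneg z
  nlinarith [mul_le_mul_of_nonneg_right h1 h3]

/-- Peetre's maximal function -/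
def pmax (k : ℕ) (a : ℝ) (g : E n → ℝ≥0∞) (x : E n) : ℝ≥0∞ := ⨆ z, g z * W k (-a) (x - z)

theorem le_pmax (k : ℕ) (a : ℝ) (g : E n → ℝ≥0∞) (x w : E n) :
    g w ≤ pmax k a g x * W k a (x - w) := by
  have h : g w * W k (-a) (x - w) ≤ pmax k a g x := le_iSup (fun z => g z * W k (-a) (x - z)) w
  calc g w = g w * W k (-a) (x - w) * W k a (x - w) := by
        rw [mul_assoc, W_add, neg_add_cancel, W_zero, mul_one]
    _ ≤ _ := by gcongr

theorem le_pmax_self (k : ℕ) (a : ℝ) (g : E n → ℝ≥0∞) (x : E n) : g x ≤ pmax k a g x := by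
  have h := le_pmax k a g x x
  rwa [sub_self, W_at_zero, mul_one] at h

theorem pmax_ineq (k : ℕ) {a : ℝ} (ha : 0 ≤ a) {g : E n → ℝ≥0∞} (hg : Measurable g) {C : ℝ≥0}
    (h : ∀ z, g z ≤ C * avg k a g z) {r : ℝ} (hr : 0 < r) (hr1 : r ≤ 1) (x : E n) :
    pmax k a g x ≤ C * avg k (a * r) (fun y => g y ^ r) x * pmax k a g x ^ (1 - r) := by
  refine iSup_le fun z => ?_
  have hmeas : Measurable fun w => eta n k a (z - w) * g w :=
    ((measurable_eta k a).comp (measurable_const.sub measurable_id)).mul hg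
  calc g z * W k (-a) (x - z) ≤ C * avg k a g z * W k (-a) (x - z) := by gcongr; exact h z
    _ = C * (∫⁻ w, eta n k a (z - w) * g w * W k (-a) (x - z)) := by
        rw [lintegral_mul_const _ hmeas, mul_assoc]; rfl
    _ ≤ C * (∫⁻ w, eta n k (a * r) (x - w) * g w ^ r * pmax k a g x ^ (1 - r)) := by
        refine mul_le_mul_right (lintegral_mono fun w => ?_) _
        dsimp only
        have e1 : g w = g w ^ r * g w ^ (1 - r) := by
          rw [← ENNReal.rpow_add_of_nonneg _ _ hr.le (by linarith)]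
          simp
        have e2 : g w ^ (1 - r) ≤ pmax k a g x ^ (1 - r) * W k (a * (1 - r)) (x - w) := by
          calc g w ^ (1 - r) ≤ (pmax k a g x * W k a (x - w)) ^ (1 - r) :=
                ENNReal.rpow_le_rpow (le_pmax k a g x w) (by linarith)
            _ = _ := by
                rw [ENNReal.mul_rpow_of_nonneg _ _ (by linarith), W_rpow k a (by linarith)]
        calc eta n k a (z - w) * g w * W k (-a) (x - z)
            = ENNReal.ofReal ((2 : ℝ) ^ ((k : ℝ) * n)) * (W k (-a) (z - w) * W k (-a) (x - z)) *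
              (g w ^ r * g w ^ (1 - r)) := by rw [eta_eq, ← e1]; ring
          _ ≤ ENNReal.ofReal ((2 : ℝ) ^ ((k : ℝ) * n)) * W k (-a) (x - w) *
              (g w ^ r * (pmax k a g x ^ (1 - r) * W k (a * (1 - r)) (x - w))) := by
              gcongr
              exact W_neg_triangle k ha x z w
          _ = ENNReal.ofReal ((2 : ℝ) ^ ((k : ℝ) * n)) *
              (W k (-a) (x - w) * W k (a * (1 - r)) (x - w)) * g w ^ r *
              pmax k a g x ^ (1 - r) := by ring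
          _ = eta n k (a * r) (x - w) * g w ^ r * pmax k a g x ^ (1 - r) := by
              rw [W_add, eta_eq]
              congr 4
              ring
    _ = _ := by
        have hm2 : Measurable fun w => eta n k (a * r) (x - w) * g w ^ r :=
          ((measurable_eta k (a * r)).comp (measurable_const.sub measurable_id)).mul
            (hg.pow_const r)
        rw [lintegral_mul_const _ hm2, mul_assoc]
        rfl

theorem pmax_rpow_le (k : ℕ) {a : ℝ} (ha : 0 ≤ a) {g : E n → ℝ≥0∞} (hg : Measurable g) {C : ℝ≥0}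
    (h : ∀ z, g z ≤ C * avg k a g z) {r : ℝ} (hr : 0 < r) (hr1 : r ≤ 1) (x : E n)
    (hfin : pmax k a g x < ∞) :
    pmax k a g x ^ r ≤ C * avg k (a * r) (fun y => g y ^ r) x := by
  have h1 := pmax_ineq k ha hg h hr hr1 x
  by_cases h0 : pmax k a g x = 0
  · rw [h0, ENNReal.zero_rpow_of_pos hr]; exact zero_le
  · have e1 : pmax k a g x = pmax k a g x ^ r * pmax k a g x ^ (1 - r) := by
      rw [← ENNReal.rpow_add_of_nonneg _ _ hr.le (by linarith)]
      simp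
    have h2 : pmax k a g x ^ (1 - r) ≠ 0 := by
      intro h3
      rcases ENNReal.rpow_eq_zero_iff.mp h3 with h4 | h4
      · exact h0 h4.1
      · exact hfin.ne h4.1
    have h3 : pmax k a g x ^ (1 - r) ≠ ∞ := by
      intro h4
      rcases ENNReal.rpow_eq_top_iff.mp h4 with h5 | h5
      · exact h0 h5.1
      · exact hfin.ne h5.1
    have h5 : pmax k a g x ^ r * pmax k a g x ^ (1 - r) ≤
        C * avg k (a * r) (fun y => g y ^ r) x * pmax k a g x ^ (1 - r) := by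
      rw [← e1]; exact h1
    exact (ENNReal.mul_le_mul_iff_left h2 h3).mp h5

theorem avg_shift (k : ℕ) {M : ℝ} (hM : 0 ≤ M) {G : E n → ℝ≥0∞} (hG : Measurable G) (x z : E n) :
    avg k M G z ≤ W k M (x - z) * avg k M G x := by
  have hm : Measurable fun w => eta n k M (x - w) * G w :=
    ((measurable_eta k M).comp (measurable_const.sub measurable_id)).mul hG
  rw [avg_eq, avg_eq, ← lintegral_const_mul _ hm]
  refine lintegral_mono fun w => ?_
  dsimp only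
  rw [eta_eq, eta_eq]
  have h1 : W k (-M) (z - w) ≤ W k M (x - z) * W k (-M) (x - w) := by
    calc W k (-M) (z - w) = W k (-M) (z - w) * (W k (-M) (x - z) * W k M (x - z)) := by
          rw [W_add, neg_add_cancel, W_zero, mul_one]
      _ = W k M (x - z) * (W k (-M) (z - w) * W k (-M) (x - z)) := by ring
      _ ≤ _ := by gcongr; exact W_neg_triangle k hM x z w
  calc ENNReal.ofReal ((2 : ℝ) ^ ((k : ℝ) * n)) * W k (-M) (z - w) * G w
      ≤ ENNReal.ofReal ((2 : ℝ) ^ ((k : ℝ) * n)) * (W k M (x - z) * W k (-M) (x - w)) * G w := by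
        gcongr
    _ = _ := by ring

/-- The self-improving estimate. -/
theorem pmax_final (k : ℕ) {M r : ℝ} (hM : 0 ≤ M) (hr : 0 < r) (hr1 : r ≤ 1)
    {g : E n → ℝ≥0∞} (hg : Measurable g)
    (hrep : ∀ a : ℝ, 0 ≤ a → ∃ C : ℝ≥0, ∀ z, g z ≤ C * avg k a g z)
    (hgrow : ∃ (C : ℝ≥0) (K : ℕ), ∀ z, g z ≤ C * ENNReal.ofReal ((1 + ‖z‖) ^ K)) {C₀ : ℝ≥0}
    (hC₀ : ∀ z, g z ≤ C₀ * avg k (M / r) g z) (x : E n) :
    pmax k (M / r) g x ^ r ≤ (C₀ + 1 : ℝ≥0) * avg k M (fun y => g y ^ r) x := by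
  have hMr : 0 ≤ M / r := by positivity
  by_cases hA : avg k M (fun y => g y ^ r) x = ∞
  · rw [hA, ENNReal.mul_top (by simp)]
    exact le_top
  obtain ⟨CK, K, hK⟩ := hgrow
  set a1 : ℝ := max (M / r) K with ha1
  have ha1' : 0 ≤ a1 := hMr.trans (le_max_left _ _)
  obtain ⟨C1, hC1⟩ := hrep a1 ha1'
  -- finiteness with the large exponent
  have hfin1 : ∀ z, pmax k a1 g z < ∞ := by
    intro z
    have hb : pmax k a1 g z ≤ CK * ENNReal.ofReal ((1 + ‖z‖) ^ K) := by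
      refine iSup_le fun w => ?_
      calc g w * W k (-a1) (z - w) ≤
          (CK * ENNReal.ofReal ((1 + ‖w‖) ^ K)) * W k (-a1) (z - w) := by gcongr; exact hK w
        _ = CK * (ENNReal.ofReal ((1 + ‖w‖) ^ K) * W k (-a1) (z - w)) := by ring
        _ ≤ CK * ENNReal.ofReal ((1 + ‖z‖) ^ K) := by
            gcongr
            rw [W, ← ENNReal.ofReal_mul (by positivity)]
            apply ENNReal.ofReal_le_ofReal
            have hb0 := one_le_br k (z - w)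
            have e1 : (1 + (2 : ℝ) ^ k * ‖z - w‖) ^ (-a1) ≤
                (1 + (2 : ℝ) ^ k * ‖z - w‖) ^ (-(K : ℝ)) := by
              apply Real.rpow_le_rpow_of_exponent_le hb0
              have := le_max_right (M / r) (K : ℝ)
              linarith
            have e2 : 1 + ‖w‖ ≤ (1 + ‖z‖) * (1 + (2 : ℝ) ^ k * ‖z - w‖) := by
              have h1 : ‖w‖ ≤ ‖z‖ + ‖z - w‖ := by
                calc ‖w‖ = ‖z - (z - w)‖ := by rw [sub_sub_cancel]
                  _ ≤ _ := norm_sub_le _ _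
              have h2 : (1 : ℝ) ≤ 2 ^ k := one_le_pow₀ (by norm_num)
              have h3 := norm_nonneg z
              have h4 := norm_nonneg (z - w)
              have h5 : ‖z - w‖ ≤ 2 ^ k * ‖z - w‖ := by nlinarith
              nlinarith [mul_nonneg h3 (h4.trans h5)]
            calc (1 + ‖w‖) ^ K * (1 + (2 : ℝ) ^ k * ‖z - w‖) ^ (-a1)
                ≤ ((1 + ‖z‖) * (1 + (2 : ℝ) ^ k * ‖z - w‖)) ^ K *
                  (1 + (2 : ℝ) ^ k * ‖z - w‖) ^ (-(K : ℝ)) := by gcongr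
              _ = (1 + ‖z‖) ^ K := by
                  rw [mul_pow, Real.rpow_neg (br_pos k _).le, Real.rpow_natCast, mul_assoc,
                    mul_inv_cancel₀ (by have := br_pos k (z - w); positivity), mul_one]
    refine lt_of_le_of_lt hb ?_
    exact ENNReal.mul_lt_top ENNReal.coe_lt_top ENNReal.ofReal_lt_top
  -- pointwise bound
  have hpt : ∀ z, g z ^ r ≤ C1 * avg k M (fun y => g y ^ r) z := by
    intro z
    calc g z ^ r ≤ pmax k a1 g z ^ r := ENNReal.rpow_le_rpow (le_pmax_self k a1 g z) hr.le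
      _ ≤ C1 * avg k (a1 * r) (fun y => g y ^ r) z :=
          pmax_rpow_le k ha1' hg hC1 hr hr1 z (hfin1 z)
      _ ≤ C1 * avg k M (fun y => g y ^ r) z := by
          gcongr
          apply avg_antitone
          have h1 : M / r ≤ a1 := le_max_left _ _
          rwa [div_le_iff₀ hr] at h1
  have hgr : Measurable fun y => g y ^ r := hg.pow_const r
  have hfin : pmax k (M / r) g x < ∞ := by
    have hb : pmax k (M / r) g x ≤ (C1 * avg k M (fun y => g y ^ r) x) ^ (1 / r) := by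
      refine iSup_le fun z => ?_
      rw [one_div, ENNReal.le_rpow_inv_iff hr, ENNReal.mul_rpow_of_nonneg _ _ hr.le, W_rpow k _ hr.le]
      have e1 : -(M / r) * r = -M := by field_simp
      rw [e1]
      calc g z ^ r * W k (-M) (x - z) ≤
          (C1 * (W k M (x - z) * avg k M (fun y => g y ^ r) x)) * W k (-M) (x - z) := by
            gcongr
            exact (hpt z).trans (by gcongr; exact avg_shift k hM hgr x z)
        _ = C1 * avg k M (fun y => g y ^ r) x * (W k M (x - z) * W k (-M) (x - z)) := by ring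
        _ = C1 * avg k M (fun y => g y ^ r) x := by
            rw [W_add, add_neg_cancel, W_zero, mul_one]
    refine lt_of_le_of_lt hb ?_
    apply ENNReal.rpow_lt_top_of_nonneg (by positivity)
    exact ENNReal.mul_ne_top ENNReal.coe_ne_top hA
  have hlast := pmax_rpow_le k hMr hg hC₀ hr hr1 x hfin
  have e1 : M / r * r = M := by field_simp
  rw [e1] at hlast
  refine hlast.trans ?_
  gcongr
  simp

theorem rpow_sum_le {r : ℝ} (hr : 0 < r) (hr1 : r ≤ 1) (s : Finset ℕ) (a : ℕ → ℝ≥0∞) :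
    (∑ k ∈ s, a k) ^ r ≤ ∑ k ∈ s, a k ^ r := by
  induction s using Finset.induction_on with
  | empty => simp [ENNReal.zero_rpow_of_pos hr]
  | insert b s hb ih =>
    rw [Finset.sum_insert hb, Finset.sum_insert hb]
    exact (ENNReal.rpow_add_le_add_rpow _ _ hr.le hr1).trans (by gcongr)

end T5

open T5

variable {n : ℕ}

/-- T5: pointwise inequality for band limited pieces. -/
theorem t5_pointwise (hn : 0 < n) (ρ : ℝ) (hρ : 0 < ρ) (φ ψ : 𝓢(E n, ℂ)) (hφ : Admissible ρ φ)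
    (hψ : Admissible ρ ψ) (r : ℝ) (hr : 0 < r) (hr1 : r ≤ 1) (M : ℝ) (hM : 0 ≤ M) :
    ∃ C : ℝ≥0, ∀ (f : 𝓢'(E n, ℂ)) (j : ℕ) (x : E n),
      ‖piece (res φ j) f x‖ₑ ^ r ≤
        C * ∑ k ∈ Finset.Icc (j - 1) (j + 1), avg k M (fun y => ‖piece (res ψ k) f y‖ₑ ^ r) x := by
  have hMr : 0 ≤ M / r := by positivity
  set N : ℝ := (n + 1) + M / r with hN
  have hN0 : 0 ≤ N := by positivity
  obtain ⟨C1, hC1⟩ := res_bound φ hN0
  -- reproducing constants for `ψ`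
  have hrep : ∀ a : ℝ, 0 ≤ a → ∃ C : ℝ≥0, ∀ (f : 𝓢'(E n, ℂ)) (k : ℕ) (z : E n),
      ‖piece (res ψ k) f z‖ₑ ≤ C * avg k a (fun y => ‖piece (res ψ k) f y‖ₑ) z := by
    intro a ha
    obtain ⟨C, hC⟩ := dil_bound ψ a
    refine ⟨C * Real.toNNReal (2 ^ n), fun f k z => ?_⟩
    have h1 : ∀ z, ‖(𝓕⁻ (dil ψ (k + 1)) : 𝓢(E n, ℂ)) z‖ₑ ≤
        (C * Real.toNNReal (2 ^ n) : ℝ≥0) * eta n k a z := by
      intro z
      refine (hC (k + 1) z).trans ?_
      calc (C : ℝ≥0∞) * eta n (k + 1) a z ≤ C * (ENNReal.ofReal (2 ^ n) * eta n k a z) := by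
            gcongr; exact eta_succ_le k ha z
        _ = _ := by
            rw [ENNReal.ofReal]; push_cast; ring
    have h2 := piece_le (θ := res ψ k) h1 f z
    rwa [← res_repro hρ hψ hψ k] at h2
  obtain ⟨C0, hC0⟩ := hrep (M / r) hMr
  -- the integral constant
  have hcM : cM n ((n : ℝ) + 1) < ∞ := cM_lt_top (by linarith)
  set C2 : ℝ≥0∞ := C1 * (ENNReal.ofReal (2 ^ (M / r)) * cM n ((n : ℝ) + 1)) with hC2
  have hC2t : C2 ≠ ∞ := ENNReal.mul_ne_top ENNReal.coe_ne_top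
    (ENNReal.mul_ne_top ENNReal.ofReal_ne_top hcM.ne)
  have hC2r : C2 ^ r * ((C0 + 1 : ℝ≥0) : ℝ≥0∞) ≠ ∞ :=
    ENNReal.mul_ne_top (ENNReal.rpow_ne_top_of_nonneg hr.le hC2t) ENNReal.coe_ne_top
  refine ⟨(C2 ^ r * ((C0 + 1 : ℝ≥0) : ℝ≥0∞)).toNNReal, fun f j x => ?_⟩
  rw [ENNReal.coe_toNNReal hC2r]
  set g : ℕ → E n → ℝ≥0∞ := fun k y => ‖piece (res ψ k) f y‖ₑ with hg
  have hgm : ∀ k, Measurable (g k) := fun k => (t4_continuous (res ψ k) f).measurable.enorm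
  have hbound : ‖piece (res φ j) f x‖ₑ ≤
      ∑ k ∈ Finset.Icc (j - 1) (j + 1), C2 * pmax k (M / r) (g k) x := by
    have e1 : piece (res φ j) f x =
        ∑ k ∈ Finset.Icc (j - 1) (j + 1), piece (smulLeftCLM ℂ (res φ j) (res ψ k)) f x := by
      conv_lhs => rw [res_decomp hρ hφ hψ j]
      exact piece_sum _ _ f x
    rw [e1]
    refine (enorm_sum_le _ _).trans ?_
    refine Finset.sum_le_sum fun k hk => ?_
    have hk' : k ≤ j + 1 := (Finset.mem_Icc.mp hk).2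
    refine (piece_le (hC1 j) f x).trans ?_
    have e2 : avg j N (g k) x ≤ ENNReal.ofReal (2 ^ (M / r)) * cM n ((n : ℝ) + 1) *
        pmax k (M / r) (g k) x := by
      rw [avg_eq]
      calc ∫⁻ y, eta n j N (x - y) * g k y
          ≤ ∫⁻ y, (ENNReal.ofReal (2 ^ (M / r)) * pmax k (M / r) (g k) x) *
            eta n j ((n : ℝ) + 1) (x - y) := by
            refine lintegral_mono fun y => ?_
            dsimp only
            calc eta n j N (x - y) * g k y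
                ≤ eta n j N (x - y) * (pmax k (M / r) (g k) x * W k (M / r) (x - y)) := by
                  gcongr; exact le_pmax k (M / r) (g k) x y
              _ ≤ eta n j N (x - y) * (pmax k (M / r) (g k) x *
                  (ENNReal.ofReal (2 ^ (M / r)) * W j (M / r) (x - y))) := by
                  gcongr; exact W_scale hk' hMr (x - y)
              _ = (ENNReal.ofReal (2 ^ (M / r)) * pmax k (M / r) (g k) x) *
                  (eta n j ((n + 1) + M / r) (x - y) *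
                    ENNReal.ofReal ((1 + (2 : ℝ) ^ j * ‖x - y‖) ^ (M / r))) := by
                  rw [hN, W]; ring
              _ = _ := by rw [eta_mul_br]
        _ = _ := by
            rw [lintegral_const_mul, lintegral_eta_sub]
            · ring
            · exact (measurable_eta j _).comp (measurable_const.sub measurable_id)
    calc (C1 : ℝ≥0∞) * avg j N (g k) x ≤ C1 * (ENNReal.ofReal (2 ^ (M / r)) *
          cM n ((n : ℝ) + 1) * pmax k (M / r) (g k) x) := by gcongr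
      _ = C2 * pmax k (M / r) (g k) x := by rw [hC2]; ring
  have hpm : ∀ k, pmax k (M / r) (g k) x ^ r ≤
      (C0 + 1 : ℝ≥0) * avg k M (fun y => g k y ^ r) x := by
    intro k
    refine pmax_final k hM hr hr1 (hgm k) ?_ ?_ (fun z => hC0 f k z) x
    · intro a ha
      obtain ⟨C, hC⟩ := hrep a ha
      exact ⟨C, fun z => hC f k z⟩
    · obtain ⟨C, K, hC⟩ := t4_growth (res ψ k) f
      refine ⟨Real.toNNReal C, K, fun z => ?_⟩
      have h1 := hC z
      have hCn : 0 ≤ C := by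
        have h2 := (norm_nonneg _).trans (hC 0)
        simpa using h2
      simp only [hg]
      rw [← ofReal_norm]
      have h2 : ((Real.toNNReal C : ℝ≥0) : ℝ≥0∞) = ENNReal.ofReal C := rfl
      rw [h2, ← ENNReal.ofReal_mul hCn]
      exact ENNReal.ofReal_le_ofReal h1
  calc ‖piece (res φ j) f x‖ₑ ^ r
      ≤ (∑ k ∈ Finset.Icc (j - 1) (j + 1), C2 * pmax k (M / r) (g k) x) ^ r :=
        ENNReal.rpow_le_rpow hbound hr.le
    _ ≤ ∑ k ∈ Finset.Icc (j - 1) (j + 1), (C2 * pmax k (M / r) (g k) x) ^ r :=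
        rpow_sum_le hr hr1 _ _
    _ ≤ ∑ k ∈ Finset.Icc (j - 1) (j + 1),
        C2 ^ r * (((C0 + 1 : ℝ≥0) : ℝ≥0∞) * avg k M (fun y => g k y ^ r) x) := by
        refine Finset.sum_le_sum fun k _ => ?_
        rw [ENNReal.mul_rpow_of_nonneg _ _ hr.le]
        gcongr
        exact hpm k
    _ = _ := by
        rw [Finset.mul_sum]
        refine Finset.sum_congr rfl fun k _ => ?_
        ring

end Pool.Agent.Lib.MP_2116eb_an
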