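import Pool.Agent.Lib.MP_2116eb_an.T4

/-!
# The final assembly

Independence of the resolution of unity from the vector-valued inequality `t3_vector`, the
continuity of the pieces and the pointwise inequality `t5_pointwise`.
-/

set_option autoImplicit false

open MeasureTheory SchwartzMap FourierTransform
open scoped ENNReal NNReal

noncomputable section

namespace Pool.Agent.Lib.MP_2116eb_an

namespace T6

variable {n : ℕ}

/-! ### Log-Hoelder functions -/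

lemma one_le_log (t : ℝ) (ht : 0 ≤ t) : 1 ≤ Real.log (Real.exp 1 + t) := by
  have h1 : Real.exp 1 ≤ Real.exp 1 + t := by linarith
  have h2 := Real.log_le_log (Real.exp_pos 1) h1
  rwa [Real.log_exp] at h2

/-- Lemma L. -/
lemma lemmaL {g : E n → ℝ} (hg : LogLoc g) : ∃ c : ℝ, 0 ≤ c ∧ (∀ x y, |g x - g y| ≤ c) ∧
    ∀ (j : ℕ) (x y : E n), (2 : ℝ) ^ ((j : ℝ) * |g x - g y|) ≤
      Real.exp c * (1 + (2 : ℝ) ^ j * ‖x - y‖) ^ c := by
  obtain ⟨-, C, hC⟩ := hg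
  have hC' : ∀ x y, |g x - g y| ≤ |C| / Real.log (Real.exp 1 + 1 / ‖x - y‖) := by
    intro x y
    have h1 := one_le_log (1 / ‖x - y‖) (by positivity)
    refine (hC x y).trans ?_
    gcongr
    exact le_abs_self C
  have hd : ∀ x y, |g x - g y| ≤ |C| := by
    intro x y
    have h1 := one_le_log (1 / ‖x - y‖) (by positivity)
    exact (hC' x y).trans (div_le_self (abs_nonneg C) h1)
  refine ⟨|C|, abs_nonneg C, hd, fun j x y => ?_⟩
  set d := |g x - g y| with hdd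
  set δ := ‖x - y‖ with hδ
  have hd0 : 0 ≤ d := abs_nonneg _
  have hδ0 : 0 ≤ δ := norm_nonneg _
  rcases hδ0.eq_or_lt with h0 | h0
  · have hxy : x = y := by
      rw [hδ] at h0
      exact sub_eq_zero.1 (norm_eq_zero.1 h0.symm)
    have hd1 : d = 0 := by rw [hdd, hxy]; simp
    rw [hd1, ← h0]
    simp only [mul_zero, Real.rpow_zero, add_zero, Real.one_rpow, mul_one]
    exact Real.one_le_exp (abs_nonneg C)
  · have h1 := one_le_log (1 / δ) (by positivity)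
    have h2 : d * Real.log (Real.exp 1 + 1 / δ) ≤ |C| := by
      have := hC' x y
      rwa [le_div_iff₀ (by linarith)] at this
    have h3 : (j : ℝ) * Real.log 2 ≤ Real.log (1 + 2 ^ j * δ) + Real.log (Real.exp 1 + 1 / δ) := by
      have h4 : (j : ℝ) * Real.log 2 = Real.log (2 ^ j * δ) + Real.log (1 / δ) := by
        rw [← Real.log_mul (by positivity) (by positivity), mul_assoc, mul_one_div,
          div_self h0.ne', mul_one, Real.log_pow]
      rw [h4]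
      have h5 : Real.log (2 ^ j * δ) ≤ Real.log (1 + 2 ^ j * δ) :=
        Real.log_le_log (by positivity) (by linarith)
      have h6 : Real.log (1 / δ) ≤ Real.log (Real.exp 1 + 1 / δ) :=
        Real.log_le_log (by positivity) (by linarith [Real.exp_pos 1])
      linarith
    have h7 : 0 ≤ Real.log (1 + 2 ^ j * δ) := Real.log_nonneg (by
      have : (0 : ℝ) ≤ 2 ^ j * δ := by positivity
      linarith)
    have h8 : (j : ℝ) * Real.log 2 * d ≤ |C| + |C| * Real.log (1 + 2 ^ j * δ) := by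
      calc (j : ℝ) * Real.log 2 * d
          ≤ (Real.log (1 + 2 ^ j * δ) + Real.log (Real.exp 1 + 1 / δ)) * d := by gcongr
        _ = d * Real.log (Real.exp 1 + 1 / δ) + d * Real.log (1 + 2 ^ j * δ) := by ring
        _ ≤ |C| + |C| * Real.log (1 + 2 ^ j * δ) := by
            gcongr
            exact hd x y
    have h9 : (0 : ℝ) < 1 + 2 ^ j * δ := by positivity
    rw [Real.rpow_def_of_pos (by norm_num : (0 : ℝ) < 2), Real.rpow_def_of_pos h9, ← Real.exp_add]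
    apply Real.exp_le_exp.2
    linarith

lemma bounded_of_logLoc {g : E n → ℝ} (hg : LogLoc g) : ∃ S : ℝ, 0 ≤ S ∧ ∀ x, |g x| ≤ S := by
  obtain ⟨c, hc, h, -⟩ := lemmaL hg
  refine ⟨|g 0| + c, by positivity, fun x => ?_⟩
  have h1 := h x 0
  have h2 : |g x| ≤ |g x - g 0| + |g 0| := by
    calc |g x| = |(g x - g 0) + g 0| := by ring_nf
      _ ≤ _ := abs_add_le _ _
  linarith

lemma logLoc_const_mul {g : E n → ℝ} (hg : LogLoc g) (r : ℝ) : LogLoc fun x => r * g x := by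
  obtain ⟨h1, C, hC⟩ := hg
  refine ⟨continuous_const.mul h1, |r| * C, fun x y => ?_⟩
  rw [← mul_sub, abs_mul, mul_div_assoc]
  gcongr
  exact hC x y

/-! ### The sequence spaces -/

lemma lqNorm_mono (q : ℝ≥0∞) {a b : ℕ → ℝ≥0∞} (h : ∀ j, a j ≤ b j) : lqNorm q a ≤ lqNorm q b := by
  unfold lqNorm
  split_ifs
  · exact iSup_mono h
  · have h0 : 0 ≤ q.toReal := ENNReal.toReal_nonneg
    exact ENNReal.rpow_le_rpow (ENNReal.tsum_le_tsum fun j => ENNReal.rpow_le_rpow (h j) h0)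
      (by positivity)

lemma lqNorm_const_mul {q : ℝ≥0∞} (hq : q ≠ 0) (c : ℝ≥0∞) (a : ℕ → ℝ≥0∞) :
    lqNorm q (fun j => c * a j) = c * lqNorm q a := by
  unfold lqNorm
  split_ifs with h
  · rw [ENNReal.mul_iSup]
  · have h0 : 0 < q.toReal := ENNReal.toReal_pos hq h
    simp_rw [ENNReal.mul_rpow_of_nonneg _ _ h0.le]
    rw [ENNReal.tsum_mul_left, ENNReal.mul_rpow_of_nonneg _ _ (by positivity), ← ENNReal.rpow_mul,
      mul_one_div, div_self h0.ne', ENNReal.rpow_one]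

lemma lqNorm_rpow {q : ℝ≥0∞} (hq : q ≠ 0) {r : ℝ} (hr : 0 < r) (a : ℕ → ℝ≥0∞) :
    lqNorm (q / ENNReal.ofReal r) (fun j => a j ^ r) = lqNorm q a ^ r := by
  have hr0 : ENNReal.ofReal r ≠ 0 := by simpa using hr
  unfold lqNorm
  by_cases h : q = ∞
  · subst h
    rw [if_pos (by rw [ENNReal.top_div_of_ne_top ENNReal.ofReal_ne_top]), if_pos rfl]
    exact ((ENNReal.orderIsoRpow r hr).map_iSup a).symm
  · have h1 : q / ENNReal.ofReal r ≠ ∞ := ENNReal.div_ne_top h hr0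
    rw [if_neg h1, if_neg h, ENNReal.toReal_div, ENNReal.toReal_ofReal hr.le]
    have h0 : 0 < q.toReal := ENNReal.toReal_pos hq h
    simp_rw [← ENNReal.rpow_mul]
    congr 1
    · congr 1
      funext j
      congr 1
      field_simp
    · field_simp

lemma sum_three_le (A : ℕ → ℝ≥0∞) (j : ℕ) :
    ∑ k ∈ Finset.Icc (j - 1) (j + 1), A k ≤ A (j - 1) + A j + A (j + 1) := by
  have h1 : Finset.Icc (j - 1) (j + 1) ⊆ {j - 1, j, j + 1} := by
    intro k hk
    rw [Finset.mem_Icc] at hk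
    simp only [Finset.mem_insert, Finset.mem_singleton]
    omega
  refine (Finset.sum_le_sum_of_subset h1).trans ?_
  have h2 : ∀ (a b c : ℕ), ∑ k ∈ ({a, b, c} : Finset ℕ), A k ≤ A a + A b + A c := by
    intro a b c
    have h3 : ∀ (s : Finset ℕ) (a : ℕ), ∑ k ∈ insert a s, A k ≤ A a + ∑ k ∈ s, A k := by
      intro s a
      by_cases ha : a ∈ s
      · rw [Finset.insert_eq_of_mem ha]; exact le_add_self
      · rw [Finset.sum_insert ha]
    calc _ ≤ A a + ∑ k ∈ ({b, c} : Finset ℕ), A k := h3 _ _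
      _ ≤ A a + (A b + ∑ k ∈ ({c} : Finset ℕ), A k) := by gcongr; exact h3 _ _
      _ = A a + A b + A c := by rw [Finset.sum_singleton, add_assoc]
  exact h2 _ _ _

lemma lqNorm_three {Q : ℝ≥0∞} (hQ : 1 ≤ Q) (A : ℕ → ℝ≥0∞) :
    lqNorm Q (fun j => ∑ k ∈ Finset.Icc (j - 1) (j + 1), A k) ≤ 12 * lqNorm Q A := by
  unfold lqNorm
  split_ifs with h
  · apply iSup_le
    intro j
    refine (sum_three_le A j).trans ?_
    have h1 : ∀ k, A k ≤ ⨆ j, A j := fun k => le_iSup A k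
    calc A (j - 1) + A j + A (j + 1) ≤ (⨆ j, A j) + (⨆ j, A j) + (⨆ j, A j) := by
          gcongr <;> exact h1 _
      _ = 3 * ⨆ j, A j := by ring
      _ ≤ 12 * ⨆ j, A j := by gcongr; norm_num
  · set t := Q.toReal with ht
    have ht1 : 1 ≤ t := by
      rw [ht, ← ENNReal.toReal_one]
      exact ENNReal.toReal_mono h hQ
    have ht0 : 0 < t := by linarith
    have h1 : ∀ j, (∑ k ∈ Finset.Icc (j - 1) (j + 1), A k) ^ t ≤
        3 ^ t * (A (j - 1) ^ t + A j ^ t + A (j + 1) ^ t) := by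
      intro j
      have h2 : A (j - 1) + A j + A (j + 1) ≤ 3 * (A (j - 1) ⊔ A j ⊔ A (j + 1)) := by
        calc A (j - 1) + A j + A (j + 1) ≤ (A (j - 1) ⊔ A j ⊔ A (j + 1)) +
              (A (j - 1) ⊔ A j ⊔ A (j + 1)) + (A (j - 1) ⊔ A j ⊔ A (j + 1)) := by
              gcongr
              · exact le_sup_of_le_left le_sup_left
              · exact le_sup_of_le_left le_sup_right
              · exact le_sup_right
          _ = _ := by ring
      have h3 : (A (j - 1) ⊔ A j ⊔ A (j + 1)) ^ t ≤ A (j - 1) ^ t + A j ^ t + A (j + 1) ^ t := by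
        rcases le_total (A (j - 1) ⊔ A j) (A (j + 1)) with h4 | h4
        · rw [sup_eq_right.2 h4]
          exact le_add_self
        · rw [sup_eq_left.2 h4]
          rcases le_total (A (j - 1)) (A j) with h5 | h5
          · rw [sup_eq_right.2 h5]
            exact le_add_right le_add_self
          · rw [sup_eq_left.2 h5]
            exact le_add_right le_self_add
      calc (∑ k ∈ Finset.Icc (j - 1) (j + 1), A k) ^ t
          ≤ (3 * (A (j - 1) ⊔ A j ⊔ A (j + 1))) ^ t :=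
            ENNReal.rpow_le_rpow ((sum_three_le A j).trans h2) ht0.le
        _ = 3 ^ t * (A (j - 1) ⊔ A j ⊔ A (j + 1)) ^ t := ENNReal.mul_rpow_of_nonneg _ _ ht0.le
        _ ≤ _ := by gcongr
    have h4 : ∑' j, A (j - 1) ^ t ≤ 2 * ∑' j, A j ^ t := by
      rw [tsum_eq_zero_add' ENNReal.summable]
      simp only [Nat.zero_sub, Nat.add_sub_cancel]
      rw [two_mul]
      gcongr
      exact ENNReal.le_tsum 0
    have h5 : ∑' j, A (j + 1) ^ t ≤ ∑' j, A j ^ t :=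
      ENNReal.tsum_comp_le_tsum_of_injective (add_left_injective 1) (fun j => A j ^ t)
    have h6 : ∑' j, (∑ k ∈ Finset.Icc (j - 1) (j + 1), A k) ^ t ≤ 12 ^ t * ∑' j, A j ^ t := by
      calc ∑' j, (∑ k ∈ Finset.Icc (j - 1) (j + 1), A k) ^ t
          ≤ ∑' j, 3 ^ t * (A (j - 1) ^ t + A j ^ t + A (j + 1) ^ t) := ENNReal.tsum_le_tsum h1
        _ = 3 ^ t * (∑' j, A (j - 1) ^ t + ∑' j, A j ^ t + ∑' j, A (j + 1) ^ t) := by
            rw [ENNReal.tsum_mul_left, ENNReal.tsum_add, ENNReal.tsum_add]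
        _ ≤ 3 ^ t * (2 * ∑' j, A j ^ t + ∑' j, A j ^ t + ∑' j, A j ^ t) := by gcongr
        _ = 3 ^ t * 4 ^ (1 : ℝ) * ∑' j, A j ^ t := by rw [ENNReal.rpow_one]; ring
        _ ≤ 3 ^ t * 4 ^ t * ∑' j, A j ^ t := by
            gcongr
            exact (by norm_num : (1 : ℝ≥0∞) ≤ 4)
        _ = 12 ^ t * ∑' j, A j ^ t := by
            rw [← ENNReal.mul_rpow_of_nonneg _ _ ht0.le]
            norm_num
    calc (∑' j, (∑ k ∈ Finset.Icc (j - 1) (j + 1), A k) ^ t) ^ (1 / t)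
        ≤ (12 ^ t * ∑' j, A j ^ t) ^ (1 / t) := ENNReal.rpow_le_rpow h6 (by positivity)
      _ = 12 * (∑' j, A j ^ t) ^ (1 / t) := by
          rw [ENNReal.mul_rpow_of_nonneg _ _ (by positivity), ← ENNReal.rpow_mul, mul_one_div,
            div_self ht0.ne', ENNReal.rpow_one]

/-! ### The exponent `p` -/

/-- The exponent `p` is bounded below and above. -/
lemma exponent_bounds (p : E n → ℝ≥0∞) (hp : PLog p) (hp' : essSup p volume < ∞) :
    ∃ c b : ℝ, 0 < c ∧ 0 < b ∧ (∀ x, ENNReal.ofReal c ≤ p x) ∧ (∀ x, p x ≤ ENNReal.ofReal b) := by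
  obtain ⟨hpm, ⟨c, hc, hcp⟩, ⟨hκc, -⟩, -⟩ := hp
  set b := (essSup p volume).toReal with hb
  have hb' : essSup p volume = ENNReal.ofReal b := (ENNReal.ofReal_toReal hp'.ne).symm
  have hae : ∀ᵐ x, p x ≤ ENNReal.ofReal b := by
    rw [← hb']
    exact ENNReal.ae_le_essSup p
  have hb0 : 0 < b := by
    obtain ⟨x, hx⟩ := hae.exists
    have h1 : (0 : ℝ≥0∞) < ENNReal.ofReal b := lt_of_le_of_lt (zero_le) ((hcp x).trans_le hx)
    exact ENNReal.ofReal_pos.1 h1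
  refine ⟨c, b, hc, hb0, fun x => ?_, ?_⟩
  · rw [ENNReal.ofReal_coe_nnreal]; exact (hcp x).le
  -- the set where `1 / p < 1 / b` is open and null
  have hopen : IsOpen {x | ((p x)⁻¹).toReal < b⁻¹} := isOpen_lt hκc continuous_const
  have hpx : ∀ x, p x ≤ ENNReal.ofReal b ↔ ¬ ((p x)⁻¹).toReal < b⁻¹ := by
    intro x
    have h0 : (p x)⁻¹ ≠ ∞ := by
      rw [ENNReal.inv_ne_top]
      exact (lt_of_le_of_lt (zero_le) (hcp x)).ne'
    rw [not_lt, ← ENNReal.inv_le_inv, ← ENNReal.ofReal_inv_of_pos hb0, ENNReal.ofReal_le_iff_le_toReal h0]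
  have hnull : volume {x | ((p x)⁻¹).toReal < b⁻¹} = 0 := by
    have : {x | ((p x)⁻¹).toReal < b⁻¹} = {x | ¬ p x ≤ ENNReal.ofReal b} := by
      ext x
      simp only [Set.mem_ofPred_eq, hpx x, not_not]
    rw [this]
    exact hae
  have hempty : {x | ((p x)⁻¹).toReal < b⁻¹} = ∅ := hopen.eq_empty_of_measure_zero hnull
  intro x
  rw [hpx x]
  intro h
  have : x ∈ {x | ((p x)⁻¹).toReal < b⁻¹} := h
  rw [hempty] at this
  exact this

/-- The exponent `p` itself is globally log-Hoelder. -/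
lemma logGlob_exponent (hn : 0 < n) (p : E n → ℝ≥0∞) (hp : LogGlob fun x => ((p x)⁻¹).toReal)
    (c b : ℝ) (hc : 0 < c) (hb : 0 < b) (hcp : ∀ x, ENNReal.ofReal c ≤ p x)
    (hpb : ∀ x, p x ≤ ENNReal.ofReal b) (r : ℝ) (hr : 0 < r) :
    LogGlob fun x => (p x).toReal / r := by
  have hne : ∀ x, p x ≠ ∞ := fun x => ne_top_of_le_ne_top ENNReal.ofReal_ne_top (hpb x)
  have hreal : ∀ x, c ≤ (p x).toReal ∧ (p x).toReal ≤ b := by
    intro x
    constructor
    · exact (ENNReal.ofReal_le_iff_le_toReal (hne x)).1 (hcp x)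
    · exact ENNReal.toReal_le_of_le_ofReal hb.le (hpb x)
  have hpos : ∀ x, 0 < (p x).toReal := fun x => hc.trans_le (hreal x).1
  obtain ⟨⟨hκc, C, hC⟩, κ', C', hC'⟩ := hp
  simp only [ENNReal.toReal_inv] at hκc hC hC'
  have hinv : ∀ x, b⁻¹ ≤ ((p x).toReal)⁻¹ := fun x => inv_anti₀ (hpos x) (hreal x).2
  -- the limit is positive
  have hκ' : b⁻¹ ≤ κ' := by
    obtain ⟨i⟩ : Nonempty (Fin n) := ⟨⟨0, hn⟩⟩
    have hlim : Filter.Tendsto (fun m : ℕ => b⁻¹ - C' / Real.log (Real.exp 1 + m)) Filter.atTop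
        (nhds (b⁻¹ - 0)) := by
      apply Filter.Tendsto.sub tendsto_const_nhds
      apply Filter.Tendsto.div_atTop tendsto_const_nhds
      apply Real.tendsto_log_atTop.comp
      exact Filter.tendsto_atTop_add_const_left _ _ tendsto_natCast_atTop_atTop
    rw [sub_zero] at hlim
    apply le_of_tendsto hlim
    filter_upwards with m
    have h1 := hC' (EuclideanSpace.single i (m : ℝ))
    rw [PiLp.norm_single, Real.norm_of_nonneg (by positivity)] at h1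
    have h2 := (abs_le.1 h1).2
    have h3 := hinv (EuclideanSpace.single i (m : ℝ))
    linarith
  have hκ'0 : 0 < κ' := lt_of_lt_of_le (inv_pos.2 hb) hκ'
  refine ⟨⟨?_, b * b / r * C, ?_⟩, κ'⁻¹ / r, b * b / r * C', ?_⟩
  · have : (fun x => (p x).toReal / r) = fun x => (((p x).toReal)⁻¹)⁻¹ / r := by
      funext x
      rw [inv_inv]
    rw [this]
    exact (hκc.inv₀ fun x => (inv_pos.2 (hpos x)).ne').div_const _
  · intro x y
    have h1 : (p x).toReal / r - (p y).toReal / r =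
        ((p x).toReal * (p y).toReal / r) * -(((p x).toReal)⁻¹ - ((p y).toReal)⁻¹) := by
      have := (hpos x).ne'
      have := (hpos y).ne'
      field_simp
      ring
    have h2 := hpos x
    have h3 := hpos y
    rw [h1, abs_mul, abs_neg, abs_of_nonneg (by positivity), mul_div_assoc (b * b / r) C]
    apply mul_le_mul _ (hC x y) (abs_nonneg _) (by positivity)
    gcongr
    · exact (hreal x).2
    · exact (hreal y).2
  · intro x
    have h1 : (p x).toReal / r - κ'⁻¹ / r =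
        ((p x).toReal * κ'⁻¹ / r) * -(((p x).toReal)⁻¹ - κ') := by
      have := (hpos x).ne'
      field_simp
      ring
    have h2 := hpos x
    have h4 : κ'⁻¹ ≤ b := by
      rw [inv_le_comm₀ hκ'0 hb]
      exact hκ'
    rw [h1, abs_mul, abs_neg, abs_of_nonneg (by positivity), mul_div_assoc (b * b / r) C']
    apply mul_le_mul _ (hC' x) (abs_nonneg _) (by positivity)
    gcongr
    exact (hreal x).2

lemma modular_eq (p : E n → ℝ≥0∞) (hp : ∀ x, p x ≠ ∞) (F : E n → ℝ≥0∞) :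
    modular p F = ∫⁻ x, F x ^ (p x).toReal := by
  have h1 : {x | p x < ∞} = Set.univ := by
    ext x
    simp [lt_top_iff_ne_top, hp x]
  have h2 : {x | p x = ∞} = ∅ := by
    ext x
    simp [hp x]
  unfold modular
  rw [h1, h2]
  simp

/-- The weights: moving `2 ^ (j s)` under the average. -/
lemma weight_ineq (s : E n → ℝ) (cs S : ℝ)
    (hL : ∀ (j : ℕ) (x y : E n), (2 : ℝ) ^ ((j : ℝ) * |s x - s y|) ≤
      Real.exp cs * (1 + (2 : ℝ) ^ j * ‖x - y‖) ^ cs)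
    (hS : ∀ x, |s x| ≤ S) (r : ℝ) (hr : 0 < r) (M : ℝ) (j k : ℕ) (hjk : k ∈ Finset.Icc (j - 1) (j + 1))
    (x y : E n) :
    ((2 : ℝ) ^ ((j : ℝ) * s x)) ^ r * (1 + (2 : ℝ) ^ k * ‖x - y‖) ^ (-(M + r * cs)) ≤
      ((2 : ℝ) ^ S * Real.exp cs) ^ r * ((1 + (2 : ℝ) ^ k * ‖x - y‖) ^ (-M) *
        ((2 : ℝ) ^ ((k : ℝ) * s y)) ^ r) := by
  set w := 1 + (2 : ℝ) ^ k * ‖x - y‖ with hw
  have hw0 : 0 < w := by positivity
  have hjk' : |(j : ℝ) - k| ≤ 1 := by
    rw [Finset.mem_Icc] at hjk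
    have h1 : (k : ℝ) ≤ j + 1 := by exact_mod_cast hjk.2
    have h2 : (j : ℝ) ≤ k + 1 := by
      have : j ≤ k + 1 := by omega
      exact_mod_cast this
    rw [abs_le]
    constructor <;> linarith
  have h1 : (2 : ℝ) ^ ((j : ℝ) * s x) ≤ (2 : ℝ) ^ S * Real.exp cs * w ^ cs * (2 : ℝ) ^ ((k : ℝ) * s y) := by
    have h2 : (j : ℝ) * s x = ((j : ℝ) - k) * s x + (k : ℝ) * (s x - s y) + (k : ℝ) * s y := by ring
    have h3 : ((j : ℝ) - k) * s x ≤ S := by
      calc ((j : ℝ) - k) * s x ≤ |((j : ℝ) - k) * s x| := le_abs_self _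
        _ = |(j : ℝ) - k| * |s x| := abs_mul _ _
        _ ≤ 1 * S := mul_le_mul hjk' (hS x) (abs_nonneg _) zero_le_one
        _ = S := one_mul _
    have h4 : (k : ℝ) * (s x - s y) ≤ (k : ℝ) * |s x - s y| := by
      gcongr
      exact le_abs_self _
    rw [h2, Real.rpow_add (by norm_num), Real.rpow_add (by norm_num)]
    have h5 : (2 : ℝ) ^ (((j : ℝ) - k) * s x) ≤ (2 : ℝ) ^ S :=
      Real.rpow_le_rpow_of_exponent_le (by norm_num) h3
    have h6 : (2 : ℝ) ^ ((k : ℝ) * (s x - s y)) ≤ Real.exp cs * w ^ cs :=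
      (Real.rpow_le_rpow_of_exponent_le (by norm_num) h4).trans (hL k x y)
    calc (2 : ℝ) ^ (((j : ℝ) - k) * s x) * (2 : ℝ) ^ ((k : ℝ) * (s x - s y)) *
          (2 : ℝ) ^ ((k : ℝ) * s y)
        ≤ (2 : ℝ) ^ S * (Real.exp cs * w ^ cs) * (2 : ℝ) ^ ((k : ℝ) * s y) := by gcongr
      _ = _ := by ring
  calc ((2 : ℝ) ^ ((j : ℝ) * s x)) ^ r * w ^ (-(M + r * cs))
      ≤ ((2 : ℝ) ^ S * Real.exp cs * w ^ cs * (2 : ℝ) ^ ((k : ℝ) * s y)) ^ r *
          w ^ (-(M + r * cs)) := by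
        gcongr
    _ = ((2 : ℝ) ^ S * Real.exp cs) ^ r * (w ^ (-M) * ((2 : ℝ) ^ ((k : ℝ) * s y)) ^ r) := by
        rw [Real.mul_rpow (by positivity) (by positivity), Real.mul_rpow (by positivity) (by positivity),
          ← Real.rpow_mul hw0.le]
        have h7 : w ^ (cs * r) * w ^ (-(M + r * cs)) = w ^ (-M) := by
          rw [← Real.rpow_add hw0]
          congr 1
          ring
        rw [← h7]
        ring

/-- Moving the weight `2 ^ (j s)` under the average. -/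
lemma avg_weight (s : E n → ℝ) (cs S : ℝ)
    (hL : ∀ (j : ℕ) (x y : E n), (2 : ℝ) ^ ((j : ℝ) * |s x - s y|) ≤
      Real.exp cs * (1 + (2 : ℝ) ^ j * ‖x - y‖) ^ cs)
    (hS : ∀ x, |s x| ≤ S) (r : ℝ) (hr : 0 < r) (M : ℝ) (j k : ℕ) (hjk : k ∈ Finset.Icc (j - 1) (j + 1))
    (τ : ℝ≥0∞) (hτ : τ ≠ ∞) (g : E n → ℝ≥0∞) (x : E n) :
    (τ * ENNReal.ofReal ((2 : ℝ) ^ ((j : ℝ) * s x))) ^ r * avg k (M + r * cs) (fun y => g y ^ r) x ≤
      ENNReal.ofReal (((2 : ℝ) ^ S * Real.exp cs) ^ r) *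
        avg k M (fun y => (τ * (ENNReal.ofReal ((2 : ℝ) ^ ((k : ℝ) * s y)) * g y)) ^ r) x := by
  unfold avg
  rw [← lintegral_const_mul' _ _ (ENNReal.rpow_ne_top_of_nonneg hr.le
    (ENNReal.mul_ne_top hτ ENNReal.ofReal_ne_top)), ← lintegral_const_mul' _ _ ENNReal.ofReal_ne_top]
  apply lintegral_mono
  intro y
  simp only
  have h1 := weight_ineq s cs S hL hS r hr M j k hjk x y
  rw [ENNReal.mul_rpow_of_nonneg _ _ hr.le, ENNReal.mul_rpow_of_nonneg _ _ hr.le,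
    ENNReal.mul_rpow_of_nonneg _ _ hr.le, ENNReal.ofReal_rpow_of_pos (by positivity),
    ENNReal.ofReal_rpow_of_pos (by positivity), ENNReal.ofReal_mul (by positivity),
    ENNReal.ofReal_mul (by positivity)]
  have h2 := ENNReal.ofReal_le_ofReal h1
  rw [ENNReal.ofReal_mul (by positivity), ENNReal.ofReal_mul (by positivity),
    ENNReal.ofReal_mul (by positivity)] at h2
  calc τ ^ r * ENNReal.ofReal (((2 : ℝ) ^ ((j : ℝ) * s x)) ^ r) *
        (ENNReal.ofReal ((2 : ℝ) ^ ((k : ℝ) * n)) *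
          ENNReal.ofReal ((1 + (2 : ℝ) ^ k * ‖x - y‖) ^ (-(M + r * cs))) * g y ^ r)
      = τ ^ r * ENNReal.ofReal ((2 : ℝ) ^ ((k : ℝ) * n)) * g y ^ r *
        (ENNReal.ofReal (((2 : ℝ) ^ ((j : ℝ) * s x)) ^ r) *
          ENNReal.ofReal ((1 + (2 : ℝ) ^ k * ‖x - y‖) ^ (-(M + r * cs)))) := by ring
    _ ≤ τ ^ r * ENNReal.ofReal ((2 : ℝ) ^ ((k : ℝ) * n)) * g y ^ r *
        (ENNReal.ofReal (((2 : ℝ) ^ S * Real.exp cs) ^ r) *
          (ENNReal.ofReal ((1 + (2 : ℝ) ^ k * ‖x - y‖) ^ (-M)) *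
            ENNReal.ofReal (((2 : ℝ) ^ ((k : ℝ) * s y)) ^ r))) := mul_le_mul' le_rfl h2
    _ = _ := by ring

/-- One of the two inequalities, from the hypotheses `H3`, `H5` (the statements of
`t3_vector` and `t5_pointwise`). -/
theorem half (hn : 0 < n) (ρ : ℝ) (p q : E n → ℝ≥0∞) (s : E n → ℝ)
    (hp : PLog p) (hp' : essSup p volume < ∞) (hq : PLog q) (hs : LogLoc s)
    (φ ψ : 𝓢(E n, ℂ)) (hφ : Admissible ρ φ) (hψ : Admissible ρ ψ)
    (H3 : ∀ (P : E n → ℝ) (_ : LogGlob P) (a b : ℝ) (_ : 1 < a) (_ : ∀ x, a ≤ P x ∧ P x ≤ b)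
      (q : E n → ℝ≥0∞) (_ : Measurable q) (_ : ∀ x, 1 ≤ q x)
      (_ : LogLoc fun x => ((q x)⁻¹).toReal),
      ∃ M₀ : ℝ, ∀ M ≥ M₀, ∃ C : ℝ≥0, ∀ G : ℕ → E n → ℝ≥0∞, (∀ j, Measurable (G j)) →
        ∫⁻ x, (lqNorm (q x) fun j => G j x) ^ P x ≤ 1 →
        ∫⁻ x, (lqNorm (q x) fun j => avg j M (G j) x) ^ P x ≤ C)
    (H5 : ∀ (φ ψ : 𝓢(E n, ℂ)) (_ : Admissible ρ φ) (_ : Admissible ρ ψ) (r : ℝ) (_ : 0 < r)
      (_ : r ≤ 1) (M : ℝ) (_ : 0 ≤ M),
      ∃ C : ℝ≥0, ∀ (f : 𝓢'(E n, ℂ)) (j : ℕ) (x : E n),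
        ‖piece (res φ j) f x‖ₑ ^ r ≤
          C * ∑ k ∈ Finset.Icc (j - 1) (j + 1), avg k M (fun y => ‖piece (res ψ k) f y‖ₑ ^ r) x) :
    ∃ C : ℝ≥0, ∀ f : 𝓢'(E n, ℂ), tlNorm φ p q s f ≤ C * tlNorm ψ p q s f := by
  obtain ⟨c0, b, hc0, hb, hcp, hpb⟩ := exponent_bounds p hp hp'
  obtain ⟨hqm, ⟨cq, hcq, hcqq⟩, ⟨hqlog, -⟩⟩ := hq
  have hpfin : ∀ x, p x ≠ ∞ := fun x => ne_top_of_le_ne_top ENNReal.ofReal_ne_top (hpb x)
  have hq0 : ∀ x, q x ≠ 0 := fun x => (lt_of_le_of_lt zero_le (hcqq x)).ne'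
  have hcq' : (0 : ℝ) < cq := hcq
  set c : ℝ := min (min c0 cq) 1 with hc
  have hcpos : 0 < c := lt_min (lt_min hc0 hcq') one_pos
  have hcc0 : c ≤ c0 := (min_le_left _ _).trans (min_le_left _ _)
  have hccq : c ≤ cq := (min_le_left _ _).trans (min_le_right _ _)
  have hc1 : c ≤ 1 := min_le_right _ _
  set r : ℝ := c / 2 with hr
  have hr0 : 0 < r := by positivity
  have hr1 : r ≤ 1 := by linarith
  have hreal : ∀ x, c0 ≤ (p x).toReal ∧ (p x).toReal ≤ b := by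
    intro x
    constructor
    · exact (ENNReal.ofReal_le_iff_le_toReal (hpfin x)).1 (hcp x)
    · exact ENNReal.toReal_le_of_le_ofReal hb.le (hpb x)
  set P : E n → ℝ := fun x => (p x).toReal / r with hP
  have hPlog : LogGlob P := logGlob_exponent hn p hp.2.2 c0 b hc0 hb hcp hpb r hr0
  have hPab : ∀ x, 2 ≤ P x ∧ P x ≤ b / r := by
    intro x
    constructor
    · simp only [hP]
      rw [le_div_iff₀ hr0]
      linarith [(hreal x).1]
    · simp only [hP]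
      gcongr
      exact (hreal x).2
  have hrr : ENNReal.ofReal r ≠ 0 := by simpa using hr0
  set Q : E n → ℝ≥0∞ := fun x => q x / ENNReal.ofReal r with hQ
  have hQm : Measurable Q := hqm.div_const _
  have hQ1 : ∀ x, 1 ≤ Q x := by
    intro x
    simp only [hQ]
    rw [ENNReal.le_div_iff_mul_le (Or.inl hrr) (Or.inl ENNReal.ofReal_ne_top), one_mul]
    refine le_trans ?_ (hcqq x).le
    rw [← ENNReal.ofReal_coe_nnreal]
    apply ENNReal.ofReal_le_ofReal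
    linarith
  have hQlog : LogLoc fun x => ((Q x)⁻¹).toReal := by
    have h1 : (fun x => ((Q x)⁻¹).toReal) = fun x => r * ((q x)⁻¹).toReal := by
      funext x
      simp only [hQ]
      rw [ENNReal.inv_div (Or.inl ENNReal.ofReal_ne_top) (Or.inl hrr), div_eq_mul_inv,
        ENNReal.toReal_mul, ENNReal.toReal_ofReal hr0.le]
    rw [h1]
    exact logLoc_const_mul hqlog r
  obtain ⟨M₀, hM₀⟩ := H3 P hPlog 2 (b / r) (by norm_num) hPab Q hQm hQ1 hQlog
  obtain ⟨cs, hcs, -, hL⟩ := lemmaL hs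
  obtain ⟨S, hS0, hS⟩ := bounded_of_logLoc hs
  set M3 : ℝ := max M₀ 0 with hM3
  obtain ⟨C3, hC3⟩ := hM₀ M3 (le_max_left _ _)
  obtain ⟨C5, hC5⟩ := H5 φ ψ hφ hψ r hr0 hr1 (M3 + r * cs) (by positivity)
  set C6 : ℝ≥0 := Real.toNNReal (((2 : ℝ) ^ S * Real.exp cs) ^ r) with hC6
  set K : ℝ≥0 := 12 * (C5 * C6) + 1 with hK
  set C7 : ℝ≥0 := K ^ (b / r) * C3 with hC7
  set C : ℝ≥0 := max 1 (C7 ^ (1 / c0)) with hCdef
  have hC1 : 1 ≤ C := le_max_left _ _
  have hC0 : C ≠ 0 := (lt_of_lt_of_le one_pos hC1).ne'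
  refine ⟨C, fun f => ?_⟩
  -- the functions
  set aφ : ℕ → E n → ℝ≥0∞ := fun j x =>
    ENNReal.ofReal ((2 : ℝ) ^ ((j : ℝ) * s x)) * ‖piece (res φ j) f x‖ₑ with haφ
  set aψ : ℕ → E n → ℝ≥0∞ := fun j x =>
    ENNReal.ofReal ((2 : ℝ) ^ ((j : ℝ) * s x)) * ‖piece (res ψ j) f x‖ₑ with haψ
  have hφn : tlNorm φ p q s f = lpNorm p fun x => lqNorm (q x) fun j => aφ j x := rfl
  have hψn : tlNorm ψ p q s f = lpNorm p fun x => lqNorm (q x) fun j => aψ j x := rfl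
  rw [hφn, hψn]
  have haψm : ∀ j, Measurable (aψ j) := by
    intro j
    have h1 : Measurable fun x => ENNReal.ofReal ((2 : ℝ) ^ ((j : ℝ) * s x)) :=
      ENNReal.measurable_ofReal.comp (Continuous.rpow continuous_const (continuous_const.mul hs.1)
        (fun x => Or.inl (by norm_num))).measurable
    have h2 : Measurable fun x => ‖piece (res ψ j) f x‖ₑ :=
      (t4_continuous (res ψ j) f).enorm.measurable
    exact h1.mul h2
  -- the main estimate
  have main : ∀ t : ℝ≥0, 0 < t →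
      modular p (fun x => lqNorm (q x) (fun j => aψ j x) / (t : ℝ≥0∞)) ≤ 1 →
      modular p (fun x => lqNorm (q x) (fun j => aφ j x) / ((C * t : ℝ≥0) : ℝ≥0∞)) ≤ 1 := by
    intro t ht h
    rw [modular_eq p hpfin] at h ⊢
    set τ : ℝ≥0∞ := ((t : ℝ≥0∞))⁻¹ with hτ
    have ht' : (t : ℝ≥0∞) ≠ 0 := by exact_mod_cast ht.ne'
    have hτtop : τ ≠ ∞ := ENNReal.inv_ne_top.2 ht'
    have hconv : ∀ (a : ℕ → E n → ℝ≥0∞) (x : E n),
        (lqNorm (q x) (fun j => a j x) / (t : ℝ≥0∞)) ^ (p x).toReal =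
          (lqNorm (Q x) (fun j => (τ * a j x) ^ r)) ^ P x := by
      intro a x
      simp only [hQ]
      rw [lqNorm_rpow (hq0 x) hr0, lqNorm_const_mul (hq0 x), ← ENNReal.rpow_mul, div_eq_mul_inv,
        mul_comm]
      congr 1
      simp only [hP]
      field_simp
    simp only [hconv] at h
    set G : ℕ → E n → ℝ≥0∞ := fun j x => (τ * aψ j x) ^ r with hG
    have hGm : ∀ j, Measurable (G j) := fun j => ((haψm j).const_mul τ).pow_const r
    have hA := hC3 G hGm h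
    have hH : ∀ j x, (τ * aφ j x) ^ r ≤
        ((C5 * C6 : ℝ≥0) : ℝ≥0∞) * ∑ k ∈ Finset.Icc (j - 1) (j + 1), avg k M3 (G k) x := by
      intro j x
      have h1 : (τ * aφ j x) ^ r = (τ * ENNReal.ofReal ((2 : ℝ) ^ ((j : ℝ) * s x))) ^ r *
          ‖piece (res φ j) f x‖ₑ ^ r := by
        rw [← ENNReal.mul_rpow_of_nonneg _ _ hr0.le, haφ]
        simp only [mul_assoc]
      rw [h1]
      calc (τ * ENNReal.ofReal ((2 : ℝ) ^ ((j : ℝ) * s x))) ^ r * ‖piece (res φ j) f x‖ₑ ^ r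
          ≤ (τ * ENNReal.ofReal ((2 : ℝ) ^ ((j : ℝ) * s x))) ^ r *
            (C5 * ∑ k ∈ Finset.Icc (j - 1) (j + 1),
              avg k (M3 + r * cs) (fun y => ‖piece (res ψ k) f y‖ₑ ^ r) x) := by
            gcongr
            exact hC5 f j x
        _ = C5 * ∑ k ∈ Finset.Icc (j - 1) (j + 1),
              ((τ * ENNReal.ofReal ((2 : ℝ) ^ ((j : ℝ) * s x))) ^ r *
              avg k (M3 + r * cs) (fun y => ‖piece (res ψ k) f y‖ₑ ^ r) x) := by
            rw [← Finset.mul_sum]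
            ring
        _ ≤ C5 * ∑ k ∈ Finset.Icc (j - 1) (j + 1), ((C6 : ℝ≥0∞) * avg k M3 (G k) x) := by
            refine mul_le_mul' le_rfl (Finset.sum_le_sum fun k hk => ?_)
            exact avg_weight s cs S hL hS r hr0 M3 j k hk τ hτtop _ x
        _ = _ := by
            rw [← Finset.mul_sum, ENNReal.coe_mul]
            ring
    have hHq : ∀ x, lqNorm (Q x) (fun j => (τ * aφ j x) ^ r) ≤
        (K : ℝ≥0∞) * lqNorm (Q x) (fun j => avg j M3 (G j) x) := by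
      intro x
      have hQ0 : Q x ≠ 0 := (lt_of_lt_of_le one_pos (hQ1 x)).ne'
      calc lqNorm (Q x) (fun j => (τ * aφ j x) ^ r)
          ≤ lqNorm (Q x) (fun j => ((C5 * C6 : ℝ≥0) : ℝ≥0∞) *
              ∑ k ∈ Finset.Icc (j - 1) (j + 1), avg k M3 (G k) x) := lqNorm_mono _ fun j => hH j x
        _ = ((C5 * C6 : ℝ≥0) : ℝ≥0∞) * lqNorm (Q x) (fun j =>
              ∑ k ∈ Finset.Icc (j - 1) (j + 1), avg k M3 (G k) x) := lqNorm_const_mul hQ0 _ _
        _ ≤ ((C5 * C6 : ℝ≥0) : ℝ≥0∞) * (12 * lqNorm (Q x) (fun j => avg j M3 (G j) x)) := by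
            gcongr
            exact lqNorm_three (hQ1 x) _
        _ ≤ _ := by
            rw [← mul_assoc]
            gcongr
            rw [hK]
            push_cast
            rw [mul_comm]
            exact le_self_add
    have hK1 : (1 : ℝ≥0∞) ≤ K := by
      rw [hK]
      push_cast
      exact le_add_self
    have hC7' : ∫⁻ x, (lqNorm (Q x) (fun j => (τ * aφ j x) ^ r)) ^ P x ≤ C7 := by
      calc ∫⁻ x, (lqNorm (Q x) (fun j => (τ * aφ j x) ^ r)) ^ P x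
          ≤ ∫⁻ x, (K : ℝ≥0∞) ^ (b / r) * (lqNorm (Q x) (fun j => avg j M3 (G j) x)) ^ P x := by
            apply lintegral_mono
            intro x
            have hPx : 0 ≤ P x := by linarith [(hPab x).1]
            calc (lqNorm (Q x) (fun j => (τ * aφ j x) ^ r)) ^ P x
                ≤ ((K : ℝ≥0∞) * lqNorm (Q x) (fun j => avg j M3 (G j) x)) ^ P x :=
                  ENNReal.rpow_le_rpow (hHq x) hPx
              _ = (K : ℝ≥0∞) ^ P x * (lqNorm (Q x) (fun j => avg j M3 (G j) x)) ^ P x :=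
                  ENNReal.mul_rpow_of_nonneg _ _ hPx
              _ ≤ _ := mul_le_mul' (ENNReal.rpow_le_rpow_of_exponent_le hK1 (hPab x).2) le_rfl
        _ = (K : ℝ≥0∞) ^ (b / r) * ∫⁻ x, (lqNorm (Q x) (fun j => avg j M3 (G j) x)) ^ P x := by
            rw [lintegral_const_mul']
            exact ENNReal.rpow_ne_top_of_nonneg (by positivity) ENNReal.coe_ne_top
        _ ≤ (K : ℝ≥0∞) ^ (b / r) * C3 := by gcongr
        _ = C7 := by
            rw [hC7, ENNReal.coe_mul, ENNReal.coe_rpow_of_nonneg _ (by positivity)]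
    -- rescaling
    have hCt : ∀ x, (lqNorm (q x) (fun j => aφ j x) / ((C * t : ℝ≥0) : ℝ≥0∞)) ^ (p x).toReal ≤
        ((C : ℝ≥0∞) ^ c0)⁻¹ * (lqNorm (Q x) (fun j => (τ * aφ j x) ^ r)) ^ P x := by
      intro x
      rw [← hconv aφ x, ENNReal.coe_mul, div_eq_mul_inv,
        ENNReal.mul_inv (Or.inr ENNReal.coe_ne_top) (Or.inr ht'), ← mul_assoc, mul_right_comm,
        mul_comm _ ((C : ℝ≥0∞))⁻¹, ← div_eq_mul_inv,
        ENNReal.mul_rpow_of_nonneg _ _ ENNReal.toReal_nonneg]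
      gcongr
      rw [ENNReal.inv_rpow, ENNReal.inv_le_inv]
      exact ENNReal.rpow_le_rpow_of_exponent_le (by exact_mod_cast hC1) (hreal x).1
    calc ∫⁻ x, (lqNorm (q x) (fun j => aφ j x) / ((C * t : ℝ≥0) : ℝ≥0∞)) ^ (p x).toReal
        ≤ ∫⁻ x, ((C : ℝ≥0∞) ^ c0)⁻¹ * (lqNorm (Q x) (fun j => (τ * aφ j x) ^ r)) ^ P x :=
          lintegral_mono hCt
      _ = ((C : ℝ≥0∞) ^ c0)⁻¹ * ∫⁻ x, (lqNorm (Q x) (fun j => (τ * aφ j x) ^ r)) ^ P x := by
          rw [lintegral_const_mul']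
          rw [ENNReal.inv_ne_top]
          apply ne_of_gt
          apply ENNReal.rpow_pos
          · exact_mod_cast hC0.bot_lt
          · exact ENNReal.coe_ne_top
      _ ≤ ((C : ℝ≥0∞) ^ c0)⁻¹ * C7 := by gcongr
      _ ≤ 1 := by
          rw [mul_comm, ← div_eq_mul_inv]
          apply ENNReal.div_le_of_le_mul
          rw [one_mul]
          have h1 : C7 ^ (1 / c0) ≤ C := le_max_right _ _
          have h2 : C7 ≤ C ^ c0 := by
            have h3 := NNReal.rpow_le_rpow h1 hc0.le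
            rwa [← NNReal.rpow_mul, one_div, inv_mul_cancel₀ hc0.ne', NNReal.rpow_one] at h3
          rw [← ENNReal.coe_rpow_of_nonneg _ hc0.le]
          exact_mod_cast h2
  -- conclusion
  unfold lpNorm
  rw [ENNReal.mul_iInf_of_ne (by exact_mod_cast hC0) ENNReal.coe_ne_top]
  apply le_iInf
  rintro ⟨t, ht, hm⟩
  have hCt0 : 0 < C * t := mul_pos hC0.bot_lt ht
  refine (iInf_le _ ⟨C * t, hCt0, main t ht hm⟩).trans ?_
  simp only
  rw [ENNReal.coe_mul]

end T6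

variable {n : ℕ}

/-- T6, with the statements of `t3_vector` and `t5_pointwise` as hypotheses. -/
theorem t6_final_of (hn : 0 < n) (ρ : ℝ) (p q : E n → ℝ≥0∞) (s : E n → ℝ)
    (hp : PLog p) (hp' : essSup p volume < ∞) (hq : PLog q) (hs : LogLoc s)
    (φ ψ : 𝓢(E n, ℂ)) (hφ : Admissible ρ φ) (hψ : Admissible ρ ψ)
    (H3 : ∀ (P : E n → ℝ) (_ : LogGlob P) (a b : ℝ) (_ : 1 < a) (_ : ∀ x, a ≤ P x ∧ P x ≤ b)
      (q : E n → ℝ≥0∞) (_ : Measurable q) (_ : ∀ x, 1 ≤ q x)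
      (_ : LogLoc fun x => ((q x)⁻¹).toReal),
      ∃ M₀ : ℝ, ∀ M ≥ M₀, ∃ C : ℝ≥0, ∀ G : ℕ → E n → ℝ≥0∞, (∀ j, Measurable (G j)) →
        ∫⁻ x, (lqNorm (q x) fun j => G j x) ^ P x ≤ 1 →
        ∫⁻ x, (lqNorm (q x) fun j => avg j M (G j) x) ^ P x ≤ C)
    (H5 : ∀ (φ ψ : 𝓢(E n, ℂ)) (_ : Admissible ρ φ) (_ : Admissible ρ ψ) (r : ℝ) (_ : 0 < r)
      (_ : r ≤ 1) (M : ℝ) (_ : 0 ≤ M),
      ∃ C : ℝ≥0, ∀ (f : 𝓢'(E n, ℂ)) (j : ℕ) (x : E n),
        ‖piece (res φ j) f x‖ₑ ^ r ≤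
          C * ∑ k ∈ Finset.Icc (j - 1) (j + 1), avg k M (fun y => ‖piece (res ψ k) f y‖ₑ ^ r) x) :
    ∃ C : ℝ≥0, ∀ f : 𝓢'(E n, ℂ),
      tlNorm φ p q s f ≤ C * tlNorm ψ p q s f ∧ tlNorm ψ p q s f ≤ C * tlNorm φ p q s f := by
  obtain ⟨C1, h1⟩ := T6.half hn ρ p q s hp hp' hq hs φ ψ hφ hψ H3 H5
  obtain ⟨C2, h2⟩ := T6.half hn ρ p q s hp hp' hq hs ψ φ hψ hφ H3 H5
  refine ⟨max C1 C2, fun f => ⟨(h1 f).trans ?_, (h2 f).trans ?_⟩⟩
  · gcongr
    exact le_max_left _ _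
  · gcongr
    exact le_max_right _ _

end Pool.Agent.Lib.MP_2116eb_an
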